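import Pool.Agent.NQ2.St2

/-!
Project NQ2 (MP_5e85fc_lc): probabilistic multihead finite automata whose steps use a random
element of a finite set, against time dependent machines.
-/

set_option autoImplicit false

namespace Pool.Agent.NQ2

open Pool.Agent.Heads

/-- A two-way probabilistic finite automaton with `k` heads. In each step a random element of the
finite set `R` is drawn (uniformly, independently of the other steps); it, the state and the
scanned symbols determine the next state and the moves of the heads (`none`: no step). -/
structure RFA (α : Type) (k : ℕ) where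
  Q : Type
  R : Type
  finQ : Finite Q
  finR : Finite R
  neR : Nonempty R
  start : Q
  accept : Set Q
  δ : R → Q → (Fin k → Sym α) → Option (Q × (Fin k → Dir))

/-- The state and the positions of the heads after `i` steps on the word `w` (`i ≤ t`), if the
random elements of the first `t` steps are `r 0, …, r (t - 1)`. All heads start on the left
endmarker. -/
def RFA.conf {α : Type} {k : ℕ} (M : RFA α k) (w : List α) {t : ℕ} (r : Fin t → M.R) :
    ℕ → Option (M.Q × (Fin k → ℕ))
  | 0 => some (M.start, fun _ => 0)
  | i + 1 => if h : i < t then (M.conf w r i).bind fun c =>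
      (M.δ (r ⟨i, h⟩) c.1 fun a => tape w (c.2 a)).map fun qd =>
        (qd.1, fun a => move (w.length + 1) (c.2 a) (qd.2 a)) else none

/-- With the random elements `r`, the automaton is in an accepting state after at most `t`
steps. -/
def RFA.Acc {α : Type} {k : ℕ} (M : RFA α k) (w : List α) {t : ℕ} (r : Fin t → M.R) : Prop :=
  ∃ i ≤ t, ∃ c, M.conf w r i = some c ∧ c.1 ∈ M.accept

/-- The probability that `M` accepts `w` in at most `t` steps. -/
noncomputable def RFA.pr {α : Type} {k : ℕ} (M : RFA α k) (w : List α) (t : ℕ) : ℝ :=
  (Nat.card {r : Fin t → M.R // M.Acc w r} : ℝ) / (Nat.card M.R : ℝ) ^ t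

open scoped Classical in
/-- The probability that `M` is right about the membership of `w` in `L` in time `t`: the
probability that `M` accepts `w` in at most `t` steps if `w` is in `L`, and the probability that
it does not if `w` is not in `L`. -/
noncomputable def RFA.right {α : Type} {k : ℕ} (M : RFA α k) (L : Set (List α)) (w : List α)
    (t : ℕ) : ℝ := if w ∈ L then M.pr w t else 1 - M.pr w t

namespace PFAC_aux

attribute [local instance] Classical.propDecidable

variable {α : Type} {k : ℕ}

/-- The total transition function for fixed random elements (`none`: the computation is over). -/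
def tot (M : RFA α k) {t : ℕ} (r : Fin t → M.R) :
    ℕ → Option M.Q → (Fin k → Sym α) → Option M.Q × (Fin k → Dir) := fun j q x =>
  match (if h : j < t then q.bind fun q => M.δ (r ⟨j, h⟩) q x else none) with
  | some qd => (some qd.1, qd.2)
  | none => (none, fun _ => Dir.S)

lemma tot_none (M : RFA α k) {t : ℕ} (r : Fin t → M.R) (j : ℕ) (x : Fin k → Sym α) :
    (tot M r j none x).1 = none := by
  unfold tot
  by_cases h : j < t
  · rw [dif_pos h]; rfl
  · rw [dif_neg h]

/-- The configurations of the total machine. -/
lemma grun_conf (M : RFA α k) (w : List α) {t : ℕ} (r : Fin t → M.R) (i : ℕ) :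
    (∀ c, M.conf w r i = some c → grun (tot M r) (some M.start) w i = (some c.1, c.2)) ∧
    (M.conf w r i = none → (grun (tot M r) (some M.start) w i).1 = none) := by
  induction i with
  | zero =>
    refine ⟨?_, ?_⟩
    · intro c h
      have h1 : (M.start, fun _ => 0) = c := Option.some.inj h
      rw [← h1]
      rfl
    · intro h
      exact absurd h (by simp [RFA.conf])
  | succ i ih =>
    obtain ⟨ih1, ih2⟩ := ih
    by_cases hi : i < t
    · cases h1 : M.conf w r i with
      | none =>
        have h2 := ih2 h1
        have h3 : M.conf w r (i + 1) = none := by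
          unfold RFA.conf
          rw [dif_pos hi, h1]
          rfl
        have h4 : (grun (tot M r) (some M.start) w (i + 1)).1 = none := by
          unfold grun
          rw [h2]
          exact tot_none M r i _
        refine ⟨fun c h => ?_, fun _ => h4⟩
        rw [h3] at h
        exact absurd h (by simp)
      | some c' =>
        have h2 := ih1 c' h1
        cases h5 : M.δ (r ⟨i, hi⟩) c'.1 (fun a => tape w (c'.2 a)) with
        | none =>
          have h3 : M.conf w r (i + 1) = none := by
            unfold RFA.conf
            rw [dif_pos hi, h1, Option.bind_some, h5]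
            rfl
          have h4 : (grun (tot M r) (some M.start) w (i + 1)).1 = none := by
            unfold grun
            rw [h2]
            unfold tot
            rw [dif_pos hi, Option.bind_some, h5]
          refine ⟨fun c h => ?_, fun _ => h4⟩
          rw [h3] at h
          exact absurd h (by simp)
        | some qd =>
          have h3 : M.conf w r (i + 1) = some (qd.1, fun a => move (w.length + 1) (c'.2 a)
              (qd.2 a)) := by
            unfold RFA.conf
            rw [dif_pos hi, h1, Option.bind_some, h5]
            rfl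
          have h4 : grun (tot M r) (some M.start) w (i + 1) =
              (some qd.1, fun a => move (w.length + 1) (c'.2 a) (qd.2 a)) := by
            unfold grun
            rw [h2]
            unfold tot
            rw [dif_pos hi, Option.bind_some, h5]
          refine ⟨fun c h => ?_, fun h => ?_⟩
          · rw [h3] at h
            rw [h4, ← Option.some.inj h]
          · rw [h3] at h
            exact absurd h (by simp)
    · have h3 : M.conf w r (i + 1) = none := by
        unfold RFA.conf
        rw [dif_neg hi]
      refine ⟨fun c h => ?_, fun _ => ?_⟩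
      · rw [h3] at h
        exact absurd h (by simp)
      · unfold grun
        unfold tot
        rw [dif_neg hi]

lemma acc_iff (M : RFA α k) (w : List α) {t : ℕ} (r : Fin t → M.R) :
    M.Acc w r ↔ ∃ i ≤ t, (grun (tot M r) (some M.start) w i).1 ∈ some '' M.accept := by
  constructor
  · rintro ⟨i, hi, c, h1, h2⟩
    refine ⟨i, hi, c.1, h2, ?_⟩
    rw [(grun_conf M w r i).1 c h1]
  · rintro ⟨i, hi, q, hq, h⟩
    cases h1 : M.conf w r i with
    | none =>
      have := (grun_conf M w r i).2 h1
      rw [← h] at this
      exact absurd this (by simp)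
    | some c =>
      have := (grun_conf M w r i).1 c h1
      rw [this] at h
      refine ⟨i, hi, c, h1, ?_⟩
      have h2 : q = c.1 := Option.some.inj h
      rw [← h2]
      exact hq

lemma card_pos (M : RFA α k) (t : ℕ) : (0 : ℝ) < (Nat.card M.R : ℝ) ^ t := by
  have := M.finR
  have := M.neR
  have : 0 < Nat.card M.R := Nat.card_pos
  positivity

/-- The probability to be right as a fraction. -/
lemma right_eq (M : RFA α k) (L : Set (List α)) (w : List α) (t : ℕ) :
    M.right L w t = (Nat.card {r : Fin t → M.R // (w ∈ L ↔ M.Acc w r)} : ℝ) /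
      (Nat.card M.R : ℝ) ^ t := by
  have := M.finR
  have hfin : Finite (Fin t → M.R) := inferInstance
  have hp := card_pos M t
  unfold RFA.right RFA.pr
  by_cases hw : w ∈ L
  · rw [if_pos hw]
    congr 3
    refine congrArg Subtype ?_
    funext r
    simp [hw]
  · rw [if_neg hw, eq_div_iff hp.ne', sub_mul, one_mul, div_mul_cancel₀ _ hp.ne']
    have h1 : Nat.card {r : Fin t → M.R // (w ∈ L ↔ M.Acc w r)} =
        Nat.card {r : Fin t → M.R // ¬ M.Acc w r} := by
      refine congrArg Nat.card (congrArg Subtype ?_)
      funext r
      simp [hw]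
    have h2 : Nat.card {r : Fin t → M.R // M.Acc w r} +
        Nat.card {r : Fin t → M.R // ¬ M.Acc w r} = Nat.card M.R ^ t := by
      have e := Equiv.sumCompl (fun r : Fin t → M.R => M.Acc w r)
      rw [← Nat.card_sum, Nat.card_congr e, Nat.card_fun, Nat.card_fin]
    rw [h1]
    have h3 : ((Nat.card {r : Fin t → M.R // M.Acc w r} : ℕ) : ℝ) +
        (Nat.card {r : Fin t → M.R // ¬ M.Acc w r} : ℕ) = (Nat.card M.R : ℝ) ^ t := by
      exact_mod_cast h2
    linarith

/-- If every choice of the random elements is right on at most `B` words of `H`, then the average is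
at most `B`. -/
lemma derand (M : RFA α k) (L : Set (List α)) (H : Finset (List α)) (t : ℕ) (B : ℝ)
    (h : ∀ r : Fin t → M.R, ({w | w ∈ H ∧ (w ∈ L ↔ M.Acc w r)}.ncard : ℝ) ≤ B) :
    ∑ w ∈ H, M.right L w t ≤ B := by
  have := M.finR
  have hfr : Fintype M.R := Fintype.ofFinite M.R
  have hp := card_pos M t
  have e1 : ∀ w, M.right L w t = (∑ r : Fin t → M.R,
      (if (w ∈ L ↔ M.Acc w r) then (1 : ℝ) else 0)) / (Nat.card M.R : ℝ) ^ t := by
    intro w
    rw [right_eq, Finset.sum_boole, Nat.card_eq_fintype_card, Fintype.card_subtype]
  rw [Finset.sum_congr rfl fun w _ => e1 w, ← Finset.sum_div, Finset.sum_comm,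
    div_le_iff₀ hp]
  have e2 : ∀ r : Fin t → M.R, ∑ w ∈ H, (if (w ∈ L ↔ M.Acc w r) then (1 : ℝ) else 0) ≤ B := by
    intro r
    refine le_trans (le_of_eq ?_) (h r)
    rw [Finset.sum_boole]
    congr 1
    rw [← Set.ncard_coe_finset]
    congr 1
    ext w
    simp
  refine (Finset.sum_le_sum fun r _ => e2 r).trans ?_
  rw [Finset.sum_const, Finset.card_univ, nsmul_eq_mul]
  have e3 : ((Fintype.card (Fin t → M.R) : ℕ) : ℝ) = (Nat.card M.R : ℝ) ^ t := by
    rw [Fintype.card_fun, Fintype.card_fin, Nat.card_eq_fintype_card]
    push_cast
    rfl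
  rw [e3, mul_comm]

end PFAC_aux

open PFAC_aux in
/-- If every time dependent machine with at most one more state is right on at most `B` words of `H`
in time `t`, then the sum over `H` of the probabilities of a probabilistic automaton to be right
is at most `B`. -/
theorem RFA.sum_right_le {α : Type} {k : ℕ} (M : RFA α k) (L : Set (List α))
    (H : Finset (List α)) (t : ℕ) (B : ℝ)
    (h : ∀ (Q : Type) [Finite Q] (q0 : Q) (acc : Set Q)
      (δ : ℕ → Q → (Fin k → Sym α) → Q × (Fin k → Dir)), Nat.card Q = Nat.card M.Q + 1 →
      ({w | w ∈ H ∧ (w ∈ L ↔ ∃ i ≤ t, (grun δ q0 w i).1 ∈ acc)}.ncard : ℝ) ≤ B) :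
    ∑ w ∈ H, M.right L w t ≤ B := by
  have := M.finQ
  refine derand M L H t B fun r => ?_
  have h1 := h (Option M.Q) (some M.start) (some '' M.accept) (tot M r) (by
    have := Fintype.ofFinite M.Q
    rw [Nat.card_eq_fintype_card, Nat.card_eq_fintype_card, Fintype.card_option])
  have e1 : {w | w ∈ H ∧ (w ∈ L ↔ M.Acc w r)} =
      {w | w ∈ H ∧ (w ∈ L ↔ ∃ i ≤ t,
        (grun (tot M r) (some M.start) w i).1 ∈ some '' M.accept)} := by
    ext w
    show _ ∧ _ ↔ _ ∧ _
    rw [acc_iff]
  rw [e1]
  exact h1

end Pool.Agent.NQ2
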