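import Pool.Agent.NQ2.Core
import Pool.Agent.NQ2.PFAC

/-!
Project NQ2 (MP_5e85fc_lc): the final theorem from the module statements; the probabilistic
automata are those of `PFAC.lean` (a random element of a finite set in each step).
-/

set_option autoImplicit false

namespace Pool.Agent.NQ2

open Pool.Agent.Heads Filter Asymptotics

/-- `L` is accepted by a two-way deterministic multihead finite automaton in time `f`: every word
`w` in `L` is accepted in at most `f |w|` steps. -/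
def DFATime (f : ℕ → ℝ) {α : Type} (L : Set (List α)) : Prop :=
  ∃ (k : ℕ) (M : FA α k), M.Det ∧ M.lang = L ∧
    ∀ w ∈ L, ∃ t : ℕ, (t : ℝ) ≤ f w.length ∧ AcceptsIn M w t

/-- `L` is accepted by a two-way probabilistic multihead finite automaton in time `f` with error
at most `1 / 3`: the probability that it accepts `w` in at most `f |w|` steps is at least `2 / 3`
if `w` is in `L`, and at most `1 / 3` otherwise. -/
def RFATime (f : ℕ → ℝ) {α : Type} (L : Set (List α)) : Prop :=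
  ∃ (k : ℕ) (M : RFA α k), ∀ w : List α,
    (w ∈ L → 2 / 3 ≤ M.pr w ⌊f w.length⌋₊) ∧ (w ∉ L → M.pr w ⌊f w.length⌋₊ ≤ 1 / 3)

lemma AcceptsIn.mono {α : Type} {k : ℕ} {M : FA α k} {w : List α} {t t' : ℕ} (h : t ≤ t')
    (hA : AcceptsIn M w t) : AcceptsIn M w t' := by
  obtain ⟨i, hi, c, h1, h2⟩ := hA
  exact ⟨i, hi.trans h, c, h1, h2⟩

lemma reachN_refl {A : Type} {step : A → A → Prop} {a b : A} {t : ℕ}
    (h : ReachN step a t b) : Relation.ReflTransGen step a b := by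
  induction h with
  | zero => exact Relation.ReflTransGen.refl
  | succ _ hs ih => exact ih.tail hs

lemma AcceptsIn.mem {α : Type} {k : ℕ} {M : FA α k} {w : List α} {t : ℕ}
    (hA : AcceptsIn M w t) : w ∈ M.lang := by
  obtain ⟨i, hi, c, h1, h2⟩ := hA
  exact ⟨c, reachN_refl h1, h2⟩

/-- The conclusion for one language. -/
theorem final2 (hABS : ABS_Stmt) (hGM : GMACH_Stmt) (hDF : DFAC_Stmt) (hLEN : LEN_Stmt)
    (hLAY : LAY_Stmt) (hINJ : INJ_Stmt) (hPAR : PAR_Stmt) (hPACC : PACC_Stmt) (hDET : PDET_Stmt)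
    (hTIME : PTIME_Stmt) (e : ℝ) (he : 0 < e) :
    ∃ (α : Type) (_ : Finite α) (L : Set (List α)),
      (∃ (h : ℕ) (P : PDA α h), P.Det ∧ (∀ q x g, ∀ u ∈ P.δ q x g, ∀ i, u.2.1 i ≠ Dir.L) ∧
        P.lang = L ∧ ∃ C : ℕ, ∀ w t c, P.Reach w t c → t ≤ C * (w.length + 1)) ∧
      (∃ c : ℝ, 0 < c ∧ ∀ᶠ n : ℕ in atTop, ∃ H : Finset (List α), H.Nonempty ∧
        (∀ w ∈ H, w.length = n) ∧
        (∀ (k : ℕ) (M : FA α k) (t : ℕ), M.Det →
          (Nat.card M.Q : ℝ) * ((n : ℝ) + 2) ^ k ≤ Real.exp (c * (Real.log n) ^ 2) →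
          (t : ℝ) ≤ (n : ℝ) ^ (2 - e) →
          ({w | w ∈ H ∧ (w ∈ L ↔ AcceptsIn M w t)}.ncard : ℝ) ≤
            (1 / 2 + (n : ℝ) ^ (-c)) * H.card) ∧
        (∀ (k : ℕ) (M : RFA α k) (t : ℕ),
          (Nat.card M.Q : ℝ) * ((n : ℝ) + 2) ^ k ≤ Real.exp (c * (Real.log n) ^ 2) →
          (t : ℝ) ≤ (n : ℝ) ^ (2 - e) →
          ∑ w ∈ H, M.right L w t ≤ (1 / 2 + (n : ℝ) ^ (-c)) * H.card)) ∧
      ∀ f : ℕ → ℝ, f =O[atTop] (fun n : ℕ => (n : ℝ) ^ (2 - e)) →
        ¬ DFATime f L ∧ ¬ RFATime f L := by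
  classical
  obtain ⟨p, hp, c, hc, hev⟩ := core hABS hGM hLEN hLAY hINJ hPAR hPACC (e / 2) (by linarith)
  -- the lower bound for deterministic automata on a hard set
  have hFA : ∀ n H, Hard p (e / 2) c n H → ∀ (k : ℕ) (M : FA (Lt (p + 1)) k) (t : ℕ), M.Det →
      (Nat.card M.Q : ℝ) * ((n : ℝ) + 2) ^ k ≤ Real.exp (c * (Real.log n) ^ 2) →
      (t : ℝ) ≤ (n : ℝ) ^ (2 - e / 2) →
      ({w | w ∈ H ∧ (w ∈ (pdaM p).lang ↔ AcceptsIn M w t)}.ncard : ℝ) ≤
        (1 / 2 + (n : ℝ) ^ (-c)) * H.card := by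
    intro n H hH k M t hM h1 h2
    obtain ⟨δ, hδ⟩ := hDF _ k M hM
    have := hH.2.2 k M.Q M.finQ M.start M.accept δ t h1 h2
    simpa only [hδ] using this
  -- the lower bound for probabilistic automata on a hard set
  have hPF : ∀ n H, Hard p (e / 2) c n H → 2 ≤ Real.exp (c / 2 * (Real.log n) ^ 2) →
      ∀ (k : ℕ) (M : RFA (Lt (p + 1)) k) (t : ℕ),
      (Nat.card M.Q : ℝ) * ((n : ℝ) + 2) ^ k ≤ Real.exp (c / 2 * (Real.log n) ^ 2) →
      (t : ℝ) ≤ (n : ℝ) ^ (2 - e / 2) →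
      ∑ w ∈ H, M.right (pdaM p).lang w t ≤ (1 / 2 + (n : ℝ) ^ (-c)) * H.card := by
    intro n H hH hn k M t h1 h2
    have hQ1 : (1 : ℝ) ≤ Nat.card M.Q := by
      haveI : Nonempty M.Q := ⟨M.start⟩
      haveI := M.finQ
      exact_mod_cast Nat.card_pos
    refine RFA.sum_right_le M _ H t _ fun Q hfQ q0 acc δ hcard => ?_
    refine hH.2.2 k Q hfQ q0 acc δ t ?_ h2
    rw [hcard]
    push_cast
    have h3 : (0 : ℝ) < ((n : ℝ) + 2) ^ k := by positivity
    have h4 : 0 < Real.exp (c / 2 * (Real.log n) ^ 2) := Real.exp_pos _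
    calc ((Nat.card M.Q : ℝ) + 1) * ((n : ℝ) + 2) ^ k ≤
          2 * ((Nat.card M.Q : ℝ) * ((n : ℝ) + 2) ^ k) := by nlinarith
      _ ≤ Real.exp (c / 2 * (Real.log n) ^ 2) * Real.exp (c / 2 * (Real.log n) ^ 2) :=
          mul_le_mul hn h1 (by positivity) h4.le
      _ = Real.exp (c * (Real.log n) ^ 2) := by rw [← Real.exp_add]; congr 1; ring
  have hpow : ∀ n : ℕ, 1 ≤ n → (n : ℝ) ^ (2 - e) ≤ (n : ℝ) ^ (2 - e / 2) := fun n hn =>
    Real.rpow_le_rpow_of_exponent_le (by exact_mod_cast hn) (by linarith)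
  -- polynomials are below `exp (c log ^ 2)`
  have hsize : ∀ (A : ℝ) (k : ℕ), ∀ᶠ n : ℕ in atTop,
      A * ((n : ℝ) + 2) ^ k ≤ Real.exp (c / 2 * (Real.log n) ^ 2) := by
    intro A k
    have hc2 : 0 < c / 2 := by linarith
    have hlog : Tendsto (fun n : ℕ => Real.log (n : ℝ)) atTop atTop :=
      Real.tendsto_log_atTop.comp tendsto_natCast_atTop_atTop
    have h1 := hlog.eventually_ge_atTop ((Real.log (|A| + 1) + 2 * k) / (c / 2) + 1)
    filter_upwards [h1, eventually_ge_atTop 2, hlog.eventually_ge_atTop 1] with n h1 h2 h3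
    have hn2 : (2 : ℝ) ≤ n := by exact_mod_cast h2
    have hA1 : (0 : ℝ) < |A| + 1 := by positivity
    have e1 : ((n : ℝ) + 2) ≤ Real.exp (2 * Real.log n) := by
      rw [two_mul, Real.exp_add, Real.exp_log (by linarith)]
      nlinarith
    have e2 : A * ((n : ℝ) + 2) ^ k ≤ (|A| + 1) * (Real.exp (2 * Real.log n)) ^ k := by
      have : ((n : ℝ) + 2) ^ k ≤ (Real.exp (2 * Real.log n)) ^ k :=
        pow_le_pow_left₀ (by linarith) e1 k
      calc A * ((n : ℝ) + 2) ^ k ≤ (|A| + 1) * ((n : ℝ) + 2) ^ k :=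
            mul_le_mul_of_nonneg_right (by linarith [le_abs_self A]) (by positivity)
        _ ≤ _ := mul_le_mul_of_nonneg_left this hA1.le
    refine e2.trans ?_
    rw [← Real.exp_nat_mul]
    calc (|A| + 1) * Real.exp ((k : ℝ) * (2 * Real.log n))
        = Real.exp (Real.log (|A| + 1) + (k : ℝ) * (2 * Real.log n)) := by
          rw [Real.exp_add, Real.exp_log hA1]
      _ ≤ _ := by
          apply Real.exp_le_exp.2
          have hl : 0 ≤ Real.log (|A| + 1) := Real.log_nonneg (by linarith [abs_nonneg A])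
          have h4 : (Real.log (|A| + 1) + 2 * k) / (c / 2) ≤ Real.log n := by linarith
          rw [div_le_iff₀ hc2] at h4
          have h5 : (0 : ℝ) ≤ k := Nat.cast_nonneg k
          nlinarith
  have hbig : ∀ᶠ n : ℕ in atTop, 2 ≤ Real.exp (c / 2 * (Real.log n) ^ 2) := by
    filter_upwards [hsize 2 0] with n hn
    simpa using hn
  have hhalf : ∀ n : ℕ, Real.exp (c / 2 * (Real.log n) ^ 2) ≤ Real.exp (c * (Real.log n) ^ 2) := by
    intro n
    apply Real.exp_le_exp.2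
    nlinarith [sq_nonneg (Real.log n)]
  have hsmall : ∀ ε : ℝ, 0 < ε → ∀ᶠ n : ℕ in atTop, (n : ℝ) ^ (-c) < ε := by
    intro ε hε
    have : Tendsto (fun n : ℕ => (n : ℝ) ^ (-c)) atTop (nhds 0) :=
      (tendsto_rpow_neg_atTop hc).comp tendsto_natCast_atTop_atTop
    exact this.eventually_lt_const hε
  have hO : ∀ f : ℕ → ℝ, f =O[atTop] (fun n : ℕ => (n : ℝ) ^ (2 - e)) →
      ∀ᶠ n : ℕ in atTop, f n ≤ (n : ℝ) ^ (2 - e / 2) := by
    intro f hf
    obtain ⟨C, hC⟩ := hf.bound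
    have h1 : ∀ᶠ n : ℕ in atTop, C ≤ (n : ℝ) ^ (e / 2) := by
      have : Tendsto (fun n : ℕ => (n : ℝ) ^ (e / 2)) atTop atTop :=
        (tendsto_rpow_atTop (by linarith)).comp tendsto_natCast_atTop_atTop
      exact this.eventually_ge_atTop C
    filter_upwards [hC, h1, eventually_ge_atTop 1] with n h1 h2 h3
    have hn0 : (0 : ℝ) < n := by exact_mod_cast h3
    rw [Real.norm_of_nonneg (Real.rpow_nonneg hn0.le _)] at h1
    calc f n ≤ ‖f n‖ := le_abs_self _
      _ ≤ C * (n : ℝ) ^ (2 - e) := h1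
      _ ≤ (n : ℝ) ^ (e / 2) * (n : ℝ) ^ (2 - e) :=
          mul_le_mul_of_nonneg_right h2 (Real.rpow_nonneg hn0.le _)
      _ = (n : ℝ) ^ (2 - e / 2) := by
          rw [← Real.rpow_add hn0]
          congr 1
          ring
  refine ⟨Lt (p + 1), Lt.finite _, (pdaM p).lang, ?_, ?_, ?_⟩
  · refine ⟨p + 1, pdaM p, (hDET p).1, (hDET p).2, rfl, (p + 6) * (p + 1) + 1, ?_⟩
    intro w t s hs
    have := hTIME p w t s hs
    nlinarith
  · refine ⟨c / 2, by linarith, ?_⟩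
    filter_upwards [hev, eventually_ge_atTop 1, hbig] with n hn h1 hb
    obtain ⟨H, hH⟩ := hn
    have hn1 : (1 : ℝ) ≤ n := by exact_mod_cast h1
    have hle : (1 / 2 + (n : ℝ) ^ (-c)) * H.card ≤ (1 / 2 + (n : ℝ) ^ (-(c / 2))) * H.card := by
      refine mul_le_mul_of_nonneg_right ?_ (Nat.cast_nonneg _)
      have : (n : ℝ) ^ (-c) ≤ (n : ℝ) ^ (-(c / 2)) :=
        Real.rpow_le_rpow_of_exponent_le hn1 (by linarith)
      linarith
    refine ⟨H, hH.1, hH.2.1, ?_, ?_⟩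
    · intro k M t hM h2 h3
      exact (hFA n H hH k M t hM (h2.trans (hhalf n)) (h3.trans (hpow n h1))).trans hle
    · intro k M t h2 h3
      exact (hPF n H hH hb k M t h2 (h3.trans (hpow n h1))).trans hle
  · intro f hf
    constructor
    · rintro ⟨k, M, hM, hL, hacc⟩
      obtain ⟨n, h1, ⟨H, hH⟩, h2, h3⟩ := ((hO f hf).and (hev.and ((hsmall (1 / 2)
        (by norm_num)).and (hsize (Nat.card M.Q) k)))).exists
      have h4 := hFA n H hH k M ⌊(n : ℝ) ^ (2 - e / 2)⌋₊ hM (h3.trans (hhalf n))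
        (Nat.floor_le (Real.rpow_nonneg (Nat.cast_nonneg n) _))
      have h5 : {w | w ∈ H ∧ (w ∈ (pdaM p).lang ↔
          AcceptsIn M w ⌊(n : ℝ) ^ (2 - e / 2)⌋₊)} = (H : Set (List (Lt (p + 1)))) := by
        ext w
        simp only [Set.mem_setOf_eq, Finset.mem_coe, and_iff_left_iff_imp]
        intro hw
        constructor
        · intro hwL
          obtain ⟨t, ht1, ht2⟩ := hacc w hwL
          refine ht2.mono (Nat.le_floor (ht1.trans ?_))
          rw [hH.2.1 w hw]; exact h1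
        · intro h; rw [← hL]; exact h.mem
      rw [h5, Set.ncard_coe_finset] at h4
      have h6 : (0 : ℝ) < H.card := by exact_mod_cast hH.1.card_pos
      nlinarith
    · rintro ⟨k, M, hM⟩
      obtain ⟨n, h1, ⟨H, hH⟩, h2, h3, hb⟩ := ((hO f hf).and (hev.and ((hsmall (1 / 6)
        (by norm_num)).and ((hsize (Nat.card M.Q) k).and hbig)))).exists
      have hfl : ((⌊f n⌋₊ : ℕ) : ℝ) ≤ (n : ℝ) ^ (2 - e / 2) := by
        rcases le_or_gt 0 (f n) with h0 | h0
        · exact (Nat.floor_le h0).trans h1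
        · rw [Nat.floor_of_nonpos h0.le]
          push_cast
          exact Real.rpow_nonneg (Nat.cast_nonneg n) _
      have h4 := hPF n H hH hb k M ⌊f n⌋₊ h3 hfl
      have h5 : ∀ w ∈ H, (2 / 3 : ℝ) ≤ M.right (pdaM p).lang w ⌊f n⌋₊ := by
        intro w hw
        obtain ⟨a1, a2⟩ := hM w
        rw [hH.2.1 w hw] at a1 a2
        unfold RFA.right
        split_ifs with hwL
        · exact a1 hwL
        · have := a2 hwL
          linarith
      have h6 : (H.card : ℝ) * (2 / 3) ≤ ∑ w ∈ H, M.right (pdaM p).lang w ⌊f n⌋₊ := by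
        rw [← nsmul_eq_mul, ← Finset.sum_const]
        exact Finset.sum_le_sum h5
      have h7 : (0 : ℝ) < H.card := by exact_mod_cast hH.1.card_pos
      nlinarith

end Pool.Agent.NQ2
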