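import Pool.Agent.NQ2.St

/-!
Project NQ2 (problem MP_5e85fc_lc): module ABS, the lower bound for block machines (union bound).
-/

set_option autoImplicit false

namespace Pool.Agent.NQ2

open Pool.Agent.Heads

namespace ABSx

/-! ### Indicators and averages -/

theorem ind_true {P : Prop} (h : P) : ind P = 1 := by
  unfold ind
  rw [if_pos h]

theorem ind_false {P : Prop} (h : ¬ P) : ind P = 0 := by
  unfold ind
  rw [if_neg h]

theorem ind_nonneg (P : Prop) : 0 ≤ ind P := by
  by_cases h : P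
  · rw [ind_true h]
    exact zero_le_one
  · rw [ind_false h]

theorem ind_le_one (P : Prop) : ind P ≤ 1 := by
  by_cases h : P
  · rw [ind_true h]
  · rw [ind_false h]
    exact zero_le_one

theorem ind_mono {P Q : Prop} (h : P → Q) : ind P ≤ ind Q := by
  by_cases hP : P
  · rw [ind_true hP, ind_true (h hP)]
  · rw [ind_false hP]
    exact ind_nonneg Q

theorem ind_ex {ι : Type} [Fintype ι] (P : ι → Prop) : ind (∃ i, P i) ≤ ∑ i, ind (P i) := by
  by_cases h : ∃ i, P i
  · obtain ⟨i, hi⟩ := h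
    rw [ind_true ⟨i, hi⟩, ← ind_true hi]
    exact Finset.single_le_sum (f := fun i => ind (P i)) (fun j _ => ind_nonneg _)
      (Finset.mem_univ i)
  · rw [ind_false h]
    exact Finset.sum_nonneg fun i _ => ind_nonneg _

theorem avg_mono {X : Type} [Fintype X] {f g : X → ℝ} (h : ∀ x, f x ≤ g x) : avg f ≤ avg g := by
  unfold avg
  exact div_le_div_of_nonneg_right (Finset.sum_le_sum fun x _ => h x) (Nat.cast_nonneg _)

theorem avg_add {X : Type} [Fintype X] (f g : X → ℝ) :
    avg (fun x => f x + g x) = avg f + avg g := by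
  unfold avg
  rw [Finset.sum_add_distrib, add_div]

theorem avg_sum {X ι : Type} [Fintype X] [Fintype ι] (f : ι → X → ℝ) :
    avg (fun x => ∑ i, f i x) = ∑ i, avg (f i) := by
  unfold avg
  rw [Finset.sum_comm, Finset.sum_div]

theorem avg_le_const {X : Type} [Fintype X] {f : X → ℝ} {c : ℝ} (hc : 0 ≤ c)
    (h : ∀ x, f x ≤ c) : avg f ≤ c := by
  unfold avg
  rcases (Nat.cast_nonneg (Fintype.card X) : (0 : ℝ) ≤ _).eq_or_lt with h0 | h0
  · rw [← h0, div_zero]
    exact hc
  · rw [div_le_iff₀ h0]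
    calc ∑ x, f x ≤ ∑ _x : X, c := Finset.sum_le_sum fun x _ => h x
      _ = c * (Fintype.card X : ℝ) := by
        rw [Finset.sum_const, nsmul_eq_mul, Finset.card_univ, mul_comm]

theorem avg_ex_le {X ι : Type} [Fintype X] [Fintype ι] (P : ι → X → Prop) (b : ℝ)
    (h : ∀ i, avg (fun x => ind (P i x)) ≤ b) :
    avg (fun x => ind (∃ i, P i x)) ≤ (Fintype.card ι : ℝ) * b := by
  calc avg (fun x => ind (∃ i, P i x)) ≤ avg (fun x => ∑ i, ind (P i x)) :=
        avg_mono fun x => ind_ex _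
    _ = ∑ i, avg (fun x => ind (P i x)) := avg_sum _
    _ ≤ ∑ _i : ι, b := Finset.sum_le_sum fun i _ => h i
    _ = (Fintype.card ι : ℝ) * b := by
      rw [Finset.sum_const, nsmul_eq_mul, Finset.card_univ]

/-! ### Runs -/

theorem run_add {k : ℕ} {Z B : Type} (M : BM k Z B) (x : Z → B) (a : ℕ) (c : M.C) (b : ℕ) :
    ∀ n, M.run x a c (b + n) = M.run x (a + b) (M.run x a c b) n
  | 0 => rfl
  | n + 1 => by
    change M.F (a + (b + n)) (M.run x a c (b + n)) x =
      M.F (a + b + n) (M.run x (a + b) (M.run x a c b) n) x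
    rw [run_add M x a c b n, Nat.add_assoc]

/-! ### The choices -/

/-- The hints for one group: a node, the exceptional child, a time and the heads. -/
abbrev Ch (p k d T : ℕ) : Type :=
  Node (p + 1) d × Fin (p + 1) × Fin (T + 1) × (Fin (p + 1) → Fin k)

theorem card_Ch (p k d T : ℕ) : (Fintype.card (Ch p k d T) : ℝ) = Gh p k d T := by
  unfold Gh
  rw [Fintype.card_prod, Fintype.card_prod, Fintype.card_prod, Fintype.card_fun, Fintype.card_fin,
    Fintype.card_fin, Fintype.card_fin]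
  push_cast
  ring

/-- The event which belongs to a family of hints. -/
def Evt {p k d m l T : ℕ} (M : BM k (Zt (p + 1) d m) (Blk m l)) (j0 : ℕ) (s : M.C) {ι : Type}
    (g : ι → Ch p k d T) (x : Inp (p + 1) d m l) : Prop :=
  (∀ t, (g t).1.1.length < d) ∧
  (∀ t t' i i', i ≠ (g t).2.1 → i' ≠ (g t').2.1 → (t, i) ≠ (t', i') →
    ¬ ((i :: (g t).1.1) <:+ (i' :: (g t').1.1))) ∧
  ∀ t i, i ≠ (g t).2.1 → EvU M j0 s x (i :: (g t).1.1) ((g t).2.2.1 : ℕ) ((g t).2.2.2 i)

theorem gen (hJO : JOINT_Stmt) {p k d m l T : ℕ} (M : BM k (Zt (p + 1) d m) (Blk m l)) (j0 : ℕ)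
    (s : M.C) {ι : Type} [Fintype ι] (g : ι → Ch p k d T) :
    avg (fun x : Inp (p + 1) d m l => ind (Evt M j0 s g x)) ≤
      ((2 : ℝ) ^ m)⁻¹ ^ (p * Fintype.card ι) +
        (p * Fintype.card ι) * (Fintype.card M.C : ℝ) ^ (T + 1) * Poly.bet p ^ l := by
  classical
  have hb : 0 ≤ Poly.bet p := Poly.bet_nonneg p
  have h2 : (0 : ℝ) ≤ ((2 : ℝ) ^ m)⁻¹ ^ (p * Fintype.card ι) := by positivity
  have h3 : (0 : ℝ) ≤ (p * Fintype.card ι) * (Fintype.card M.C : ℝ) ^ (T + 1) * Poly.bet p ^ l := by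
    positivity
  by_cases h0 : p * Fintype.card ι = 0
  · rw [h0, pow_zero]
    have h1 : avg (fun x : Inp (p + 1) d m l => ind (Evt M j0 s g x)) ≤ 1 :=
      avg_le_const zero_le_one fun x => ind_le_one _
    linarith
  by_cases hs : (∀ t, (g t).1.1.length < d) ∧
      (∀ t t' i i', i ≠ (g t).2.1 → i' ≠ (g t').2.1 → (t, i) ≠ (t', i') →
        ¬ ((i :: (g t).1.1) <:+ (i' :: (g t').1.1)))
  swap
  · have h1 : avg (fun x : Inp (p + 1) d m l => ind (Evt M j0 s g x)) ≤ 0 :=
      avg_le_const le_rfl fun x => by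
        rw [ind_false fun h => hs ⟨h.1, h.2.1⟩]
    linarith
  obtain ⟨hl, hsep⟩ := hs
  have hne : Nonempty ι := by
    rw [← Fintype.card_pos_iff]
    exact Nat.pos_of_ne_zero fun h => h0 (by rw [h, mul_zero])
  let S : Finset (Σ _ : ι, Fin (p + 1)) := Finset.univ.sigma fun t => Finset.univ.erase (g t).2.1
  let φ : (Σ _ : ι, Fin (p + 1)) → List (Fin (p + 1)) := fun q => q.2 :: (g q.1).1.1
  have hS : ∀ q, q ∈ S ↔ q.2 ≠ (g q.1).2.1 := fun q => by
    simp only [S, Finset.mem_sigma, Finset.mem_univ, true_and, Finset.mem_erase, and_true]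
  have hinj : Set.InjOn φ (S : Set (Σ _ : ι, Fin (p + 1))) := by
    rintro ⟨t, i⟩ hq ⟨t', i'⟩ hq' he
    by_contra hne'
    have h4 : (t, i) ≠ (t', i') := by
      intro h5
      apply hne'
      injection h5 with h6 h7
      rw [h6, h7]
    refine hsep t t' i i' ((hS _).mp hq) ((hS _).mp hq') h4 ?_
    have h5 : i :: (g t).1.1 = i' :: (g t').1.1 := he
    exact h5 ▸ List.suffix_refl _
  have hq0 : Nonempty (Σ _ : ι, Fin (p + 1)) := ⟨⟨hne.some, 0⟩⟩
  let inv : List (Fin (p + 1)) → (Σ _ : ι, Fin (p + 1)) :=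
    Function.invFunOn φ (S : Set (Σ _ : ι, Fin (p + 1)))
  have hinv : ∀ q ∈ S, inv (φ q) = q := fun q hq => hinj.leftInvOn_invFunOn hq
  have hcard : (S.image φ).card = p * Fintype.card ι := by
    rw [Finset.card_image_of_injOn hinj, Finset.card_sigma]
    have h6 : ∀ t : ι, (Finset.univ.erase (g t).2.1).card = p := fun t => by
      rw [Finset.card_erase_of_mem (Finset.mem_univ _), Finset.card_univ, Fintype.card_fin,
        Nat.add_sub_cancel]
    rw [Finset.sum_congr rfl fun t _ => h6 t, Finset.sum_const, Finset.card_univ, smul_eq_mul,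
      mul_comm]
  have key := hJO p k d m l T M j0 s (S.image φ) (fun u => ((g (inv u).1).2.2.1 : ℕ))
    (fun u => (g (inv u).1).2.2.2 (inv u).2) ?_ ?_ ?_
  · rw [hcard] at key
    push_cast at key
    refine le_trans (avg_mono fun x => ind_mono fun hE => ?_) key
    intro u hu
    obtain ⟨q, hq, rfl⟩ := Finset.mem_image.mp hu
    have h7 := hE.2.2 q.1 q.2 ((hS q).mp hq)
    have h8 := hinv q hq
    rw [h8]
    exact h7
  · intro u hu
    obtain ⟨q, hq, rfl⟩ := Finset.mem_image.mp hu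
    exact hl q.1
  · intro u hu
    exact Nat.lt_succ_iff.mp (g (inv u).1).2.2.1.2
  · intro u hu u' hu' hne'
    obtain ⟨q, hq, rfl⟩ := Finset.mem_image.mp hu
    obtain ⟨q', hq', rfl⟩ := Finset.mem_image.mp hu'
    refine hsep q.1 q'.1 q.2 q'.2 ((hS q).mp hq) ((hS q').mp hq') ?_
    intro h9
    apply hne'
    injection h9 with h10 h11
    change q.2 :: (g q.1).1.1 = q'.2 :: (g q'.1).1.1
    rw [h10, h11]

/-! ### The top digit -/

theorem sum_topd {m : ℕ} (hm : 0 < m) (P : Prop) :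
    ∑ a : Idx m, ind (P ↔ topd a = true) = 2 ^ m / 2 := by
  classical
  let t0 : Fin m := ⟨m - 1, Nat.sub_lt hm one_pos⟩
  let fl : Idx m → Idx m := fun a => Function.update a t0 (!a t0)
  have hfl : Function.Involutive fl := by
    intro a
    funext b
    by_cases hb : b = t0
    · subst hb
      simp only [fl, Function.update_self, Bool.not_not]
    · simp only [fl, Function.update_of_ne hb]
  have htop : ∀ a : Idx m, topd a = a t0 := fun a => by
    unfold topd
    rw [dif_pos hm]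
  have h1 : ∀ a : Idx m, ind (P ↔ topd (fl a) = true) = 1 - ind (P ↔ topd a = true) := by
    intro a
    rw [htop, htop]
    have h2 : fl a t0 = !a t0 := Function.update_self _ _ _
    rw [h2]
    by_cases hP : P
    · cases h3 : a t0
      · rw [ind_true (by simp [hP]), ind_false (by simp [hP])]
        norm_num
      · rw [ind_false (by simp [hP]), ind_true (by simp [hP])]
        norm_num
    · cases h3 : a t0
      · rw [ind_false (by simp [hP]), ind_true (by simp [hP])]
        norm_num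
      · rw [ind_true (by simp [hP]), ind_false (by simp [hP])]
        norm_num
  have h2 : ∑ a : Idx m, ind (P ↔ topd (fl a) = true) = ∑ a : Idx m, ind (P ↔ topd a = true) :=
    Equiv.sum_comp (Function.Involutive.toPerm fl hfl) fun a => ind (P ↔ topd a = true)
  rw [Finset.sum_congr rfl fun a _ => h1 a, Finset.sum_sub_distrib, Finset.sum_const,
    Finset.card_univ, nsmul_eq_mul, mul_one] at h2
  have h3 : (Fintype.card (Idx m) : ℝ) = 2 ^ m := by
    rw [Fintype.card_fun, Fintype.card_bool, Fintype.card_fin]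
    push_cast
    rfl
  rw [h3] at h2
  linarith

/-- The inputs for which the blocks of the root are never covered. -/
theorem partOne (hJ1 : J1_Stmt) {p k d m l T : ℕ} (M : BM k (Zt (p + 1) d m) (Blk m l))
    (hm : 0 < m) :
    avg (fun x : Inp (p + 1) d m l => ind ((∀ j < T, ¬ RQ M x [] (M.run x 0 M.c0 j)) ∧
      (M.out (M.run x 0 M.c0 T) ↔ topd (labD x []) = true))) ≤
      1 / 2 + 2 ^ m * (Fintype.card M.C : ℝ) ^ (T + 1) * Poly.bet p ^ l := by
  classical
  let u : Node (p + 1) d := ⟨[], Nat.zero_le _⟩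
  have h1 : ∀ a : Idx m, avg (fun x : Inp (p + 1) d m l =>
      ind ((∀ j < T, ¬ RQ M x [] (M.run x 0 M.c0 j)) ∧ labD x [] = a) *
        ind (M.out (M.run x 0 M.c0 T) ↔ topd a = true)) ≤
      avg (fun x : Inp (p + 1) d m l => ind (M.out (M.run x 0 M.c0 T) ↔ topd a = true)) / 2 ^ m +
        (Fintype.card M.C : ℝ) ^ (T + 1) * Poly.bet p ^ l := fun a =>
    hJ1 p k d m l M 0 T M.c0 u
      (fun tr _ => ind (M.out (tr (Fin.last T)) ↔ topd a = true)) (fun _ => a)
      (fun tr _ => ⟨ind_nonneg _, ind_le_one _⟩) (fun tr x x' _ => rfl)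
  have h2 : ∀ x : Inp (p + 1) d m l,
      ind ((∀ j < T, ¬ RQ M x [] (M.run x 0 M.c0 j)) ∧
        (M.out (M.run x 0 M.c0 T) ↔ topd (labD x []) = true)) ≤
      ∑ a : Idx m, ind ((∀ j < T, ¬ RQ M x [] (M.run x 0 M.c0 j)) ∧ labD x [] = a) *
        ind (M.out (M.run x 0 M.c0 T) ↔ topd a = true) := by
    intro x
    refine le_trans ?_ (Finset.single_le_sum (f := fun a : Idx m =>
      ind ((∀ j < T, ¬ RQ M x [] (M.run x 0 M.c0 j)) ∧ labD x [] = a) *
        ind (M.out (M.run x 0 M.c0 T) ↔ topd a = true))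
      (fun a _ => mul_nonneg (ind_nonneg _) (ind_nonneg _)) (Finset.mem_univ (labD x [])))
    by_cases hP : (∀ j < T, ¬ RQ M x [] (M.run x 0 M.c0 j)) ∧
        (M.out (M.run x 0 M.c0 T) ↔ topd (labD x []) = true)
    · rw [ind_true hP]
      change 1 ≤ ind ((∀ j < T, ¬ RQ M x [] (M.run x 0 M.c0 j)) ∧ labD x [] = labD x []) *
        ind (M.out (M.run x 0 M.c0 T) ↔ topd (labD x []) = true)
      rw [ind_true ⟨hP.1, rfl⟩, ind_true hP.2, one_mul]
    · rw [ind_false hP]
      exact mul_nonneg (ind_nonneg _) (ind_nonneg _)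
  have h3 : (Fintype.card (Idx m) : ℝ) = 2 ^ m := by
    rw [Fintype.card_fun, Fintype.card_bool, Fintype.card_fin]
    push_cast
    rfl
  calc _ ≤ avg (fun x : Inp (p + 1) d m l =>
        ∑ a : Idx m, ind ((∀ j < T, ¬ RQ M x [] (M.run x 0 M.c0 j)) ∧ labD x [] = a) *
        ind (M.out (M.run x 0 M.c0 T) ↔ topd a = true)) := avg_mono h2
    _ = ∑ a : Idx m, avg (fun x : Inp (p + 1) d m l =>
        ind ((∀ j < T, ¬ RQ M x [] (M.run x 0 M.c0 j)) ∧ labD x [] = a) *
        ind (M.out (M.run x 0 M.c0 T) ↔ topd a = true)) := avg_sum _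
    _ ≤ ∑ a : Idx m, (avg (fun x : Inp (p + 1) d m l =>
          ind (M.out (M.run x 0 M.c0 T) ↔ topd a = true)) / 2 ^ m +
        (Fintype.card M.C : ℝ) ^ (T + 1) * Poly.bet p ^ l) := Finset.sum_le_sum fun a _ => h1 a
    _ = avg (fun x : Inp (p + 1) d m l =>
          ∑ a : Idx m, ind (M.out (M.run x 0 M.c0 T) ↔ topd a = true)) / 2 ^ m +
        2 ^ m * ((Fintype.card M.C : ℝ) ^ (T + 1) * Poly.bet p ^ l) := by
      rw [Finset.sum_add_distrib, ← Finset.sum_div, avg_sum, Finset.sum_const, Finset.card_univ,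
        nsmul_eq_mul, h3]
    _ ≤ (2 ^ m / 2) / 2 ^ m + 2 ^ m * ((Fintype.card M.C : ℝ) ^ (T + 1) * Poly.bet p ^ l) := by
      refine add_le_add (div_le_div_of_nonneg_right ?_ (by positivity)) le_rfl
      exact avg_le_const (by positivity) fun x => le_of_eq (sum_topd hm _)
    _ = _ := by
      have h4 : (2 : ℝ) ^ m ≠ 0 := by positivity
      field_simp

end ABSx

open ABSx in
/-- ABS. -/
theorem t_ABS (hJ1 : J1_Stmt) (hJO : JOINT_Stmt) (hPEB : PEB_Stmt) (hDEP : DEP_Stmt) :
    ABS_Stmt := by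
  classical
  intro p k d m l T M hm
  -- the two events
  let EA : Inp (p + 1) d m l → Prop := fun x =>
    ∃ g : Ch p k d T, Evt M 0 M.c0 (fun _ : Fin 1 => g) x
  let EB : Inp (p + 1) d m l → Prop := fun x =>
    ∃ q : Fin (T + 1) × M.C × (Fin d → Ch p k d T), Evt M (q.1 : ℕ) q.2.1 q.2.2 x
  have hsplit : ∀ x : Inp (p + 1) d m l,
      ind (M.out (M.run x 0 M.c0 T) ↔ topd (labD x []) = true) ≤
      (ind ((∀ j < T, ¬ RQ M x [] (M.run x 0 M.c0 j)) ∧
        (M.out (M.run x 0 M.c0 T) ↔ topd (labD x []) = true)) + ind (EA x)) + ind (EB x) := by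
    intro x
    by_cases hW : (M.out (M.run x 0 M.c0 T) ↔ topd (labD x []) = true)
    swap
    · rw [ind_false hW]
      exact add_nonneg (add_nonneg (ind_nonneg _) (ind_nonneg _)) (ind_nonneg _)
    by_cases hR : ∀ j < T, ¬ RQ M x [] (M.run x 0 M.c0 j)
    · rw [ind_true hW, ind_true ⟨hR, hW⟩]
      linarith [ind_nonneg (EA x), ind_nonneg (EB x)]
    push Not at hR
    obtain ⟨j1, hj1, hR1⟩ := hR
    -- the pebbling lemma
    have hRQ : ∀ (v : List (Fin (p + 1))) (c : M.C), v.length < d → RQ M x v c →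
        ∃ h : Fin (p + 1) → Fin k, ∀ i, ∃ w i', M.cov c (h i) = some (w, i', labD x (i :: v)) := by
      intro v c hv hc
      have h1 : ∀ i, ∃ h : Fin k, ∃ w i', M.cov c h = some (w, i', labD x (i :: v)) := by
        intro i
        obtain ⟨hv', h, hh⟩ := hc i
        refine ⟨h, ⟨v, hv'⟩, i, ?_⟩
        rw [← (hDEP (p + 1) d m l).2.2.2 x v i hv]
        exact hh
      choose h hh using h1
      exact ⟨h, hh⟩
    rcases hPEB p d T (fun v j => j < T ∧ RQ M x v (M.run x 0 M.c0 j)) (fun v j h => h.1)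
      ⟨j1, hj1, hR1⟩ with hA | hB
    · obtain ⟨v, e, tau, hv, htau, ⟨-, hRv⟩, hno⟩ := hA
      obtain ⟨h, hh⟩ := hRQ v _ hv hRv
      have hEA : EA x := by
        refine ⟨(⟨v, hv.le⟩, e, ⟨tau, by omega⟩, h), fun _ => hv, ?_, ?_⟩
        · intro t t' i i' _ _ hne hsuf
          have h5 : i :: v = i' :: v := hsuf.eq_of_length rfl
          apply hne
          injection h5 with h6 _
          rw [h6, Subsingleton.elim t t']
        · intro t i hi
          refine ⟨fun j hj hRj => hno i hi j hj ⟨by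
            have : j < tau := hj
            omega, hRj⟩, ?_⟩
          exact hh i
      rw [ind_true hW, ind_true hEA]
      linarith [ind_nonneg ((∀ j < T, ¬ RQ M x [] (M.run x 0 M.c0 j)) ∧
        (M.out (M.run x 0 M.c0 T) ↔ topd (labD x []) = true)), ind_nonneg (EB x)]
    · obtain ⟨j0, v, e, tau, hj0, hall, hsep⟩ := hB
      have hrun : ∀ n, M.run x 0 M.c0 (j0 + n) = M.run x j0 (M.run x 0 M.c0 j0) n := by
        intro n
        have := run_add M x 0 M.c0 j0 n
        rwa [Nat.zero_add] at this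
      have h1 : ∀ t, ∃ h : Fin (p + 1) → Fin k, ∀ i, ∃ w i',
          M.cov (M.run x j0 (M.run x 0 M.c0 j0) (tau t)) (h i) =
            some (w, i', labD x (i :: v t)) := by
        intro t
        have h2 := (hall t).2.2.1.2
        rw [hrun] at h2
        exact hRQ (v t) _ (hall t).1 h2
      choose h hh using h1
      have hEB : EB x := by
        refine ⟨(⟨j0, by omega⟩, M.run x 0 M.c0 j0, fun t =>
          (⟨v t, (hall t).1.le⟩, e t, ⟨tau t, by have := (hall t).2.1; omega⟩, h t)),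
          fun t => (hall t).1, ?_, ?_⟩
        · intro t t' i i' hi hi' hne
          exact hsep t t' i i' hi hi' hne
        · intro t i hi
          refine ⟨fun j hj hRj => (hall t).2.2.2 i hi j hj ⟨by
            have h3 : j < tau t := hj
            have := (hall t).2.1
            omega, ?_⟩, ?_⟩
          · rw [hrun]
            exact hRj
          · exact hh t i
      rw [ind_true hW, ind_true hEB]
      linarith [ind_nonneg ((∀ j < T, ¬ RQ M x [] (M.run x 0 M.c0 j)) ∧
        (M.out (M.run x 0 M.c0 T) ↔ topd (labD x []) = true)), ind_nonneg (EA x)]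
  have hA : avg (fun x => ind (EA x)) ≤
      Gh p k d T * (((2 : ℝ) ^ m)⁻¹ ^ p +
        p * (Fintype.card M.C : ℝ) ^ (T + 1) * Poly.bet p ^ l) := by
    have h1 := avg_ex_le (fun (g : Ch p k d T) (x : Inp (p + 1) d m l) =>
      Evt M 0 M.c0 (fun _ : Fin 1 => g) x) _ (fun g => gen hJO M 0 M.c0 (fun _ : Fin 1 => g))
    rw [card_Ch, Fintype.card_fin, mul_one, Nat.cast_one, mul_one] at h1
    exact h1
  have hB : avg (fun x => ind (EB x)) ≤
      (T + 1) * (Fintype.card M.C : ℝ) * Gh p k d T ^ d *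
        (((2 : ℝ) ^ m)⁻¹ ^ (p * d) +
          (p * d) * (Fintype.card M.C : ℝ) ^ (T + 1) * Poly.bet p ^ l) := by
    have h1 := avg_ex_le (fun (q : Fin (T + 1) × M.C × (Fin d → Ch p k d T))
      (x : Inp (p + 1) d m l) => Evt M (q.1 : ℕ) q.2.1 q.2.2 x) _
      (fun q => gen hJO M (q.1 : ℕ) q.2.1 q.2.2)
    have h2 : (Fintype.card (Fin (T + 1) × M.C × (Fin d → Ch p k d T)) : ℝ) =
        (T + 1) * (Fintype.card M.C : ℝ) * Gh p k d T ^ d := by
      rw [Fintype.card_prod, Fintype.card_prod, Fintype.card_fun, Fintype.card_fin,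
        Fintype.card_fin, ← card_Ch]
      push_cast
      ring
    rw [h2, Fintype.card_fin] at h1
    exact h1
  have h1 := partOne (T := T) hJ1 M hm
  calc _ ≤ avg (fun x : Inp (p + 1) d m l =>
        (ind ((∀ j < T, ¬ RQ M x [] (M.run x 0 M.c0 j)) ∧
        (M.out (M.run x 0 M.c0 T) ↔ topd (labD x []) = true)) + ind (EA x)) + ind (EB x)) :=
        avg_mono hsplit
    _ = avg (fun x : Inp (p + 1) d m l => ind ((∀ j < T, ¬ RQ M x [] (M.run x 0 M.c0 j)) ∧
        (M.out (M.run x 0 M.c0 T) ↔ topd (labD x []) = true))) + avg (fun x => ind (EA x)) +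
        avg (fun x => ind (EB x)) := by
      rw [avg_add, avg_add]
    _ ≤ 1 / 2 + Err p k d m l T (Fintype.card M.C) := by
      unfold Err
      linarith

end Pool.Agent.NQ2
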