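import Pool.Agent.NQ2.St

/-!
Project NQ2 (MP_5e85fc_lc), module DEP: which blocks a label depends on.
-/

set_option autoImplicit false

namespace Pool.Agent.NQ2

namespace DEPx

theorem lab_congr {r m l : ℕ} (E E' : List (Fin r) → Fin r → Idx m → Blk m l) (h : ℕ) :
    ∀ v : List (Fin r), (∀ u, v <:+ u → E u = E' u) → lab E h v = lab E' h v := by
  induction h with
  | zero =>
    intro v H
    show (gdig fun i => E v i fun _ => false) = gdig fun i => E' v i fun _ => false
    rw [H v (List.suffix_refl v)]
  | succ h ih =>
    intro v H
    show (gdig fun i => E v i (lab E h (i :: v))) = gdig fun i => E' v i (lab E' h (i :: v))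
    rw [H v (List.suffix_refl v)]
    congr 1
    funext i
    rw [ih (i :: v) fun u hu => H u ((List.suffix_cons i v).trans hu)]

theorem ext_congr {r d m l : ℕ} {x x' : Inp r d m l} {v : List (Fin r)}
    (h : ∀ z : Zt r d m, v <:+ z.1.1 → x z = x' z) (u : List (Fin r)) (hu : v <:+ u) :
    ext x u = ext x' u := by
  funext i a
  unfold ext
  split_ifs with hl
  · exact h (⟨u, hl⟩, i, a) hu
  · rfl

theorem labD_congr {r d m l : ℕ} {x x' : Inp r d m l} {v : List (Fin r)}
    (h : ∀ z : Zt r d m, v <:+ z.1.1 → x z = x' z) : labD x v = labD x' v :=
  lab_congr _ _ _ v (ext_congr h)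

end DEPx

open DEPx in
theorem t_DEP : DEP_Stmt := by
  intro r d m l
  refine ⟨fun x x' v h => labD_congr h, fun x x' v h => ?_, fun x v hv => ?_, fun x v i hv => ?_⟩
  · funext i
    unfold tup
    split_ifs with hl
    · refine labD_congr fun z hz => h z ((List.suffix_cons i v).trans hz) fun e => ?_
      have h1 := hz.length_le
      rw [← e, List.length_cons] at h1
      omega
    · rfl
  · rcases Nat.lt_or_ge v.length d with hl | hl
    · have e : d - v.length = (d - (v.length + 1)) + 1 := by omega
      unfold labD
      rw [e]
      show (gdig fun i => ext x v i (lab (ext x) (d - (v.length + 1)) (i :: v))) = _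
      congr 1
      funext i
      have h1 : tup x v i = lab (ext x) (d - (v.length + 1)) (i :: v) := by
        unfold tup
        rw [if_pos hl]
        rfl
      rw [h1]
      unfold ext
      rw [dif_pos hv]
    · have e : d - v.length = 0 := by omega
      unfold labD
      rw [e]
      show (gdig fun i => ext x v i fun _ => false) = _
      congr 1
      funext i
      have h1 : tup x v i = fun _ => false := by
        unfold tup
        rw [if_neg (by omega)]
      rw [h1]
      unfold ext
      rw [dif_pos hv]
  · unfold tup
    rw [if_pos hv]

end Pool.Agent.NQ2
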