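import Pool.Agent.NQ2.St2

/-!
Project NQ2: a deterministic finite automaton as a total transition function.
-/

set_option autoImplicit false

namespace Pool.Agent.NQ2

open Pool.Agent.Heads

theorem t_DFAC : DFAC_Stmt := by
  classical
  intro α k M hM
  obtain ⟨δ, hδ1, hδ2⟩ : ∃ δ : M.Q → (Fin k → Sym α) → M.Q × (Fin k → Dir),
      (∀ q x p, p ∈ M.δ q x → δ q x = p) ∧
      ∀ q x, (∀ p, p ∉ M.δ q x) → δ q x = (q, fun _ => Dir.S) := by
    refine ⟨fun q x => if h : ∃ p, p ∈ M.δ q x then h.choose else (q, fun _ => Dir.S),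
      fun q x p hp => ?_, fun q x h => ?_⟩
    · have h : ∃ p, p ∈ M.δ q x := ⟨p, hp⟩
      beta_reduce
      rw [dif_pos h]
      exact hM q x h.choose_spec hp
    · have h' : ¬ ∃ p, p ∈ M.δ q x := fun ⟨p, hp⟩ => h p hp
      beta_reduce
      rw [dif_neg h']
  refine ⟨fun _ => δ, fun w t => ?_⟩
  have h1 : ∀ (i : ℕ) (c : M.Q × (Fin k → ℕ)), ReachN (M.Step w) (M.start, fun _ => 0) i c →
      grun (fun _ => δ) M.start w i = c := by
    intro i c hc
    induction hc with
    | zero => rfl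
    | @succ i a a' _ hs ih =>
      obtain ⟨p, hp, rfl⟩ := hs
      have h2 := hδ1 _ _ _ hp
      rw [grun, ih, h2]
  have h2 : ∀ i : ℕ, ∃ j ≤ i, ReachN (M.Step w) (M.start, fun _ => 0) j
      (grun (fun _ => δ) M.start w i) := by
    intro i
    induction i with
    | zero => exact ⟨0, le_rfl, ReachN.zero⟩
    | succ i ih =>
      obtain ⟨j, hj, hr⟩ := ih
      by_cases h : ∃ p, p ∈ M.δ (grun (fun _ => δ) M.start w i).1
          (fun l => tape w ((grun (fun _ => δ) M.start w i).2 l))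
      · obtain ⟨p, hp⟩ := h
        refine ⟨j + 1, by omega, ReachN.succ hr ⟨p, hp, ?_⟩⟩
        rw [grun, hδ1 _ _ _ hp]
      · refine ⟨j, by omega, ?_⟩
        have h3 : grun (fun _ => δ) M.start w (i + 1) = grun (fun _ => δ) M.start w i := by
          rw [grun, hδ2 _ _ fun p hp => h ⟨p, hp⟩]
          rfl
        rw [h3]
        exact hr
  constructor
  · rintro ⟨i, hi, c, hc, ha⟩
    refine ⟨i, hi, ?_⟩
    rw [h1 i c hc]
    exact ha
  · rintro ⟨i, hi, ha⟩
    obtain ⟨j, hj, hr⟩ := h2 i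
    exact ⟨j, hj.trans hi, _, hr, ha⟩

end Pool.Agent.NQ2
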