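import Pool.Agent.NQ2.St

/-!
Project NQ2 (MP_5e85fc_lc), module DIG: binary digits.
-/

set_option autoImplicit false

namespace Pool.Agent.NQ2

namespace DIGx

theorem val_succ {m : ℕ} (f : Idx (m + 1)) :
    val f = 2 ^ m * (if f (Fin.last m) = true then 1 else 0) +
      val (fun b : Fin m => f b.castSucc) := by
  unfold val
  rw [Fin.sum_univ_castSucc]
  simp only [Fin.val_castSucc, Fin.val_last]
  split_ifs <;> ring

theorem val_lt : ∀ (m : ℕ) (f : Idx m), val f < 2 ^ m := by
  intro m
  induction m with
  | zero => intro f; simp [val]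
  | succ m ih =>
    intro f
    rw [val_succ]
    have h := ih (fun b : Fin m => f b.castSucc)
    have hp : 2 ^ (m + 1) = 2 ^ m + 2 ^ m := by ring
    split_ifs <;> omega

theorem val_testBit : ∀ (m : ℕ) (f : Idx m) (b : Fin m), (val f).testBit b = f b := by
  intro m
  induction m with
  | zero => intro f b; exact b.elim0
  | succ m ih =>
    intro f b
    rw [val_succ, Nat.testBit_two_pow_mul_add _ (val_lt m _)]
    refine Fin.lastCases ?_ (fun c => ?_) b
    · simp only [Fin.val_last, lt_self_iff_false, if_false, Nat.sub_self]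
      cases hf : f (Fin.last m) <;> simp
    · simp only [Fin.val_castSucc, c.isLt, if_true]
      exact ih (fun b : Fin m => f b.castSucc) c

theorem val_bits (m j : ℕ) (hj : j < 2 ^ m) : val (bitsOf m j) = j := by
  refine Nat.eq_of_testBit_eq fun i => ?_
  by_cases hi : i < m
  · exact val_testBit m (bitsOf m j) ⟨i, hi⟩
  · have h2 : 2 ^ m ≤ 2 ^ i := Nat.pow_le_pow_right (by norm_num) (not_lt.mp hi)
    rw [Nat.testBit_eq_false_of_lt (lt_of_lt_of_le (val_lt m _) h2),
      Nat.testBit_eq_false_of_lt (lt_of_lt_of_le hj h2)]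

end DIGx

theorem t_DIG : DIG_Stmt := by
  refine ⟨DIGx.val_lt, fun m f => ?_, DIGx.val_bits, fun m => ?_, fun m => ?_⟩
  · funext b
    exact DIGx.val_testBit m f b
  · simp [val]
  · funext b
    simp [bitsOf]

end Pool.Agent.NQ2
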