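import Pool.Agent.NQ2.St

/-!
Project NQ2, module EQ1: discrepancy of generalised inner product digits against cylinder functions.
-/

set_option autoImplicit false

namespace Pool.Agent.NQ2

open Finset

namespace EQ1x

variable {p m l : ℕ}

/-- replace the row `b` of all blocks -/
def upd (b : Fin m) (y : Fin (p + 1) → Blk m l) (z : Fin (p + 1) → Fin l → Bool) :
    Fin (p + 1) → Blk m l := fun i b' => if b' = b then z i else y i b'

lemma upd_same (b : Fin m) (y : Fin (p + 1) → Blk m l) (z : Fin (p + 1) → Fin l → Bool)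
    (i : Fin (p + 1)) : upd b y z i b = z i := by simp [upd]

lemma upd_ne {b b' : Fin m} (h : b' ≠ b) (y : Fin (p + 1) → Blk m l)
    (z : Fin (p + 1) → Fin l → Bool) (i : Fin (p + 1)) : upd b y z i b' = y i b' := by
  simp [upd, h]

lemma upd_upd (b : Fin m) (y : Fin (p + 1) → Blk m l) (z : Fin (p + 1) → Fin l → Bool) :
    upd b (upd b y z) (fun i => y i b) = y := by
  funext i b'
  by_cases h : b' = b
  · subst h; rw [upd_same]
  · rw [upd_ne h, upd_ne h]

/-- exchange the row `b` -/
def swp (b : Fin m) : ((Fin (p + 1) → Blk m l) × (Fin (p + 1) → Fin l → Bool)) ≃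
    ((Fin (p + 1) → Blk m l) × (Fin (p + 1) → Fin l → Bool)) where
  toFun x := (upd b x.1 x.2, fun i => x.1 i b)
  invFun x := (upd b x.1 x.2, fun i => x.1 i b)
  left_inv x := by
    refine Prod.ext ?_ ?_
    · exact upd_upd b x.1 x.2
    · funext i; exact upd_same b x.1 x.2 i
  right_inv x := by
    refine Prod.ext ?_ ?_
    · exact upd_upd b x.1 x.2
    · funext i; exact upd_same b x.1 x.2 i

lemma sum_upd (b : Fin m) (g : (Fin (p + 1) → Blk m l) → ℝ) :
    ∑ y, ∑ z : Fin (p + 1) → Fin l → Bool, g (upd b y z) =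
      (2 ^ l : ℝ) ^ (p + 1) * ∑ y, g y := by
  have h1 : ∑ y, ∑ z : Fin (p + 1) → Fin l → Bool, g (upd b y z) =
      ∑ x : (Fin (p + 1) → Blk m l) × (Fin (p + 1) → Fin l → Bool), g (swp b x).1 := by
    rw [Fintype.sum_prod_type]
    rfl
  rw [h1, Equiv.sum_comp (swp b) (fun x => g x.1), Fintype.sum_prod_type, Finset.mul_sum]
  refine Finset.sum_congr rfl fun y _ => ?_
  have h2 : ∑ z : Fin (p + 1) → Fin l → Bool, g (y, z).1 =
      ∑ _z : Fin (p + 1) → Fin l → Bool, g y := rfl
  rw [h2, Finset.sum_const, Finset.card_univ, nsmul_eq_mul]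
  simp [Fintype.card_pi]

/-- the sign of the digit `b` -/
noncomputable def chi (b : Fin m) (y : Fin (p + 1) → Blk m l) : ℝ :=
  Poly.sg Finset.univ (fun i => y i b)

lemma chi_upd_same (b : Fin m) (y : Fin (p + 1) → Blk m l) (z : Fin (p + 1) → Fin l → Bool) :
    chi b (upd b y z) = Poly.sg Finset.univ z := by
  unfold chi
  congr 1
  funext i
  exact upd_same b y z i

lemma chi_upd_ne {b b' : Fin m} (h : b' ≠ b) (y : Fin (p + 1) → Blk m l)
    (z : Fin (p + 1) → Fin l → Bool) : chi b' (upd b y z) = chi b' y := by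
  unfold chi
  congr 1
  funext i
  exact upd_ne h y z i

lemma chi_eq (b : Fin m) (y : Fin (p + 1) → Blk m l) :
    chi b y = if gdig y b = true then -1 else 1 := by
  classical
  unfold chi Poly.sg gdig
  rw [Finset.prod_ite, Finset.prod_const, Finset.prod_const_one, mul_one]
  by_cases h : Odd (Finset.univ.filter fun t : Fin l => ∀ i, y i b t = true).card
  · rw [if_pos (by simpa using h)]
    have : (Finset.univ.filter fun t : Fin l => ∀ i, y i b t = true).card =
      (Finset.univ.filter fun x : Fin l => ∀ i, y i b x = true).card := rfl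
    convert h.neg_one_pow using 2
  · rw [if_neg (by simpa using h)]
    rw [Nat.not_odd_iff_even] at h
    convert h.neg_one_pow using 2

lemma row {J : Type} [Fintype J] (A : J → (Fin (p + 1) → Blk m l) → ℝ)
    (i : J → Fin (p + 1)) (h1 : ∀ j y, 0 ≤ A j y ∧ A j y ≤ 1)
    (h2 : ∀ j y y', (∀ i', i' ≠ i j → y i' = y' i') → A j y = A j y')
    (b : Fin m) (c : (Fin (p + 1) → Blk m l) → ℝ) (hc : ∀ y, |c y| ≤ 1)
    (hcb : ∀ y z, c (upd b y z) = c y) :
    |∑ y, (∏ j, A j y) * c y * chi b y| ≤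
      (Fintype.card (Fin (p + 1) → Blk m l) : ℝ) * Poly.bet p ^ l := by
  classical
  set N : ℝ := (2 ^ l : ℝ) ^ (p + 1) with hN
  have hN0 : 0 < N := by positivity
  have hbet := Poly.bet_nonneg p
  have key : ∀ y : Fin (p + 1) → Blk m l,
      |∑ z : Fin (p + 1) → Fin l → Bool,
        (∏ j, A j (upd b y z)) * c (upd b y z) * chi b (upd b y z)| ≤ N * Poly.bet p ^ l := by
    intro y
    set P : Fin (p + 1) → (Fin (p + 1) → Fin l → Bool) → ℝ := fun k z =>
      ∏ j ∈ Finset.univ.filter (fun j => i j = k), A j (upd b y z) with hP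
    have hprod : ∀ z, ∏ j, A j (upd b y z) = ∏ k, P k z := by
      intro z
      rw [hP]
      exact (Finset.prod_fiberwise Finset.univ i (fun j => A j (upd b y z))).symm
    have hg := Poly.gip p (Finset.univ : Finset (Fin l)) P (by
      intro k z
      rw [hP, abs_of_nonneg (Finset.prod_nonneg fun j _ => (h1 j _).1)]
      exact Finset.prod_le_one (fun j _ => (h1 j _).1) (fun j _ => (h1 j _).2)) (by
      intro k z z' hz
      rw [hP]
      refine Finset.prod_congr rfl fun j hj => ?_
      rw [Finset.mem_filter] at hj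
      refine h2 j _ _ fun i' hi' => ?_
      rw [hj.2] at hi'
      funext b'
      by_cases hb' : b' = b
      · subst hb'; rw [upd_same, upd_same, hz i' hi']
      · rw [upd_ne hb', upd_ne hb'])
    rw [Finset.card_univ, Fintype.card_fin] at hg
    have e : ∑ z : Fin (p + 1) → Fin l → Bool,
        (∏ j, A j (upd b y z)) * c (upd b y z) * chi b (upd b y z) =
        c y * ∑ z : Fin (p + 1) → Fin l → Bool, Poly.sg Finset.univ z * ∏ k, P k z := by
      rw [Finset.mul_sum]
      refine Finset.sum_congr rfl fun z _ => ?_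
      rw [hprod, hcb, chi_upd_same]
      ring
    rw [e, abs_mul]
    calc |c y| * |∑ z : Fin (p + 1) → Fin l → Bool, Poly.sg Finset.univ z * ∏ k, P k z|
        ≤ 1 * ((2 ^ l : ℝ) ^ (p + 1) * Poly.bet p ^ l) :=
          mul_le_mul (hc y) hg (abs_nonneg _) zero_le_one
      _ = _ := by rw [one_mul]
  have h3 := sum_upd (p := p) b (fun y : Fin (p + 1) → Blk m l => (∏ j, A j y) * c y * chi b y)
  have h4 : |N * ∑ y, (∏ j, A j y) * c y * chi b y| ≤
      ∑ _y : Fin (p + 1) → Blk m l, N * Poly.bet p ^ l := by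
    rw [hN, ← h3]
    exact (Finset.abs_sum_le_sum_abs _ _).trans (Finset.sum_le_sum fun y _ => key y)
  rw [abs_mul, abs_of_pos hN0, Finset.sum_const, Finset.card_univ, nsmul_eq_mul] at h4
  have h5 : N * |∑ y, (∏ j, A j y) * c y * chi b y| ≤
      N * ((Fintype.card (Fin (p + 1) → Blk m l) : ℝ) * Poly.bet p ^ l) := by
    refine h4.trans (le_of_eq ?_)
    ring
  exact le_of_mul_le_mul_left h5 hN0

/-- the sign of the digit `b` of `a` -/
noncomputable def sgn (a : Idx m) (b : Fin m) : ℝ := if a b = true then -1 else 1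

lemma fac (a : Idx m) (b : Fin m) (y : Fin (p + 1) → Blk m l) :
    (1 + sgn a b * chi b y) / 2 = if gdig y b = a b then 1 else 0 := by
  rw [chi_eq]
  unfold sgn
  cases h1 : gdig y b <;> cases h2 : a b <;> norm_num

lemma ind_eq (a : Idx m) (y : Fin (p + 1) → Blk m l) :
    ind (gdig y = a) = ∏ b, (1 + sgn a b * chi b y) / 2 := by
  classical
  simp only [fac]
  unfold ind
  by_cases h : gdig y = a
  · rw [if_pos h]
    symm
    refine Finset.prod_eq_one fun b _ => ?_
    rw [if_pos (by rw [h])]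
  · rw [if_neg h]
    obtain ⟨b, hb⟩ := Function.ne_iff.1 h
    symm
    refine Finset.prod_eq_zero (Finset.mem_univ b) ?_
    rw [if_neg hb]

lemma main {J : Type} [Fintype J] (A : J → (Fin (p + 1) → Blk m l) → ℝ)
    (i : J → Fin (p + 1)) (h1 : ∀ j y, 0 ≤ A j y ∧ A j y ≤ 1)
    (h2 : ∀ j y y', (∀ i', i' ≠ i j → y i' = y' i') → A j y = A j y') (a : Idx m)
    (S : Finset (Fin m)) :
    ∑ y, (∏ j, A j y) * ∏ b ∈ S, (1 + sgn a b * chi b y) / 2 ≤
      (∑ y, ∏ j, A j y) / 2 ^ S.card + (1 - 1 / 2 ^ S.card) *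
        ((Fintype.card (Fin (p + 1) → Blk m l) : ℝ) * Poly.bet p ^ l) := by
  classical
  induction S using Finset.induction_on with
  | empty => simp
  | insert b S hb ih =>
    set T : ℝ := (Fintype.card (Fin (p + 1) → Blk m l) : ℝ) * Poly.bet p ^ l with hT
    have hr := row A i h1 h2 b (fun y => ∏ b ∈ S, (1 + sgn a b * chi b y) / 2) (by
      intro y
      simp only [fac]
      rw [abs_of_nonneg (Finset.prod_nonneg fun b _ => by split_ifs <;> norm_num)]
      exact Finset.prod_le_one (fun b _ => by split_ifs <;> norm_num)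
        (fun b _ => by split_ifs <;> norm_num)) (by
      intro y z
      refine Finset.prod_congr rfl fun b' hb' => ?_
      rw [chi_upd_ne (fun h => hb (by rw [← h]; exact hb'))])
    rw [← hT] at hr
    have e : ∑ y, (∏ j, A j y) * ∏ b ∈ insert b S, (1 + sgn a b * chi b y) / 2 =
        1 / 2 * ∑ y, (∏ j, A j y) * ∏ b ∈ S, (1 + sgn a b * chi b y) / 2 +
        sgn a b / 2 * ∑ y, (∏ j, A j y) * (∏ b ∈ S, (1 + sgn a b * chi b y) / 2) * chi b y := by
      rw [Finset.mul_sum, Finset.mul_sum, ← Finset.sum_add_distrib]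
      refine Finset.sum_congr rfl fun y _ => ?_
      rw [Finset.prod_insert hb]
      ring
    have hs : sgn a b / 2 * ∑ y, (∏ j, A j y) * (∏ b ∈ S, (1 + sgn a b * chi b y) / 2) * chi b y
        ≤ 1 / 2 * T := by
      refine (le_abs_self _).trans ?_
      rw [abs_mul]
      have : |sgn a b / 2| = 1 / 2 := by
        unfold sgn
        split_ifs <;> norm_num
      rw [this]
      exact mul_le_mul_of_nonneg_left hr (by norm_num)
    rw [e, Finset.card_insert_of_notMem hb, pow_succ]
    have h2S : (0 : ℝ) < 2 ^ S.card := by positivity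
    calc _ ≤ 1 / 2 * ((∑ y, ∏ j, A j y) / 2 ^ S.card + (1 - 1 / 2 ^ S.card) * T) + 1 / 2 * T :=
          add_le_add (mul_le_mul_of_nonneg_left ih (by norm_num)) hs
      _ = _ := by
          field_simp
          ring

end EQ1x

open EQ1x in
/-- MODULE EQ1 -/
theorem t_EQ1 : EQ1_Stmt := by
  intro p m l J _ A i h1 h2 a
  have h3 := main A i h1 h2 a Finset.univ
  rw [Finset.card_univ, Fintype.card_fin] at h3
  have hc : (0 : ℝ) < (Fintype.card (Fin (p + 1) → Blk m l) : ℝ) := by
    exact_mod_cast Fintype.card_pos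
  have hbet : 0 ≤ Poly.bet p ^ l := pow_nonneg (Poly.bet_nonneg p) _
  have e1 : ∀ y : Fin (p + 1) → Blk m l, (∏ j, A j y) * ind (gdig y = a) =
      (∏ j, A j y) * ∏ b, (1 + sgn a b * chi b y) / 2 := fun y => by rw [ind_eq]
  unfold avg
  simp only [e1]
  rw [div_le_iff₀ hc]
  refine h3.trans ?_
  have h4 : (0 : ℝ) < 2 ^ m := by positivity
  have e2 : ((∑ y, ∏ j, A j y) / (Fintype.card (Fin (p + 1) → Blk m l) : ℝ) / 2 ^ m +
      Poly.bet p ^ l) * (Fintype.card (Fin (p + 1) → Blk m l) : ℝ) =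
      (∑ y, ∏ j, A j y) / 2 ^ m + (Fintype.card (Fin (p + 1) → Blk m l) : ℝ) *
        Poly.bet p ^ l := by
    field_simp
  rw [e2]
  have h5 : (1 - 1 / 2 ^ m) * ((Fintype.card (Fin (p + 1) → Blk m l) : ℝ) * Poly.bet p ^ l) ≤
      1 * ((Fintype.card (Fin (p + 1) → Blk m l) : ℝ) * Poly.bet p ^ l) := by
    refine mul_le_mul_of_nonneg_right ?_ (by positivity)
    have : (0 : ℝ) < 1 / 2 ^ m := by positivity
    linarith
  linarith

end Pool.Agent.NQ2
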