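import Pool.Agent.NQ2.St

/-!
# NQ2, module INJ: the word determines the input
-/

set_option autoImplicit false

namespace Pool.Agent.NQ2

namespace INJx

theorem flatMap_length {α β : Type} (L : List α) (f g : α → List β)
    (h : ∀ a ∈ L, (f a).length = (g a).length) : (L.flatMap f).length = (L.flatMap g).length := by
  induction L with
  | nil => rfl
  | cons a L ih =>
    rw [List.flatMap_cons, List.flatMap_cons, List.length_append, List.length_append,
      h a (by simp), ih (fun b hb => h b (by simp [hb]))]

theorem flatMap_inj {α β : Type} (L : List α) (f g : α → List β)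
    (h : ∀ a ∈ L, (f a).length = (g a).length) (e : L.flatMap f = L.flatMap g) :
    ∀ a ∈ L, f a = g a := by
  induction L with
  | nil => intro a ha; simp at ha
  | cons a L ih =>
    rw [List.flatMap_cons, List.flatMap_cons] at e
    obtain ⟨e1, e2⟩ := List.append_inj e (h a (by simp))
    intro b hb
    rcases List.mem_cons.1 hb with rfl | hb
    · exact e1
    · exact ih (fun c hc => h c (by simp [hc])) e2 b hb

theorem rowW_length {r l : ℕ} (b : ℕ) (f : Fin l → Bool) :
    (rowW (r := r) b f).length = l + (1 + 2 ^ b) := by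
  unfold rowW
  simp only [List.length_append, List.length_ofFn, List.length_cons, List.length_replicate]
  omega

theorem rowW_inj {r l : ℕ} (b : ℕ) (f f' : Fin l → Bool)
    (h : rowW (r := r) b f = rowW b f') : f = f' := by
  unfold rowW at h
  obtain ⟨h1, _⟩ := List.append_inj h (by simp only [List.length_ofFn])
  have h2 := List.ofFn_injective h1
  funext t
  have h3 : Lt.bit (r := r) (f t) = Lt.bit (f' t) := congrFun h2 t
  injection h3

theorem blockW_inj {r m l : ℕ} (ga : ℕ) (i : Fin r) (c c' : Blk m l)
    (h : blockW ga i c = blockW ga i c') : c = c' := by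
  unfold blockW at h
  obtain ⟨_, h1⟩ := List.cons_eq_cons.1 h
  have h2 := List.append_cancel_left h1
  have h3 := flatMap_inj _ _ _ (fun b _ => by rw [rowW_length, rowW_length]) h2
  funext b
  exact rowW_inj (b : ℕ) _ _ (h3 b (List.mem_finRange b))

theorem regionW_inj {r m l : ℕ} (hLEN : LEN_Stmt) (ga : ℕ) (D D' : Fin r → Idx m → Blk m l)
    (h : regionW ga D = regionW ga D') (i : Fin r) (j : ℕ) (hj : j < 2 ^ m) :
    D i (bitsOf m j) = D' i (bitsOf m j) := by
  unfold regionW at h
  obtain ⟨_, h1⟩ := List.cons_eq_cons.1 h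
  have hb := (hLEN r m l ga).1
  have hlen : ∀ i : Fin r, ∀ j ∈ List.range (2 ^ m),
      (blockW ga i (D i (bitsOf m j))).length = (blockW ga i (D' i (bitsOf m j))).length :=
    fun i j _ => by rw [hb, hb]
  have h2 := flatMap_inj _ _ _ (fun i _ => flatMap_length _ _ _ (hlen i)) h1 i
    (List.mem_finRange i)
  have h3 := flatMap_inj _ _ _ (hlen i) h2 j (List.mem_range.2 hj)
  exact blockW_inj ga i _ _ h3

theorem treeW_inj {r m l : ℕ} (hLEN : LEN_Stmt) (ga : ℕ)
    (x x' : List (Fin r) → Fin r → Idx m → Blk m l) : ∀ (h : ℕ) (v : List (Fin r)),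
    treeW ga x h v = treeW ga x' h v → ∀ w : List (Fin r), w.length ≤ h → ∀ (i : Fin r) (j : ℕ),
      j < 2 ^ m → x (w ++ v) i (bitsOf m j) = x' (w ++ v) i (bitsOf m j) := by
  intro h
  induction h with
  | zero =>
    intro v e w hw i j hj
    have hw0 : w = [] := List.length_eq_zero_iff.1 (Nat.le_zero.1 hw)
    subst hw0
    unfold treeW at e
    exact regionW_inj hLEN ga _ _ (List.append_cancel_left e) i j hj
  | succ h ih =>
    intro v e w hw i j hj
    have ht := (hLEN r m l ga).2.2.1
    unfold treeW at e
    have hlen : ∀ i ∈ List.finRange r,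
        (treeW ga x h (i :: v)).length = (treeW ga x' h (i :: v)).length :=
      fun i _ => by rw [ht, ht]
    obtain ⟨e1, e2⟩ := List.append_inj e (flatMap_length _ _ _ hlen)
    rcases List.eq_nil_or_concat w with rfl | ⟨w', a, rfl⟩
    · exact regionW_inj hLEN ga _ _ e2 i j hj
    · have e3 := flatMap_inj _ _ _ hlen e1 a (List.mem_finRange a)
      have hw' : w'.length ≤ h := by
        rw [List.length_concat] at hw
        omega
      have e4 := ih (a :: v) e3 w' hw' i j hj
      rw [List.concat_eq_append, List.append_assoc, List.singleton_append]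
      exact e4

end INJx

theorem t_INJ (hLEN : LEN_Stmt) (hDIG : DIG_Stmt) : INJ_Stmt := by
  intro r d m l ga n x x' h
  have ht := (hLEN r m l ga).2.2.1
  unfold wordW at h
  obtain ⟨h1, _⟩ := List.append_inj h (by rw [ht, ht])
  funext z
  obtain ⟨⟨v, hv⟩, i, a⟩ := z
  have h2 := INJx.treeW_inj hLEN ga (ext x) (ext x') d [] h1 v hv i (val a) (hDIG.1 m a)
  rw [List.append_nil, hDIG.2.1 m a] at h2
  unfold ext at h2
  rw [dif_pos hv, dif_pos hv] at h2
  exact h2

end Pool.Agent.NQ2
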