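import Pool.Agent.NQ2.St

/-!
# NQ2, module J1

One label is almost uniform even if the transcript and the blocks of all other nodes are known.
-/

set_option autoImplicit false

namespace Pool.Agent.NQ2.J1x

open Pool.Agent.Heads

/-! ### Indicators and averages -/

lemma ind_true {P : Prop} (h : P) : ind P = 1 := by
  unfold ind
  exact if_pos h

lemma ind_false {P : Prop} (h : ¬ P) : ind P = 0 := by
  unfold ind
  exact if_neg h

lemma ind_nonneg (P : Prop) : 0 ≤ ind P := by
  by_cases h : P
  · rw [ind_true h]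
    exact zero_le_one
  · rw [ind_false h]

lemma ind_le_one (P : Prop) : ind P ≤ 1 := by
  by_cases h : P
  · rw [ind_true h]
  · rw [ind_false h]
    exact zero_le_one

lemma ind_and (P Q : Prop) : ind (P ∧ Q) = ind P * ind Q := by
  by_cases h : P
  · by_cases h' : Q
    · rw [ind_true h, ind_true h', ind_true ⟨h, h'⟩, one_mul]
    · rw [ind_false h', ind_false (fun t => h' t.2), mul_zero]
  · rw [ind_false h, ind_false (fun t => h t.1), zero_mul]

lemma ind_congr {P Q : Prop} (h : P ↔ Q) : ind P = ind Q := by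
  rw [propext h]

lemma ind_forall {J : Type} [Fintype J] (P : J → Prop) : ind (∀ j, P j) = ∏ j, ind (P j) := by
  by_cases h : ∀ j, P j
  · rw [ind_true h]
    symm
    exact Finset.prod_eq_one fun j _ => ind_true (h j)
  · rw [ind_false h]
    push Not at h
    obtain ⟨j, hj⟩ := h
    symm
    exact Finset.prod_eq_zero (Finset.mem_univ j) (ind_false hj)

lemma avg_mono {X : Type} [Fintype X] {f g : X → ℝ} (h : ∀ x, f x ≤ g x) : avg f ≤ avg g :=
  div_le_div_of_nonneg_right (Finset.sum_le_sum fun x _ => h x) (Nat.cast_nonneg _)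

lemma avg_mul {X : Type} [Fintype X] (c : ℝ) (f : X → ℝ) :
    avg (fun x => c * f x) = c * avg f := by
  unfold avg
  rw [← Finset.mul_sum, mul_div_assoc]

lemma avg_div {X : Type} [Fintype X] (c : ℝ) (f : X → ℝ) :
    avg (fun x => f x / c) = avg f / c := by
  unfold avg
  rw [← Finset.sum_div, div_right_comm]

lemma avg_sum {X I : Type} [Fintype X] [Fintype I] (f : I → X → ℝ) :
    avg (fun x => ∑ i, f i x) = ∑ i, avg (f i) := by
  unfold avg
  rw [Finset.sum_comm, Finset.sum_div]

lemma avg_add_const {X : Type} [Fintype X] [Nonempty X] (f : X → ℝ) (c : ℝ) :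
    avg (fun x => f x + c) = avg f + c := by
  unfold avg
  have h : (Fintype.card X : ℝ) ≠ 0 := by exact_mod_cast Fintype.card_ne_zero
  rw [Finset.sum_add_distrib, Finset.sum_const, Finset.card_univ, nsmul_eq_mul, add_div,
    mul_div_cancel_left₀ c h]

lemma avg_nonneg {X : Type} [Fintype X] {f : X → ℝ} (h : ∀ x, 0 ≤ f x) : 0 ≤ avg f :=
  div_nonneg (Finset.sum_nonneg fun x _ => h x) (Nat.cast_nonneg _)

/-! ### Replacing the blocks which determine the label of `u` -/

variable {p k d m l : ℕ}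

/-- The blocks which determine the label of `u` are replaced by `y`. -/
def rep (u : Node (p + 1) d) (x : Inp (p + 1) d m l) (y : Fin (p + 1) → Blk m l) :
    Inp (p + 1) d m l := fun z =>
  if z.1 = u ∧ z.2.2 = tup x u.1 z.2.1 then y z.2.1 else x z

/-- The blocks which determine the label of `u`. -/
def old (u : Node (p + 1) d) (x : Inp (p + 1) d m l) : Fin (p + 1) → Blk m l := fun i =>
  x (u, i, tup x u.1 i)

lemma rep_at (u : Node (p + 1) d) (x : Inp (p + 1) d m l) (y : Fin (p + 1) → Blk m l)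
    (i : Fin (p + 1)) : rep u x y (u, i, tup x u.1 i) = y i :=
  if_pos ⟨rfl, rfl⟩

lemma rep_node (u : Node (p + 1) d) (x : Inp (p + 1) d m l) (y : Fin (p + 1) → Blk m l)
    (z : Zt (p + 1) d m) (h : z.1 ≠ u) : rep u x y z = x z :=
  if_neg fun t => h t.1

lemma tup_rep (hDEP : DEP_Stmt) (u : Node (p + 1) d) (x : Inp (p + 1) d m l)
    (y : Fin (p + 1) → Blk m l) : tup (rep u x y) u.1 = tup x u.1 := by
  apply (hDEP (p + 1) d m l).2.1
  intro z _ h2
  apply rep_node
  intro h
  exact h2 (by rw [h])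

lemma lab_rep (hDEP : DEP_Stmt) (u : Node (p + 1) d) (x : Inp (p + 1) d m l)
    (y : Fin (p + 1) → Blk m l) : labD (rep u x y) u.1 = gdig y := by
  rw [(hDEP (p + 1) d m l).2.2.1 _ u.1 u.2]
  congr 1
  funext i
  rw [tup_rep hDEP]
  exact rep_at u x y i

lemma rep_rep (hDEP : DEP_Stmt) (u : Node (p + 1) d) (x : Inp (p + 1) d m l)
    (y : Fin (p + 1) → Blk m l) : rep u (rep u x y) (old u x) = x := by
  funext z
  obtain ⟨v, i, a⟩ := z
  by_cases h : v = u ∧ a = tup x u.1 i
  · obtain ⟨h1, h2⟩ := h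
    subst h1
    subst h2
    have e : rep v (rep v x y) (old v x) (v, i, tup (rep v x y) v.1 i) = old v x i :=
      rep_at v (rep v x y) (old v x) i
    rw [tup_rep hDEP] at e
    exact e
  · have e1 : rep u x y (v, i, a) = x (v, i, a) := if_neg h
    have e2 : rep u (rep u x y) (old u x) (v, i, a) = rep u x y (v, i, a) := by
      apply if_neg
      rw [tup_rep hDEP]
      exact h
    rw [e2, e1]

lemma old_rep (hDEP : DEP_Stmt) (u : Node (p + 1) d) (x : Inp (p + 1) d m l)
    (y : Fin (p + 1) → Blk m l) : old u (rep u x y) = y := by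
  funext i
  unfold old
  rw [tup_rep hDEP]
  exact rep_at u x y i

/-- The exchange of the blocks which determine the label of `u`. -/
def exch (hDEP : DEP_Stmt) (u : Node (p + 1) d) :
    (Inp (p + 1) d m l × (Fin (p + 1) → Blk m l)) ≃
      (Inp (p + 1) d m l × (Fin (p + 1) → Blk m l)) where
  toFun q := (rep u q.1 q.2, old u q.1)
  invFun q := (rep u q.1 q.2, old u q.1)
  left_inv q := Prod.ext (rep_rep hDEP u q.1 q.2) (old_rep hDEP u q.1 q.2)
  right_inv q := Prod.ext (rep_rep hDEP u q.1 q.2) (old_rep hDEP u q.1 q.2)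

lemma avg_rep (hDEP : DEP_Stmt) (u : Node (p + 1) d) (f : Inp (p + 1) d m l → ℝ) :
    avg f = avg fun x => avg fun y : Fin (p + 1) → Blk m l => f (rep u x y) := by
  have h : ∑ x : Inp (p + 1) d m l, ∑ y : Fin (p + 1) → Blk m l, f (rep u x y) =
      (Fintype.card (Fin (p + 1) → Blk m l) : ℝ) * ∑ x, f x := by
    calc ∑ x : Inp (p + 1) d m l, ∑ y : Fin (p + 1) → Blk m l, f (rep u x y)
        = ∑ q : Inp (p + 1) d m l × (Fin (p + 1) → Blk m l), f (rep u q.1 q.2) :=
          (Fintype.sum_prod_type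
            (fun q : Inp (p + 1) d m l × (Fin (p + 1) → Blk m l) => f (rep u q.1 q.2))).symm
      _ = ∑ q : Inp (p + 1) d m l × (Fin (p + 1) → Blk m l), f (exch hDEP u q).1 := rfl
      _ = ∑ q : Inp (p + 1) d m l × (Fin (p + 1) → Blk m l), f q.1 :=
          (exch hDEP u).sum_comp
            (fun q : Inp (p + 1) d m l × (Fin (p + 1) → Blk m l) => f q.1)
      _ = ∑ x : Inp (p + 1) d m l, ∑ _y : Fin (p + 1) → Blk m l, f x :=
          Fintype.sum_prod_type
            (fun q : Inp (p + 1) d m l × (Fin (p + 1) → Blk m l) => f q.1)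
      _ = (Fintype.card (Fin (p + 1) → Blk m l) : ℝ) * ∑ x, f x := by
          rw [Finset.mul_sum]
          refine Finset.sum_congr rfl fun x _ => ?_
          rw [Finset.sum_const, Finset.card_univ, nsmul_eq_mul]
  have hc : (Fintype.card (Fin (p + 1) → Blk m l) : ℝ) ≠ 0 := by
    exact_mod_cast Fintype.card_ne_zero
  unfold avg
  rw [← Finset.sum_div, h, mul_div_cancel_left₀ _ hc]

lemma RQ_rep (hDEP : DEP_Stmt) (M : BM k (Zt (p + 1) d m) (Blk m l)) (u : Node (p + 1) d)
    (x : Inp (p + 1) d m l) (y : Fin (p + 1) → Blk m l) (c : M.C) :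
    RQ M (rep u x y) u.1 c ↔ RQ M x u.1 c := by
  unfold RQ
  rw [tup_rep hDEP]

/-! ### Transcripts -/

lemma run_iff (M : BM k (Zt (p + 1) d m) (Blk m l)) (j0 n : ℕ) (s : M.C)
    (x : Inp (p + 1) d m l) (tr : Fin (n + 1) → M.C) :
    (∀ j : Fin (n + 1), M.run x j0 s j = tr j) ↔
      (s = tr 0 ∧ ∀ j : Fin n, M.F (j0 + j) (tr j.castSucc) x = tr j.succ) := by
  constructor
  · intro h
    refine ⟨h 0, fun j => ?_⟩
    have h1 := h j.succ
    have h2 := h j.castSucc
    rw [← h2, ← h1]
    rfl
  · rintro ⟨h0, h⟩ j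
    induction j using Fin.induction with
    | zero => exact h0
    | succ i ih =>
      rw [← h i, ← ih]
      rfl

lemma sum_tr {C : Type} [Fintype C] (n : ℕ) (t0 : Fin (n + 1) → C)
    (Z : (Fin (n + 1) → C) → ℝ) :
    ∑ tr : Fin (n + 1) → C, ind (∀ j, t0 j = tr j) * Z tr = Z t0 := by
  rw [Finset.sum_eq_single t0]
  · rw [ind_true fun _ => rfl, one_mul]
  · intro tr _ hne
    rw [ind_false, zero_mul]
    intro h
    exact hne (funext h).symm
  · intro h
    exact absurd (Finset.mem_univ _) h

/-- One transcript and the blocks outside of the label of `u` are fixed. -/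
lemma fixed (hEQ : EQ1_Stmt) (hDEP : DEP_Stmt) (M : BM k (Zt (p + 1) d m) (Blk m l))
    (j0 n : ℕ) (s : M.C) (u : Node (p + 1) d) (B : Inp (p + 1) d m l → ℝ) (a : Idx m)
    (hB : ∀ x, 0 ≤ B x ∧ B x ≤ 1)
    (hB' : ∀ x x', (∀ z : Zt (p + 1) d m, z.1 ≠ u → x z = x' z) → B x = B x')
    (tr : Fin (n + 1) → M.C) (x : Inp (p + 1) d m l) :
    avg (fun y : Fin (p + 1) → Blk m l =>
      ind (∀ j : Fin (n + 1), M.run (rep u x y) j0 s j = tr j) *
        (ind (∀ j : Fin n, ¬ RQ M (rep u x y) u.1 (tr j.castSucc)) *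
          (ind (labD (rep u x y) u.1 = a) * B (rep u x y)))) ≤
    avg (fun y : Fin (p + 1) → Blk m l =>
      ind (∀ j : Fin (n + 1), M.run (rep u x y) j0 s j = tr j) * B (rep u x y)) / 2 ^ m +
        Poly.bet p ^ l := by
  have hbet : 0 ≤ Poly.bet p ^ l := pow_nonneg (Poly.bet_nonneg p) l
  have hBx : ∀ y : Fin (p + 1) → Blk m l, B (rep u x y) = B x := fun y =>
    hB' _ _ fun z hz => rep_node u x y z hz
  have hR : 0 ≤ avg (fun y : Fin (p + 1) → Blk m l =>
      ind (∀ j : Fin (n + 1), M.run (rep u x y) j0 s j = tr j) * B (rep u x y)) / 2 ^ m :=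
    div_nonneg (avg_nonneg fun y => mul_nonneg (ind_nonneg _) (hB _).1) (by positivity)
  by_cases hN : ∀ j : Fin n, ¬ RQ M x u.1 (tr j.castSucc)
  · -- for every step one of the blocks is not covered
    have hi : ∀ j : Fin n, ∃ i : Fin (p + 1), ∀ h : Fin k,
        M.cov (tr j.castSucc) h ≠ some (u, i, tup x u.1 i) := by
      intro j
      by_contra hcon
      push Not at hcon
      apply hN j
      intro i
      obtain ⟨h, hh⟩ := hcon i
      exact ⟨u.2, h, hh⟩
    choose i hi using hi
    set A : Fin n → (Fin (p + 1) → Blk m l) → ℝ := fun j y =>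
      ind (M.F (j0 + j) (tr j.castSucc) (rep u x y) = tr j.succ) with hA
    have hA1 : ∀ j y, 0 ≤ A j y ∧ A j y ≤ 1 := fun j y => ⟨ind_nonneg _, ind_le_one _⟩
    have hA2 : ∀ j y y', (∀ i', i' ≠ i j → y i' = y' i') → A j y = A j y' := by
      intro j y y' hy
      have e : M.F (j0 + j) (tr j.castSucc) (rep u x y) =
          M.F (j0 + j) (tr j.castSucc) (rep u x y') := by
        apply M.loc
        intro h z hz
        by_cases hc : z.1 = u ∧ z.2.2 = tup x u.1 z.2.1
        · have hne : z.2.1 ≠ i j := by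
            intro he
            apply hi j h
            rw [hz]
            obtain ⟨v, i', c⟩ := z
            obtain ⟨h1, h2⟩ := hc
            simp only at h1 h2 he
            rw [h1, h2, he]
          have e1 : rep u x y z = y z.2.1 := if_pos hc
          have e2 : rep u x y' z = y' z.2.1 := if_pos hc
          rw [e1, e2]
          exact hy _ hne
        · have e1 : rep u x y z = x z := if_neg hc
          have e2 : rep u x y' z = x z := if_neg hc
          rw [e1, e2]
      rw [hA]
      simp only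
      rw [e]
    have key := hEQ p m l (Fin n) A i hA1 hA2 a
    have hc0 : 0 ≤ ind (s = tr 0) * B x := mul_nonneg (ind_nonneg _) (hB x).1
    have hc1 : ind (s = tr 0) * B x ≤ 1 :=
      mul_le_one₀ (ind_le_one _) (hB x).1 (hB x).2
    have eT : ∀ y : Fin (p + 1) → Blk m l,
        ind (∀ j : Fin (n + 1), M.run (rep u x y) j0 s j = tr j) =
          ind (s = tr 0) * ∏ j, A j y := by
      intro y
      rw [ind_congr (run_iff M j0 n s (rep u x y) tr), ind_and, ind_forall]
    have eL : (fun y : Fin (p + 1) → Blk m l =>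
      ind (∀ j : Fin (n + 1), M.run (rep u x y) j0 s j = tr j) *
        (ind (∀ j : Fin n, ¬ RQ M (rep u x y) u.1 (tr j.castSucc)) *
          (ind (labD (rep u x y) u.1 = a) * B (rep u x y)))) =
        fun y => (ind (s = tr 0) * B x) * ((∏ j, A j y) * ind (gdig y = a)) := by
      funext y
      have e1 : ∀ j : Fin n, ¬ RQ M (rep u x y) u.1 (tr j.castSucc) := by
        intro j
        rw [RQ_rep hDEP]
        exact hN j
      rw [eT y, ind_true e1, hBx y, lab_rep hDEP]
      ring
    have eR : (fun y : Fin (p + 1) → Blk m l =>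
      ind (∀ j : Fin (n + 1), M.run (rep u x y) j0 s j = tr j) * B (rep u x y)) =
        fun y => (ind (s = tr 0) * B x) * ∏ j, A j y := by
      funext y
      rw [eT y, hBx y]
      ring
    rw [eL, eR, avg_mul, avg_mul]
    calc (ind (s = tr 0) * B x) * avg (fun y => (∏ j, A j y) * ind (gdig y = a))
        ≤ (ind (s = tr 0) * B x) * (avg (fun y => ∏ j, A j y) / 2 ^ m + Poly.bet p ^ l) :=
          mul_le_mul_of_nonneg_left key hc0
      _ = (ind (s = tr 0) * B x) * avg (fun y => ∏ j, A j y) / 2 ^ m +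
            (ind (s = tr 0) * B x) * Poly.bet p ^ l := by ring
      _ ≤ _ := by
          have := mul_le_mul_of_nonneg_right hc1 hbet
          linarith
  · -- the left side vanishes
    have eL : (fun y : Fin (p + 1) → Blk m l =>
      ind (∀ j : Fin (n + 1), M.run (rep u x y) j0 s j = tr j) *
        (ind (∀ j : Fin n, ¬ RQ M (rep u x y) u.1 (tr j.castSucc)) *
          (ind (labD (rep u x y) u.1 = a) * B (rep u x y)))) = fun _ => 0 := by
      funext y
      have e1 : ¬ ∀ j : Fin n, ¬ RQ M (rep u x y) u.1 (tr j.castSucc) := by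
        intro h
        apply hN
        intro j
        rw [← RQ_rep hDEP M u x y]
        exact h j
      rw [ind_false e1, zero_mul, mul_zero]
    rw [eL]
    have h0 : avg (fun _ : Fin (p + 1) → Blk m l => (0 : ℝ)) = 0 := by
      unfold avg
      simp
    rw [h0]
    exact add_nonneg hR hbet

end Pool.Agent.NQ2.J1x

namespace Pool.Agent.NQ2

open Pool.Agent.Heads J1x

/-- J1: the label of `u` is almost uniform given the transcript. -/
theorem t_J1 (hEQ : EQ1_Stmt) (hDEP : DEP_Stmt) : J1_Stmt := by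
  intro p k d m l M j0 n s u B a hB hB'
  have hfix : ∀ tr : Fin (n + 1) → M.C,
      avg (fun x : Inp (p + 1) d m l =>
        ind (∀ j : Fin (n + 1), M.run x j0 s j = tr j) *
          (ind (∀ j : Fin n, ¬ RQ M x u.1 (tr j.castSucc)) *
            (ind (labD x u.1 = a tr) * B tr x))) ≤
      avg (fun x : Inp (p + 1) d m l =>
        ind (∀ j : Fin (n + 1), M.run x j0 s j = tr j) * B tr x) / 2 ^ m +
          Poly.bet p ^ l := by
    intro tr
    rw [avg_rep hDEP u, avg_rep hDEP u (fun x : Inp (p + 1) d m l =>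
        ind (∀ j : Fin (n + 1), M.run x j0 s j = tr j) * B tr x)]
    rw [← avg_div, ← avg_add_const]
    exact avg_mono fun x => fixed hEQ hDEP M j0 n s u (B tr) (a tr) (hB tr) (hB' tr) tr x
  have eL : (fun x : Inp (p + 1) d m l =>
      ind ((∀ j < n, ¬ RQ M x u.1 (M.run x j0 s j)) ∧
        labD x u.1 = a fun j => M.run x j0 s j) * B (fun j => M.run x j0 s j) x) =
      fun x => ∑ tr : Fin (n + 1) → M.C,
        ind (∀ j : Fin (n + 1), M.run x j0 s j = tr j) *
          (ind (∀ j : Fin n, ¬ RQ M x u.1 (tr j.castSucc)) *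
            (ind (labD x u.1 = a tr) * B tr x)) := by
    funext x
    rw [sum_tr n (fun j : Fin (n + 1) => M.run x j0 s j) (fun tr =>
      ind (∀ j : Fin n, ¬ RQ M x u.1 (tr j.castSucc)) * (ind (labD x u.1 = a tr) * B tr x))]
    rw [ind_and, mul_assoc]
    congr 1
    apply ind_congr
    constructor
    · intro h j
      exact h j j.2
    · intro h j hj
      exact h ⟨j, hj⟩
  have eR : (fun x : Inp (p + 1) d m l => B (fun j => M.run x j0 s j) x) =
      fun x => ∑ tr : Fin (n + 1) → M.C,
        ind (∀ j : Fin (n + 1), M.run x j0 s j = tr j) * B tr x := by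
    funext x
    exact (sum_tr n (fun j : Fin (n + 1) => M.run x j0 s j) (fun tr => B tr x)).symm
  rw [eL, eR, avg_sum, avg_sum]
  calc ∑ tr : Fin (n + 1) → M.C, avg (fun x : Inp (p + 1) d m l =>
        ind (∀ j : Fin (n + 1), M.run x j0 s j = tr j) *
          (ind (∀ j : Fin n, ¬ RQ M x u.1 (tr j.castSucc)) *
            (ind (labD x u.1 = a tr) * B tr x)))
      ≤ ∑ tr : Fin (n + 1) → M.C, (avg (fun x : Inp (p + 1) d m l =>
        ind (∀ j : Fin (n + 1), M.run x j0 s j = tr j) * B tr x) / 2 ^ m +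
          Poly.bet p ^ l) := Finset.sum_le_sum fun tr _ => hfix tr
    _ = _ := by
      rw [Finset.sum_add_distrib, ← Finset.sum_div, Finset.sum_const, Finset.card_univ,
        nsmul_eq_mul]
      congr 2
      rw [Fintype.card_fun, Fintype.card_fin]
      push_cast
      rfl

end Pool.Agent.NQ2
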