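import Pool.Agent.NQ2.St

/-!
Project NQ2, module JOINT: several labels, induction on the number of nodes.
-/

set_option autoImplicit false

namespace Pool.Agent.NQ2

open Pool.Agent.Heads

namespace JOINTx

lemma ind_nonneg (P : Prop) : 0 ≤ ind P := by
  unfold ind; split_ifs <;> norm_num

lemma ind_le_one (P : Prop) : ind P ≤ 1 := by
  unfold ind; split_ifs <;> norm_num

lemma ind_true {P : Prop} (h : P) : ind P = 1 := by
  unfold ind; rw [if_pos h]

lemma ind_false {P : Prop} (h : ¬ P) : ind P = 0 := by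
  unfold ind; rw [if_neg h]

lemma ind_congr {P Q : Prop} (h : P ↔ Q) : ind P = ind Q := by
  by_cases hP : P
  · rw [ind_true hP, ind_true (h.1 hP)]
  · rw [ind_false hP, ind_false fun hQ => hP (h.2 hQ)]

lemma avg_mono {X : Type} [Fintype X] {f g : X → ℝ} (h : ∀ x, f x ≤ g x) : avg f ≤ avg g := by
  unfold avg
  exact div_le_div_of_nonneg_right (Finset.sum_le_sum fun x _ => h x) (Nat.cast_nonneg _)

lemma avg_le_one {X : Type} [Fintype X] {f : X → ℝ} (h : ∀ x, f x ≤ 1) : avg f ≤ 1 := by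
  unfold avg
  rcases Nat.eq_zero_or_pos (Fintype.card X) with h0 | h0
  · rw [h0]; simp
  · rw [div_le_one (by exact_mod_cast h0)]
    calc ∑ x, f x ≤ ∑ _x : X, (1 : ℝ) := Finset.sum_le_sum fun x _ => h x
      _ = (Fintype.card X : ℝ) := by simp

/-- The event of one node for a sequence of configurations. -/
def Ev2 {p k d m l : ℕ} (M : BM k (Zt (p + 1) d m) (Blk m l)) (c : ℕ → M.C)
    (x : Inp (p + 1) d m l) (u : List (Fin (p + 1))) (tau : ℕ) (h : Fin k) : Prop :=
  (∀ j < tau, ¬ RQ M x u (c j)) ∧ ∃ v i, M.cov (c tau) h = some (v, i, labD x u)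

/-- The extension of a finite transcript. -/
def etr {C : Type} {n : ℕ} (tr : Fin (n + 1) → C) : ℕ → C := fun j => tr ⟨min j n, by omega⟩

lemma etr_run {C : Type} {n : ℕ} (f : ℕ → C) {j : ℕ} (hj : j ≤ n) :
    etr (n := n) (fun j : Fin (n + 1) => f j) j = f j := by
  unfold etr
  simp only [min_eq_left hj]

lemma Ev2_congr {p k d m l : ℕ} (M : BM k (Zt (p + 1) d m) (Blk m l)) (c c' : ℕ → M.C)
    (x : Inp (p + 1) d m l) (u : List (Fin (p + 1))) (tau : ℕ) (h : Fin k)
    (hc : ∀ j ≤ tau, c j = c' j) : Ev2 M c x u tau h ↔ Ev2 M c' x u tau h := by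
  unfold Ev2
  rw [hc tau le_rfl]
  constructor
  · rintro ⟨h1, h2⟩
    exact ⟨fun j hj => by rw [← hc j hj.le]; exact h1 j hj, h2⟩
  · rintro ⟨h1, h2⟩
    exact ⟨fun j hj => by rw [hc j hj.le]; exact h1 j hj, h2⟩

lemma Ev2_indep (hDEP : DEP_Stmt) {p k d m l : ℕ} (M : BM k (Zt (p + 1) d m) (Blk m l))
    (c : ℕ → M.C) (x x' : Inp (p + 1) d m l) (u : Node (p + 1) d) (u' : List (Fin (p + 1)))
    (hu : ¬ (u' <:+ u.1)) (hx : ∀ z : Zt (p + 1) d m, z.1 ≠ u → x z = x' z) (tau : ℕ)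
    (h : Fin k) : Ev2 M c x u' tau h ↔ Ev2 M c x' u' tau h := by
  obtain ⟨h1, h2, -, -⟩ := hDEP (p + 1) d m l
  have hz : ∀ z : Zt (p + 1) d m, u' <:+ z.1.1 → x z = x' z := by
    intro z hz
    apply hx
    intro he
    exact hu (he ▸ hz)
  have e1 : labD x u' = labD x' u' := h1 x x' u' hz
  have e2 : tup x u' = tup x' u' := h2 x x' u' fun z hz' _ => hz z hz'
  unfold Ev2 RQ
  rw [e1, e2]

/-- The index of the covered block. -/
def aof {p k d m l : ℕ} (M : BM k (Zt (p + 1) d m) (Blk m l)) (c : M.C) (h : Fin k) : Idx m :=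
  match M.cov c h with
  | some z => z.2.2
  | none => fun _ => false

lemma aof_eq {p k d m l : ℕ} (M : BM k (Zt (p + 1) d m) (Blk m l)) (c : M.C) (h : Fin k)
    {v : Node (p + 1) d} {i : Fin (p + 1)} {a : Idx m} (e : M.cov c h = some (v, i, a)) :
    aof M c h = a := by
  unfold aof
  rw [e]

theorem main (hJ : J1_Stmt) (hDEP : DEP_Stmt) (p k d m l T : ℕ)
    (M : BM k (Zt (p + 1) d m) (Blk m l)) (j0 : ℕ) (s : M.C) (tau : List (Fin (p + 1)) → ℕ)
    (hd : List (Fin (p + 1)) → Fin k) (N : ℕ) :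
    ∀ U : Finset (List (Fin (p + 1))), U.card = N →
    (∀ u ∈ U, u.length ≤ d) → (∀ u ∈ U, tau u ≤ T) →
    (∀ u ∈ U, ∀ u' ∈ U, u ≠ u' → ¬ (u <:+ u')) →
    avg (fun x : Inp (p + 1) d m l => ind (∀ u ∈ U, EvU M j0 s x u (tau u) (hd u))) ≤
      ((2 : ℝ) ^ m)⁻¹ ^ N +
        (N : ℝ) * (Fintype.card M.C : ℝ) ^ (T + 1) * Poly.bet p ^ l := by
  classical
  induction N with
  | zero =>
    intro U _ _ _ _
    have := avg_le_one (X := Inp (p + 1) d m l)
      (f := fun x => ind (∀ u ∈ U, EvU M j0 s x u (tau u) (hd u))) fun x => ind_le_one _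
    simpa using this
  | succ N ih =>
    intro U hU hlen hT hsuf
    have hne : U.Nonempty := by
      rw [← Finset.card_pos, hU]; omega
    obtain ⟨u, hu, hmax⟩ := Finset.exists_max_image U tau hne
    set U' := U.erase u with hU'
    have hcard : U'.card = N := by
      rw [hU', Finset.card_erase_of_mem hu, hU]; omega
    have hsub : ∀ v ∈ U', v ∈ U := fun v hv => Finset.mem_of_mem_erase hv
    have hIH := ih U' hcard (fun v hv => hlen v (hsub v hv)) (fun v hv => hT v (hsub v hv))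
      (fun v hv v' hv' => hsuf v (hsub v hv) v' (hsub v' hv'))
    let B : (Fin (tau u + 1) → M.C) → Inp (p + 1) d m l → ℝ := fun tr x =>
      ind (∀ v ∈ U', Ev2 M (etr tr) x v (tau v) (hd v))
    let a : (Fin (tau u + 1) → M.C) → Idx m := fun tr => aof M (tr (Fin.last _)) (hd u)
    have hB : ∀ x, B (fun j => M.run x j0 s j) x =
        ind (∀ v ∈ U', EvU M j0 s x v (tau v) (hd v)) := by
      intro x
      apply ind_congr
      refine forall_congr' fun v => forall_congr' fun hv => ?_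
      refine Ev2_congr M _ (fun j => M.run x j0 s j) x v (tau v) (hd v) fun j hj => ?_
      exact etr_run (fun j => M.run x j0 s j) (hj.trans (hmax v (hsub v hv)))
    have hJ' := hJ p k d m l M j0 (tau u) s ⟨u, hlen u hu⟩ B a
      (fun tr x => ⟨ind_nonneg _, ind_le_one _⟩)
      (by
        intro tr x x' hx
        apply ind_congr
        refine forall_congr' fun v => forall_congr' fun hv => ?_
        refine Ev2_indep hDEP M _ x x' ⟨u, hlen u hu⟩ v ?_ hx _ _
        exact hsuf v (hsub v hv) u hu (Finset.ne_of_mem_erase hv))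
    have hle : avg (fun x : Inp (p + 1) d m l =>
        ind (∀ u ∈ U, EvU M j0 s x u (tau u) (hd u))) ≤
        avg (fun x : Inp (p + 1) d m l =>
          ind ((∀ j < tau u, ¬ RQ M x u (M.run x j0 s j)) ∧
            labD x u = a fun j => M.run x j0 s j) * B (fun j => M.run x j0 s j) x) := by
      refine avg_mono fun x => ?_
      by_cases h : ∀ u ∈ U, EvU M j0 s x u (tau u) (hd u)
      · have h1 : (∀ j < tau u, ¬ RQ M x u (M.run x j0 s j)) ∧
            labD x u = a fun j => M.run x j0 s j := by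
          obtain ⟨h2, v, i, h3⟩ := h u hu
          refine ⟨h2, ?_⟩
          exact (aof_eq M _ _ h3).symm
        rw [hB, ind_true h, ind_true h1, ind_true fun v hv => h v (hsub v hv)]
        norm_num
      · rw [ind_false h]
        exact mul_nonneg (ind_nonneg _) (ind_nonneg _)
    have hBavg : avg (fun x : Inp (p + 1) d m l => B (fun j => M.run x j0 s j) x) ≤
        ((2 : ℝ) ^ m)⁻¹ ^ N +
          (N : ℝ) * (Fintype.card M.C : ℝ) ^ (T + 1) * Poly.bet p ^ l := by
      have e : (fun x : Inp (p + 1) d m l => B (fun j => M.run x j0 s j) x) =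
          fun x => ind (∀ v ∈ U', EvU M j0 s x v (tau v) (hd v)) := funext hB
      rw [e]
      exact hIH
    have hC : (1 : ℝ) ≤ (Fintype.card M.C : ℝ) := by
      have : 0 < Fintype.card M.C := Fintype.card_pos_iff.2 ⟨s⟩
      exact_mod_cast this
    have hb : 0 ≤ Poly.bet p ^ l := pow_nonneg (Poly.bet_nonneg p) l
    have h2 : (1 : ℝ) ≤ (2 : ℝ) ^ m := one_le_pow₀ (by norm_num)
    have h2' : ((2 : ℝ) ^ m)⁻¹ ≤ 1 := inv_le_one_of_one_le₀ h2
    have h2n : (0 : ℝ) ≤ ((2 : ℝ) ^ m)⁻¹ := by positivity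
    have hpow : (Fintype.card M.C : ℝ) ^ (tau u + 1) ≤ (Fintype.card M.C : ℝ) ^ (T + 1) :=
      pow_le_pow_right₀ hC (by have := hT u hu; omega)
    refine hle.trans (hJ'.trans ?_)
    have h3 : avg (fun x : Inp (p + 1) d m l => B (fun j => M.run x j0 s j) x) / 2 ^ m ≤
        (((2 : ℝ) ^ m)⁻¹ ^ N +
          (N : ℝ) * (Fintype.card M.C : ℝ) ^ (T + 1) * Poly.bet p ^ l) * ((2 : ℝ) ^ m)⁻¹ := by
      rw [div_eq_mul_inv]
      exact mul_le_mul_of_nonneg_right hBavg h2n
    have h4 : (N : ℝ) * (Fintype.card M.C : ℝ) ^ (T + 1) * Poly.bet p ^ l * ((2 : ℝ) ^ m)⁻¹ ≤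
        (N : ℝ) * (Fintype.card M.C : ℝ) ^ (T + 1) * Poly.bet p ^ l :=
      mul_le_of_le_one_right (by positivity) h2'
    have h5 : (Fintype.card M.C : ℝ) ^ (tau u + 1) * Poly.bet p ^ l ≤
        (Fintype.card M.C : ℝ) ^ (T + 1) * Poly.bet p ^ l :=
      mul_le_mul_of_nonneg_right hpow hb
    have h6 : ((2 : ℝ) ^ m)⁻¹ ^ (N + 1) = ((2 : ℝ) ^ m)⁻¹ ^ N * ((2 : ℝ) ^ m)⁻¹ := pow_succ _ _
    rw [h6]
    push_cast
    rw [add_mul] at h3
    linarith

end JOINTx

theorem t_JOINT (hJ : J1_Stmt) (hDEP : DEP_Stmt) : JOINT_Stmt := by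
  intro p k d m l T M j0 s U tau hd h1 h2 h3
  exact JOINTx.main hJ hDEP p k d m l T M j0 s tau hd U.card U rfl h1 h2 h3

end Pool.Agent.NQ2
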