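import Pool.Agent.NQ2.St

/-!
# Project NQ2, module LAY: the ownership of the cells and the gap property
-/

set_option autoImplicit false

namespace Pool.Agent.NQ2

open Pool.Agent.Heads

namespace LAYx

/-- the entries of the templates: letters and data bits -/
abbrev En (r d m l : ℕ) := Lt r ⊕ (Zt r d m × Fin m × Fin l)

/-- the letter of an entry -/
def evE {r d m l : ℕ} (x : Inp r d m l) : En r d m l → Lt r
  | Sum.inl a => a
  | Sum.inr w => Lt.bit (x w.1 w.2.1 w.2.2)

/-- the owner of an entry -/
def ow {r d m l : ℕ} : En r d m l → Option (Zt r d m)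
  | Sum.inl _ => none
  | Sum.inr w => some w.1

/-- a data bit -/
def entT {r d m l : ℕ} (v : List (Fin r)) (i : Fin r) (a : Idx m) (b : Fin m) (t : Fin l) :
    En r d m l :=
  if h : v.length ≤ d then Sum.inr ((⟨v, h⟩, i, a), b, t) else Sum.inl (Lt.bit false)

def rowT {r d m l : ℕ} (v : List (Fin r)) (i : Fin r) (a : Idx m) (b : Fin m) :
    List (En r d m l) :=
  List.ofFn (fun t => entT v i a b t) ++
    (Sum.inl Lt.s :: List.replicate (2 ^ (b : ℕ)) (Sum.inl Lt.pad))

def blockT {r d m l : ℕ} (ga : ℕ) (v : List (Fin r)) (i : Fin r) (a : Idx m) :
    List (En r d m l) :=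
  Sum.inl (Lt.b i) :: (List.replicate ga (Sum.inl Lt.fill) ++
    (List.finRange m).flatMap fun b : Fin m => rowT v i a b)

def regionT {r d m l : ℕ} (ga : ℕ) (v : List (Fin r)) : List (En r d m l) :=
  Sum.inl Lt.nd :: (List.finRange r).flatMap fun i =>
    (List.range (2 ^ m)).flatMap fun j => blockT ga v i (bitsOf m j)

def treeT {r d m l : ℕ} (ga : ℕ) : ℕ → List (Fin r) → List (En r d m l)
  | 0, v => List.replicate r (Sum.inl Lt.z) ++ regionT ga v
  | h + 1, v => ((List.finRange r).flatMap fun i => treeT ga h (i :: v)) ++ regionT ga v

def wordT {r d m l : ℕ} (ga n : ℕ) : List (En r d m l) :=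
  treeT ga d [] ++
    List.replicate (n - (treeT ga d [] : List (En r d m l)).length) (Sum.inl Lt.fill)

variable {r d m l : ℕ}

/-! ### Evaluation -/

theorem ev_ent (x : Inp r d m l) (v : List (Fin r)) (i : Fin r) (a : Idx m) (b : Fin m)
    (t : Fin l) : evE x (entT v i a b t) = Lt.bit (ext x v i a b t) := by
  unfold entT ext
  by_cases h : v.length ≤ d
  · rw [dif_pos h, dif_pos h]
    rfl
  · rw [dif_neg h, dif_neg h]
    rfl

theorem map_row (x : Inp r d m l) (v : List (Fin r)) (i : Fin r) (a : Idx m) (b : Fin m) :
    (rowT v i a b).map (evE x) = rowW (b : ℕ) (ext x v i a b) := by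
  unfold rowT rowW
  rw [List.map_append, List.map_cons, List.map_replicate, List.map_ofFn]
  congr 1
  congr 1
  funext t
  exact ev_ent x v i a b t

theorem map_block (x : Inp r d m l) (ga : ℕ) (v : List (Fin r)) (i : Fin r) (a : Idx m) :
    (blockT ga v i a).map (evE x) = blockW ga i (ext x v i a) := by
  unfold blockT blockW
  rw [List.map_cons, List.map_append, List.map_replicate, List.map_flatMap]
  simp only [map_row]
  rfl

theorem map_region (x : Inp r d m l) (ga : ℕ) (v : List (Fin r)) :
    (regionT ga v).map (evE x) = regionW ga (ext x v) := by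
  unfold regionT regionW
  rw [List.map_cons, List.map_flatMap]
  simp only [List.map_flatMap, map_block]
  rfl

theorem map_tree (x : Inp r d m l) (ga : ℕ) (h : ℕ) : ∀ v : List (Fin r),
    (treeT ga h v).map (evE x) = treeW ga (ext x) h v := by
  induction h with
  | zero =>
    intro v
    unfold treeT treeW
    rw [List.map_append, List.map_replicate, map_region]
    rfl
  | succ h ih =>
    intro v
    unfold treeT treeW
    rw [List.map_append, List.map_flatMap, map_region]
    simp only [ih]

theorem map_word (x : Inp r d m l) (ga n : ℕ) :
    (wordT ga n).map (evE x) = wordW ga d n (ext x) := by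
  unfold wordT wordW
  rw [List.map_append, List.map_replicate, map_tree, ← map_tree x ga d [], List.length_map]
  rfl

/-! ### Good templates -/

/-- different owners are far apart, and no owner among the first `ga + 1` entries -/
structure Gapd (ga : ℕ) (L : List (En r d m l)) : Prop where
  good : ∀ q q' z z', (L[q]?).bind ow = some z → (L[q']?).bind ow = some z' → z ≠ z' →
    q + ga < q' ∨ q' + ga < q
  lead : ∀ q z, (L[q]?).bind ow = some z → ga < q

theorem gl_append {ga : ℕ} {A B : List (En r d m l)} (hA : Gapd ga A) (hB : Gapd ga B) :
    Gapd ga (A ++ B) where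
  good := by
    intro q q' z z' h h' hz
    rcases lt_or_ge q A.length with hq | hq
    · rw [List.getElem?_append_left hq] at h
      rcases lt_or_ge q' A.length with hq' | hq'
      · rw [List.getElem?_append_left hq'] at h'
        exact hA.good q q' z z' h h' hz
      · rw [List.getElem?_append_right hq'] at h'
        have := hB.lead _ _ h'
        left
        omega
    · rw [List.getElem?_append_right hq] at h
      rcases lt_or_ge q' A.length with hq' | hq'
      · rw [List.getElem?_append_left hq'] at h'
        have := hB.lead _ _ h
        right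
        omega
      · rw [List.getElem?_append_right hq'] at h'
        rcases hB.good _ _ z z' h h' hz with h1 | h1
        · left
          omega
        · right
          omega
  lead := by
    intro q z h
    rcases lt_or_ge q A.length with hq | hq
    · rw [List.getElem?_append_left hq] at h
      exact hA.lead _ _ h
    · rw [List.getElem?_append_right hq] at h
      have := hB.lead _ _ h
      omega

/-- a template without data bits -/
theorem gl_none {ga : ℕ} {A : List (En r d m l)} (hA : ∀ e ∈ A, ow e = none) : Gapd ga A := by
  have h : ∀ (q : ℕ) (z : Zt r d m), (A[q]?).bind ow ≠ some z := by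
    intro q z h
    cases hq : A[q]? with
    | none =>
      rw [hq] at h
      simp at h
    | some e =>
      rw [hq] at h
      have h1 := hA e (List.mem_of_getElem? hq)
      simp [h1] at h
  exact ⟨fun q q' z z' h1 => absurd h1 (h q z), fun q z h1 => absurd h1 (h q z)⟩

theorem gl_nil {ga : ℕ} : Gapd ga ([] : List (En r d m l)) := gl_none fun e he => by simp at he

theorem gl_replicate {ga k : ℕ} (a : Lt r) :
    Gapd ga (List.replicate k (Sum.inl a) : List (En r d m l)) := gl_none fun e he => by
  rw [List.eq_of_mem_replicate he]
  rfl

theorem gl_cons {ga : ℕ} (a : Lt r) {A : List (En r d m l)} (hA : Gapd ga A) :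
    Gapd ga (Sum.inl a :: A) := by
  have h : (Sum.inl a :: A : List (En r d m l)) = [Sum.inl a] ++ A := rfl
  rw [h]
  refine gl_append (gl_none fun e he => ?_) hA
  rw [List.mem_singleton] at he
  rw [he]
  rfl

theorem gl_flatMap {ga : ℕ} {ι : Type} (s : List ι) (f : ι → List (En r d m l))
    (hf : ∀ i ∈ s, Gapd ga (f i)) : Gapd ga (s.flatMap f) := by
  induction s with
  | nil =>
    rw [List.flatMap_nil]
    exact gl_nil
  | cons i s ih =>
    rw [List.flatMap_cons]
    exact gl_append (hf i (by simp)) (ih fun j hj => hf j (by simp [hj]))

/-- all data bits of a block have the same owner -/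
theorem row_owner (v : List (Fin r)) (i : Fin r) (a : Idx m) (b : Fin m) (e : En r d m l)
    (he : e ∈ (rowT v i a b : List (En r d m l))) (z : Zt r d m) (hz : ow e = some z) :
    z.1.1 = v ∧ z.2 = (i, a) := by
  unfold rowT at he
  rw [List.mem_append, List.mem_cons] at he
  rcases he with he | he | he
  · obtain ⟨t, rfl⟩ := (List.mem_ofFn' _ _).1 he
    simp only [entT] at hz
    by_cases h : v.length ≤ d
    · rw [dif_pos h] at hz
      simp only [ow, Option.some.injEq] at hz
      rw [← hz]
      exact ⟨rfl, rfl⟩
    · rw [dif_neg h] at hz
      simp [ow] at hz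
  · rw [he] at hz
    simp [ow] at hz
  · rw [List.eq_of_mem_replicate he] at hz
    simp [ow] at hz

theorem gl_block (ga : ℕ) (v : List (Fin r)) (i : Fin r) (a : Idx m) :
    Gapd ga (blockT ga v i a : List (En r d m l)) := by
  have key : ∀ q z, ((blockT ga v i a : List (En r d m l))[q]?).bind ow = some z →
      ga < q ∧ z.1.1 = v ∧ z.2 = (i, a) := by
    intro q z h
    unfold blockT at h
    cases q with
    | zero => simp [ow] at h
    | succ q =>
      rw [List.getElem?_cons_succ] at h
      rcases lt_or_ge q ga with hq | hq
      · rw [List.getElem?_append_left (by simpa using hq), List.getElem?_replicate, if_pos hq] at h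
        simp [ow] at h
      · rw [List.getElem?_append_right (by simpa using hq), List.length_replicate] at h
        refine ⟨by omega, ?_⟩
        cases hq2 : ((List.finRange m).flatMap fun b : Fin m =>
            (rowT v i a b : List (En r d m l)))[q - ga]? with
        | none =>
          rw [hq2] at h
          simp at h
        | some e =>
          rw [hq2] at h
          have h1 := List.mem_of_getElem? hq2
          rw [List.mem_flatMap] at h1
          obtain ⟨b, -, hb⟩ := h1
          exact row_owner v i a b e hb z h
  refine ⟨fun q q' z z' h h' hz => ?_, fun q z h => (key q z h).1⟩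
  exfalso
  apply hz
  obtain ⟨-, h1, h2⟩ := key q z h
  obtain ⟨-, h3, h4⟩ := key q' z' h'
  exact Prod.ext (Subtype.ext (h1.trans h3.symm)) (h2.trans h4.symm)

theorem gl_region (ga : ℕ) (v : List (Fin r)) : Gapd ga (regionT ga v : List (En r d m l)) :=
  gl_cons _ (gl_flatMap _ _ fun i _ => gl_flatMap _ _ fun _ _ => gl_block ga v i _)

theorem gl_tree (ga h : ℕ) : ∀ v : List (Fin r), Gapd ga (treeT ga h v : List (En r d m l)) := by
  induction h with
  | zero =>
    intro v
    unfold treeT
    exact gl_append (gl_replicate _) (gl_region ga v)
  | succ h ih =>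
    intro v
    unfold treeT
    exact gl_append (gl_flatMap _ _ fun i _ => ih _) (gl_region ga v)

theorem gl_word (ga n : ℕ) : Gapd ga (wordT ga n : List (En r d m l)) :=
  gl_append (gl_tree ga d []) (gl_replicate _)

/-- the owner of a cell -/
def own (r d m l ga n : ℕ) : ℕ → Option (Zt r d m)
  | 0 => none
  | q + 1 => ((wordT ga n : List (En r d m l))[q]?).bind ow

end LAYx

open LAYx

theorem t_LAY : LAY_Stmt := by
  intro r d m l ga n
  refine ⟨own r d m l ga n, ?_, ?_⟩
  · intro q x x' h
    cases q with
    | zero => rfl
    | succ q =>
      simp only [tape]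
      rw [← map_word, ← map_word, List.getElem?_map, List.getElem?_map]
      have h1 : ∀ e : En r d m l, (wordT ga n : List (En r d m l))[q]? = some e →
          evE x e = evE x' e := by
        intro e he
        cases e with
        | inl a => rfl
        | inr w =>
          have h2 : own r d m l ga n (q + 1) = some w.1 := by
            simp only [own, he]
            rfl
          simp only [evE]
          rw [h w.1 h2]
      cases hq : (wordT ga n : List (En r d m l))[q]? with
      | none => rfl
      | some e =>
        simp only [Option.map_some]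
        rw [h1 e hq]
  · intro q q' z z' h h' hz
    cases q with
    | zero => simp [own] at h
    | succ q =>
      cases q' with
      | zero => simp [own] at h'
      | succ q' =>
        rcases (gl_word (r := r) (d := d) (m := m) (l := l) ga n).good q q' z z' h h' hz
          with h1 | h1
        · left
          omega
        · right
          omega

end Pool.Agent.NQ2
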