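import Pool.Agent.NQ2.St

/-!
Project NQ2 (MP_5e85fc_lc), module LEN: lengths of the words.
-/

set_option autoImplicit false

namespace Pool.Agent.NQ2

open Pool.Agent.Heads

namespace LENx

theorem rowW_length {r l : ℕ} (b : ℕ) (f : Fin l → Bool) :
    (rowW b f : List (Lt r)).length = (l + 1) + 2 ^ b := by
  simp only [rowW, List.length_append, List.length_ofFn, List.length_cons, List.length_replicate]
  omega

theorem sum_two_pow (m : ℕ) : ∑ b : Fin m, 2 ^ (b : ℕ) + 1 = 2 ^ m := by
  induction m with
  | zero => simp
  | succ m ih =>
    rw [Fin.sum_univ_castSucc]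
    simp only [Fin.val_castSucc, Fin.val_last]
    rw [pow_succ]
    omega

theorem flatMap_length {α β : Type} (L : List α) (f : α → List β) (c : ℕ)
    (h : ∀ a ∈ L, (f a).length = c) : (L.flatMap f).length = L.length * c := by
  rw [List.length_flatMap]
  have : (L.map fun a => (f a).length) = L.map fun _ => c := by
    apply List.map_congr_left
    intro a ha
    exact h a ha
  rw [this]
  simp

theorem rows_length {r m l : ℕ} (c : Blk m l) :
    ((List.finRange m).flatMap fun b : Fin m => (rowW (b : ℕ) (c b) : List (Lt r))).length =
      m * (l + 1) + ∑ b : Fin m, 2 ^ (b : ℕ) := by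
  rw [List.length_flatMap]
  have h1 : ((List.finRange m).map fun b : Fin m =>
      (rowW (b : ℕ) (c b) : List (Lt r)).length) =
      (List.finRange m).map fun b : Fin m => (l + 1) + 2 ^ (b : ℕ) := by
    apply List.map_congr_left
    intro a _
    exact rowW_length _ _
  rw [h1, ← List.ofFn_eq_map, List.sum_ofFn, Finset.sum_add_distrib]
  simp

theorem block_length {r m l : ℕ} (ga : ℕ) (i : Fin r) (c : Blk m l) :
    (blockW ga i c).length = blockLen m l ga := by
  have h := sum_two_pow m
  simp only [blockW, blockLen, List.length_cons, List.length_append, List.length_replicate,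
    rows_length]
  omega

theorem region_length {r m l : ℕ} (ga : ℕ) (D : Fin r → Idx m → Blk m l) :
    (regionW ga D).length = regionLen r m l ga := by
  have h1 : ((List.finRange r).flatMap fun i =>
      (List.range (2 ^ m)).flatMap fun j => blockW ga i (D i (bitsOf m j))).length =
      r * (2 ^ m * blockLen m l ga) := by
    rw [flatMap_length _ _ (2 ^ m * blockLen m l ga)]
    · simp
    · intro i _
      rw [flatMap_length _ _ (blockLen m l ga)]
      · simp
      · intro j _
        exact block_length _ _ _
  simp only [regionW, regionLen, List.length_cons, h1]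
  omega

theorem tree_length {r m l : ℕ} (ga : ℕ) (x : List (Fin r) → Fin r → Idx m → Blk m l) :
    ∀ (h : ℕ) (v : List (Fin r)), (treeW ga x h v).length = treeLen r m l ga h
  | 0, v => by
    simp only [treeW, treeLen, List.length_append, List.length_replicate, region_length]
  | h + 1, v => by
    simp only [treeW, treeLen, List.length_append, region_length]
    rw [flatMap_length _ _ (treeLen r m l ga h)]
    · simp
    · intro i _
      exact tree_length ga x h (i :: v)

theorem word_length {r m l : ℕ} (ga : ℕ) (x : List (Fin r) → Fin r → Idx m → Blk m l)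
    (d n : ℕ) (h : treeLen r m l ga d ≤ n) : (wordW ga d n x).length = n := by
  simp only [wordW, List.length_append, List.length_replicate, tree_length]
  omega

end LENx

theorem t_LEN : LEN_Stmt := by
  intro r m l ga
  exact ⟨fun i c => LENx.block_length ga i c, fun D => LENx.region_length ga D,
    fun x h v => LENx.tree_length ga x h v, fun x d n h => LENx.word_length ga x d n h⟩

end Pool.Agent.NQ2
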