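import Pool.Agent.NQ2.St

/-!
Project NQ2 (MP_5e85fc_lc): time dependent and probabilistic multihead finite automata.
-/

set_option autoImplicit false

namespace Pool.Agent.NQ2

open Pool.Agent.Heads Filter

/-- The configuration (state, head positions) after `t` steps of a total deterministic two-way
`k`-head automaton whose transition function may depend on the time. -/
def grun {α Q : Type} {k : ℕ} (δ : ℕ → Q → (Fin k → Sym α) → Q × (Fin k → Dir)) (q0 : Q)
    (w : List α) : ℕ → Q × (Fin k → ℕ)
  | 0 => (q0, fun _ => 0)
  | t + 1 =>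
    ((δ t (grun δ q0 w t).1 fun i => tape w ((grun δ q0 w t).2 i)).1,
      fun i => move (w.length + 1) ((grun δ q0 w t).2 i)
        ((δ t (grun δ q0 w t).1 fun i => tape w ((grun δ q0 w t).2 i)).2 i))

/-- GMACH. MACH for time dependent transition functions; same proof. The step number `i` (from `0`)
of the window `j` uses `δ (j * la + i)`. -/
def GMACH_Stmt : Prop :=
  ∀ (α : Type) (k : ℕ) (Q : Type) [Finite Q] (q0 : Q) (acc : Set Q)
    (δ : ℕ → Q → (Fin k → Sym α) → Q × (Fin k → Dir)) (Z B : Type) (W : (Z → B) → List α)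
    (n la t : ℕ) (own : ℕ → Option Z), (∀ x, (W x).length = n) → 0 < la →
    (∀ q x x', (∀ z, own q = some z → x z = x' z) → tape (W x) q = tape (W x') q) →
    (∀ q q' z z', own q = some z → own q' = some z' → z ≠ z' →
      q + 2 * la < q' ∨ q' + 2 * la < q) →
    ∃ N : BM k Z B, (Fintype.card N.C : ℝ) ≤ 2 * (Nat.card Q : ℝ) * ((n : ℝ) + 2) ^ k ∧
      ∀ x, N.out (N.run x 0 N.c0 (t / la + 1)) ↔ ∃ i ≤ t, (grun δ q0 (W x) i).1 ∈ acc

/-- DFAC. A deterministic finite automaton as a total transition function. Proof:
`δ q x = the element of M.δ q x if there is one, else (q, all heads stay)`; as long as the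
computation of `M` is not stuck the configurations agree (induction, `M.Det`); if it is stuck after
`i` steps, `grun` stays in this configuration. -/
def DFAC_Stmt : Prop :=
  ∀ (α : Type) (k : ℕ) (M : FA α k), M.Det →
    ∃ δ : ℕ → M.Q → (Fin k → Sym α) → M.Q × (Fin k → Dir), ∀ (w : List α) (t : ℕ),
      AcceptsIn M w t ↔ ∃ i ≤ t, (grun δ M.start w i).1 ∈ M.accept

/-- A two-way probabilistic finite automaton with `k` input heads: a step depends on the state, the
`k` scanned symbols and one toss of a fair coin. -/
structure PFA (α : Type) (k : ℕ) where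
  Q : Type
  finQ : Finite Q
  start : Q
  accept : Set Q
  δ : Q → (Fin k → Sym α) → Bool → Q × (Fin k → Dir)

/-- The configuration (state, head positions) after `t` steps on the input `w` with the coins `o`. -/
def PFA.run {α : Type} {k : ℕ} (M : PFA α k) (w : List α) (o : ℕ → Bool) :
    ℕ → M.Q × (Fin k → ℕ)
  | 0 => (M.start, fun _ => 0)
  | t + 1 =>
    ((M.δ (M.run w o t).1 (fun i => tape w ((M.run w o t).2 i)) (o t)).1,
      fun i => move (w.length + 1) ((M.run w o t).2 i)
        ((M.δ (M.run w o t).1 (fun i => tape w ((M.run w o t).2 i)) (o t)).2 i))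

/-- The sequence of coins which begins with `o`. -/
def coins {t : ℕ} (o : Fin t → Bool) : ℕ → Bool := fun j => if h : j < t then o ⟨j, h⟩ else false

/-- The probability that `M` reaches an accepting state within `t` steps on the input `w`. -/
noncomputable def PFA.prob {α : Type} {k : ℕ} (M : PFA α k) (w : List α) (t : ℕ) : ℝ :=
  ({o : Fin t → Bool | ∃ i ≤ t, (M.run w (coins o) i).1 ∈ M.accept}.ncard : ℝ) / 2 ^ t

end Pool.Agent.NQ2
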