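import Mathlib
import Pool.Agent.NQ2.St2

/-!
# NQ2, module MACH: windows of a multihead automaton as steps of a block machine

Project NQ2 (MP_5e85fc_lc). Time dependent transition functions (`GMACH_Stmt`).
-/

set_option autoImplicit false

namespace Pool.Agent.NQ2

open Pool.Agent.Heads Filter

namespace MACHx

theorem move_lt {n p : ℕ} (hp : p < n + 2) (d : Dir) : move (n + 1) p d < n + 2 := by
  cases d with
  | L => exact lt_of_le_of_lt (Nat.sub_le _ _) hp
  | S => exact hp
  | R =>
    change min (p + 1) (n + 1) < n + 2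
    omega

theorem move_near {n p : ℕ} (hp : p < n + 2) (d : Dir) :
    move (n + 1) p d ≤ p + 1 ∧ p ≤ move (n + 1) p d + 1 := by
  cases d with
  | L =>
    change p - 1 ≤ p + 1 ∧ p ≤ p - 1 + 1
    omega
  | S =>
    change p ≤ p + 1 ∧ p ≤ p + 1
    omega
  | R =>
    change min (p + 1) (n + 1) ≤ p + 1 ∧ p ≤ min (p + 1) (n + 1) + 1
    omega

/-- The configurations: an accepting state was met, the state, the positions of the heads. -/
abbrev Cf (Q : Type) (k n : ℕ) := Bool × Q × (Fin k → Fin (n + 2))

section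

variable {α Q : Type} {k : ℕ} (n : ℕ) (acc : Set Q)
  (δ : ℕ → Q → (Fin k → Sym α) → Q × (Fin k → Dir))

/-- One step at time `s` with the scanned symbols `v`. -/
noncomputable def stv (s : ℕ) (c : Cf Q k n) (v : Fin k → Sym α) : Cf Q k n := by
  classical exact
  (c.1 || decide ((δ s c.2.1 v).1 ∈ acc), (δ s c.2.1 v).1,
    fun i => ⟨move (n + 1) (c.2.2 i) ((δ s c.2.1 v).2 i), move_lt (c.2.2 i).2 _⟩)

/-- One step at time `s`. -/
noncomputable def stp (w : List α) (s : ℕ) (c : Cf Q k n) : Cf Q k n :=
  stv n acc δ s c fun i => tape w (c.2.2 i)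

/-- The configuration after `m` steps from the configuration `c` at time `s`. -/
noncomputable def itr (w : List α) (s : ℕ) (c : Cf Q k n) : ℕ → Cf Q k n
  | 0 => c
  | m + 1 => stp n acc δ w (s + m) (itr w s c m)

theorem itr_add (w : List α) (c : Cf Q k n) (a b : ℕ) :
    itr n acc δ w a (itr n acc δ w 0 c a) b = itr n acc δ w 0 c (a + b) := by
  induction b with
  | zero => rfl
  | succ b ih =>
    change stp n acc δ w (a + b) (itr n acc δ w a (itr n acc δ w 0 c a) b) =
      stp n acc δ w (0 + (a + b)) (itr n acc δ w 0 c (a + b))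
    rw [ih, zero_add]

/-- The first configuration. -/
noncomputable def cfg0 (q0 : Q) : Cf Q k n := by
  classical exact (decide (q0 ∈ acc), q0, fun _ => 0)

theorem itr_grun (q0 : Q) (w : List α) (hw : w.length = n) (m : ℕ) :
    (itr n acc δ w 0 (cfg0 n acc q0) m).2.1 = (grun δ q0 w m).1 ∧
    (∀ i, ((itr n acc δ w 0 (cfg0 n acc q0) m).2.2 i : ℕ) = (grun δ q0 w m).2 i) ∧
    ((itr n acc δ w 0 (cfg0 n acc q0) m).1 = true ↔ ∃ i ≤ m, (grun δ q0 w i).1 ∈ acc) := by
  classical
  induction m with
  | zero =>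
    refine ⟨rfl, fun i => rfl, ?_⟩
    change decide (q0 ∈ acc) = true ↔ _
    rw [decide_eq_true_iff]
    constructor
    · intro h
      exact ⟨0, le_rfl, h⟩
    · rintro ⟨i, hi, h⟩
      obtain rfl := Nat.le_zero.1 hi
      exact h
  | succ m ih =>
    obtain ⟨h1, h2, h3⟩ := ih
    set c := itr n acc δ w 0 (cfg0 n acc q0) m with hc
    have h4 : (δ (0 + m) c.2.1 fun i => tape w (c.2.2 i)) =
        δ m (grun δ q0 w m).1 fun i => tape w ((grun δ q0 w m).2 i) := by
      rw [zero_add, h1]
      congr 1
      funext i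
      rw [h2 i]
    have h5 : itr n acc δ w 0 (cfg0 n acc q0) (m + 1) = stp n acc δ w (0 + m) c := rfl
    refine ⟨?_, ?_, ?_⟩
    · rw [h5]
      change (δ (0 + m) c.2.1 fun i => tape w (c.2.2 i)).1 = _
      rw [h4]
      rfl
    · intro i
      rw [h5]
      change move (n + 1) (c.2.2 i) ((δ (0 + m) c.2.1 fun i => tape w (c.2.2 i)).2 i) = _
      rw [h4, h2 i, ← hw]
      rfl
    · rw [h5]
      change (c.1 || decide ((δ (0 + m) c.2.1 fun i => tape w (c.2.2 i)).1 ∈ acc)) = true ↔ _
      rw [h4, Bool.or_eq_true, h3, decide_eq_true_iff]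
      have h6 : (grun δ q0 w (m + 1)).1 =
          (δ m (grun δ q0 w m).1 fun i => tape w ((grun δ q0 w m).2 i)).1 := rfl
      rw [← h6]
      constructor
      · rintro (⟨i, hi, h⟩ | h)
        · exact ⟨i, by omega, h⟩
        · exact ⟨m + 1, le_rfl, h⟩
      · rintro ⟨i, hi, h⟩
        rcases Nat.lt_or_ge m i with h7 | h7
        · obtain rfl : i = m + 1 := by omega
          exact Or.inr h
        · exact Or.inl ⟨i, h7, h⟩

/-- The covered block of the head `h`. -/
noncomputable def cv {Z : Type} (la : ℕ) (own : ℕ → Option Z) (c : Cf Q k n) (h : Fin k) :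
    Option Z := by
  classical
  exact if H : ∃ z, ∃ q, own q = some z ∧ q ≤ (c.2.2 h : ℕ) + la ∧ (c.2.2 h : ℕ) ≤ q + la then
    some H.choose else none

theorem cv_eq {Z : Type} (la : ℕ) (own : ℕ → Option Z)
    (hown : ∀ q q' z z', own q = some z → own q' = some z' → z ≠ z' →
      q + 2 * la < q' ∨ q' + 2 * la < q) (c : Cf Q k n) (h : Fin k) (q : ℕ) (z : Z)
    (hq : own q = some z) (h1 : q ≤ (c.2.2 h : ℕ) + la) (h2 : (c.2.2 h : ℕ) ≤ q + la) :
    cv n la own c h = some z := by
  classical
  have H : ∃ z, ∃ q, own q = some z ∧ q ≤ (c.2.2 h : ℕ) + la ∧ (c.2.2 h : ℕ) ≤ q + la :=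
    ⟨z, q, hq, h1, h2⟩
  obtain ⟨q', h3, h4, h5⟩ := H.choose_spec
  unfold cv
  rw [dif_pos H]
  congr 1
  by_contra hne
  rcases hown q' q _ _ h3 hq hne with h6 | h6 <;> omega

theorem itr_loc {Z B : Type} (W : (Z → B) → List α) (la : ℕ) (own : ℕ → Option Z)
    (hW : ∀ q x x', (∀ z, own q = some z → x z = x' z) → tape (W x) q = tape (W x') q)
    (hown : ∀ q q' z z', own q = some z → own q' = some z' → z ≠ z' →
      q + 2 * la < q' ∨ q' + 2 * la < q) (s : ℕ) (c : Cf Q k n) (x x' : Z → B)
    (hx : ∀ h z, cv n la own c h = some z → x z = x' z) (m : ℕ) (hm : m ≤ la) :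
    itr n acc δ (W x) s c m = itr n acc δ (W x') s c m ∧
    ∀ h, ((itr n acc δ (W x) s c m).2.2 h : ℕ) ≤ (c.2.2 h : ℕ) + m ∧
      (c.2.2 h : ℕ) ≤ ((itr n acc δ (W x) s c m).2.2 h : ℕ) + m := by
  induction m with
  | zero => exact ⟨rfl, fun h => ⟨le_rfl, le_rfl⟩⟩
  | succ m ih =>
    obtain ⟨h1, h2⟩ := ih (by omega)
    have h3 : ∀ h, tape (W x) ((itr n acc δ (W x) s c m).2.2 h) =
        tape (W x') ((itr n acc δ (W x) s c m).2.2 h) := by
      intro h
      refine hW _ _ _ fun z hz => hx h z ?_
      exact cv_eq n la own hown c h _ z hz (by have := (h2 h).1; omega)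
        (by have := (h2 h).2; omega)
    constructor
    · change stp n acc δ (W x) (s + m) (itr n acc δ (W x) s c m) =
        stp n acc δ (W x') (s + m) (itr n acc δ (W x') s c m)
      rw [← h1]
      exact congrArg (stv n acc δ (s + m) (itr n acc δ (W x) s c m)) (funext h3)
    · intro h
      have h4 := move_near (n := n) ((itr n acc δ (W x) s c m).2.2 h).2
        ((δ (s + m) (itr n acc δ (W x) s c m).2.1 fun i =>
          tape (W x) ((itr n acc δ (W x) s c m).2.2 i)).2 h)
      have h5 : ((itr n acc δ (W x) s c (m + 1)).2.2 h : ℕ) =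
          move (n + 1) ((itr n acc δ (W x) s c m).2.2 h : ℕ)
            ((δ (s + m) (itr n acc δ (W x) s c m).2.1 fun i =>
              tape (W x) ((itr n acc δ (W x) s c m).2.2 i)).2 h) := rfl
      have h6 := h2 h
      rw [h5]
      omega

end

end MACHx

open MACHx in
/-- MACH for time dependent transition functions. -/
theorem t_GMACH : GMACH_Stmt := by
  classical
  intro α k Q _ q0 acc δ Z B W n la t own hn hla hW hown
  let _ : Fintype Q := Fintype.ofFinite Q
  let N : BM k Z B :=
    { C := Cf Q k n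
      fin := inferInstance
      F := fun j c x => itr n acc δ (W x) (j * la) c (min la (t - j * la))
      cov := cv n la own
      c0 := cfg0 n acc q0
      out := fun c => c.1 = true
      loc := fun j c x x' h =>
        (itr_loc n acc δ W la own hW hown (j * la) c x x' h _ (min_le_left _ _)).1 }
  refine ⟨N, ?_, ?_⟩
  · have h1 : Fintype.card N.C = 2 * (Nat.card Q * (n + 2) ^ k) := by
      change Fintype.card (Bool × Q × (Fin k → Fin (n + 2))) = _
      rw [Fintype.card_prod, Fintype.card_prod, Fintype.card_bool, Fintype.card_fun,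
        Fintype.card_fin, Fintype.card_fin, Nat.card_eq_fintype_card]
    rw [h1]
    push_cast
    exact le_of_eq (by ring)
  · intro x
    have h1 : ∀ m, N.run x 0 N.c0 m =
        itr n acc δ (W x) 0 (cfg0 n acc q0) (min (m * la) t) := by
      intro m
      induction m with
      | zero =>
        rw [zero_mul, Nat.zero_min]
        rfl
      | succ m ih =>
        change itr n acc δ (W x) ((0 + m) * la) (N.run x 0 N.c0 m)
          (min la (t - (0 + m) * la)) = _
        rw [ih, zero_add]
        rcases le_total (m * la) t with h2 | h2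
        · rw [min_eq_left h2, itr_add]
          congr 1
          rw [Nat.succ_mul]
          omega
        · rw [Nat.sub_eq_zero_of_le h2, Nat.min_zero, min_eq_right h2]
          have h3 : min ((m + 1) * la) t = t := by
            rw [Nat.succ_mul]
            omega
          rw [h3]
          rfl
    have h2 : t ≤ (t / la + 1) * la := by
      have h3 := Nat.div_add_mod t la
      have h4 := Nat.mod_lt t hla
      rw [add_mul, one_mul, mul_comm (t / la) la]
      omega
    change (N.run x 0 N.c0 (t / la + 1)).1 = true ↔ _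
    rw [h1, min_eq_right h2]
    exact (itr_grun n acc δ q0 (W x) (hn x) t).2.2

end Pool.Agent.NQ2
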