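import Pool.Agent.NQ2.St

/-!
Project NQ2, module NODE: the number of nodes and the length of the word of a tree.
-/

set_option autoImplicit false

namespace Pool.Agent.NQ2

namespace NODEx

theorem geom (r d : ℕ) (hr : 2 ≤ r) : ∑ j ∈ Finset.range (d + 1), r ^ j ≤ r ^ (d + 1) := by
  induction d with
  | zero => simp; omega
  | succ d ih =>
    rw [Finset.sum_range_succ]
    have h1 : r ^ (d + 1 + 1) = r * r ^ (d + 1) := by ring
    have h2 : 2 * r ^ (d + 1) ≤ r * r ^ (d + 1) := Nat.mul_le_mul_right _ hr
    omega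

theorem card_le (r d : ℕ) (hr : 2 ≤ r) : Fintype.card (Node r d) ≤ r ^ (d + 1) := by
  have hinj : Function.Injective (fun v : Node r d =>
      (⟨⟨v.1.length, Nat.lt_succ_of_le v.2⟩, v.1.get⟩ :
        Σ j : Fin (d + 1), (Fin (j : ℕ) → Fin r))) := by
    intro v w h
    have key : ∀ a : Σ j : Fin (d + 1), (Fin (j : ℕ) → Fin r), ∀ b, a = b →
        List.ofFn a.2 = List.ofFn b.2 := by
      intro a b hab
      rw [hab]
    have h' := key _ _ h
    simp only [List.ofFn_get] at h'
    exact Subtype.ext h'
  have h1 := Fintype.card_le_of_injective _ hinj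
  have h2 : Fintype.card (Σ j : Fin (d + 1), (Fin (j : ℕ) → Fin r)) =
      ∑ j ∈ Finset.range (d + 1), r ^ j := by
    rw [Fintype.card_sigma, ← Fin.sum_univ_eq_sum_range]
    apply Finset.sum_congr rfl
    intro j _
    rw [Fintype.card_fun, Fintype.card_fin, Fintype.card_fin]
  rw [h2] at h1
  exact h1.trans (geom r d hr)

theorem len_le (r m l ga : ℕ) (hr : 2 ≤ r) (h : ℕ) :
    treeLen r m l ga h + (r + regionLen r m l ga) ≤ r ^ (h + 1) * (r + regionLen r m l ga) := by
  induction h with
  | zero =>
    rw [treeLen, zero_add, pow_one]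
    have := Nat.mul_le_mul_right (r + regionLen r m l ga) hr
    omega
  | succ h ih =>
    rw [treeLen]
    have h1 : r ^ (h + 1 + 1) * (r + regionLen r m l ga) =
        r * (r ^ (h + 1) * (r + regionLen r m l ga)) := by ring
    rw [h1]
    have h2 := Nat.mul_le_mul_left r ih
    rw [Nat.mul_add] at h2
    have h3 := Nat.mul_le_mul_right (r + regionLen r m l ga) hr
    omega

end NODEx

theorem t_NODE : NODE_Stmt := by
  intro r hr
  refine ⟨fun d => NODEx.card_le r d hr, fun m l ga h => ?_⟩
  have := NODEx.len_le r m l ga hr h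
  omega

end Pool.Agent.NQ2
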