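import Pool.Agent.NQ2.StP

/-!
Project NQ2 (problem MP_5e85fc_lc), module PACC: the pushdown automaton computes the top digit of
the root.
-/

set_option autoImplicit false

namespace Pool.Agent.NQ2

open Pool.Agent.Heads

namespace PACCx

lemma reach_star {α : Type} {k : ℕ} (M : PDA α k) (w : List α) {t : ℕ}
    {c c' : Cfg M.Q (Fin k → ℕ) M.Γ} (h : M.Reach w t c)
    (hs : Relation.ReflTransGen (M.Step w) c c') : ∃ t', M.Reach w t' c' := by
  induction hs with
  | refl => exact ⟨t, h⟩
  | tail _ h2 ih =>
    obtain ⟨t', ht'⟩ := ih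
    exact ⟨t' + 1, PDA.Reach.succ ht' h2⟩

lemma step_unique {α : Type} {k : ℕ} (M : PDA α k) (hM : M.Det) (w : List α)
    {c c' c'' : Cfg M.Q (Fin k → ℕ) M.Γ} (h : M.Step w c c') (h' : M.Step w c c'') :
    c' = c'' := by
  obtain ⟨t, ht, e⟩ := h
  obtain ⟨t', ht', e'⟩ := h'
  rw [e, e', hM _ _ _ ht ht']

lemma all_below {α : Type} {k : ℕ} (M : PDA α k) (hM : M.Det) (w : List α)
    {e : Cfg M.Q (Fin k → ℕ) M.Γ} (h0 : Relation.ReflTransGen (M.Step w) M.init e)
    (hend : ∀ c, ¬ M.Step w e c) {t : ℕ} {c : Cfg M.Q (Fin k → ℕ) M.Γ} (h : M.Reach w t c) :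
    Relation.ReflTransGen (M.Step w) c e := by
  induction h with
  | zero => exact h0
  | succ _ h2 ih =>
    rcases Relation.ReflTransGen.cases_head ih with h3 | ⟨c2, h3, h4⟩
    · rw [h3] at h2
      exact absurd h2 (hend _)
    · rw [step_unique M hM w h2 h3]
      exact h4

lemma tape_get {α : Type} (w : List α) (o : ℕ) (h : o < w.length) :
    tape w (1 + o) = Sym.letter w[o] := by
  rw [Nat.add_comm, tape, List.getElem?_eq_getElem h]

lemma tape_end {α : Type} (w : List α) : tape w (w.length + 1) = Sym.right := by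
  rw [tape, List.getElem?_eq_none le_rfl]

end PACCx

open PACCx in
theorem t_PACC (hDET : PDET_Stmt) (hLEN : LEN_Stmt) (hTREE : PTREE_Stmt) : PACC_Stmt := by
  intro p m l ga d n x hp
  set u := treeW ga x d [] with hu
  set k := n - u.length with hk
  have hw : wordW ga d n x = u ++ List.replicate k Lt.fill := rfl
  set w := wordW ga d n x with hwdef
  have hlen : w.length = u.length + k := by
    rw [hw, List.length_append, List.length_replicate]
  have hT : u.length = treeLen (p + 1) m l ga d := (hLEN (p + 1) m l ga).2.2.1 x d []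
  have hat : At w 1 u := by
    intro o ho
    have h1 : o < w.length := by omega
    rw [tape_get w o h1]
    congr 1
    simp only [hw]
    exact List.getElem_append_left ho
  have hnxt : Nxt w (1 + treeLen (p + 1) m l ga d) (w.length + 1) := by
    refine ⟨by omega, ?_, Or.inr (Or.inr (tape_end w))⟩
    intro o ho1 ho2
    obtain ⟨j, rfl⟩ : ∃ j, o = 1 + (u.length + j) := ⟨o - 1 - u.length, by omega⟩
    have h1 : u.length + j < w.length := by omega
    rw [tape_get w _ h1]
    congr 1
    simp only [hw]
    rw [List.getElem_append_right (by omega)]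
    exact List.getElem_replicate _
  have h1 := hTREE p m l ga w x d [] 1 (w.length + 1) false [] hp hat hnxt
  set st := List.replicate (val (lab x d [])) true ++ [false] with hst
  -- the first step
  have h0 : (pdaM p).Step w (pdaM p).init ⟨PSt.main false, fun _ => 1, []⟩ := by
    refine ⟨(PSt.main false, allR, Op.none), ?_, ?_⟩
    · change pstep (PSt.main false) (fun _ => tape w 0) none = _
      simp only [pstep, tape]
      rfl
    · change _ = (⟨PSt.main false, fun i => move (w.length + 1) 0 Dir.R, []⟩ :
        Cfg (PSt (p + 1)) (Fin (p + 1) → ℕ) Bool)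
      congr 1
  set e : Cfg (PSt (p + 1)) (Fin (p + 1) → ℕ) Bool :=
    ⟨PSt.main (topd (lab x d [])), fun _ => w.length + 1, st⟩ with he
  have h2 : Relation.ReflTransGen ((pdaM p).Step w) (pdaM p).init e :=
    Relation.ReflTransGen.head h0 h1
  constructor
  · rintro ⟨t, c, hc, hacc⟩
    by_contra htop
    have htop' : topd (lab x d []) = false := by simpa using htop
    have hend : ∀ c, ¬ (pdaM p).Step w e c := by
      rintro c ⟨t, ht, -⟩
      have ht' : pstep (PSt.main (topd (lab x d []))) (fun _ => tape w (w.length + 1))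
          st.head? = some t := ht
      rw [htop', tape_end] at ht'
      simp [pstep] at ht'
    have h3 := all_below (pdaM p) (hDET p).1 w h2 hend hc
    have hacc' : c.state = PSt.acc := hacc
    rcases Relation.ReflTransGen.cases_head h3 with h4 | ⟨c2, h4, -⟩
    · rw [h4, he] at hacc'
      cases hacc'
    · obtain ⟨t2, ht2, -⟩ := h4
      have ht3 : pstep c.state (fun i => tape w (c.pos i)) c.stack.head? = some t2 := ht2
      rw [hacc'] at ht3
      simp [pstep] at ht3
  · intro htop
    have h3 : (pdaM p).Step w e ⟨PSt.acc, fun _ => w.length + 1, st⟩ := by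
      refine ⟨(PSt.acc, allS, Op.none), ?_, ?_⟩
      · change pstep (PSt.main (topd (lab x d []))) (fun _ => tape w (w.length + 1)) st.head? = _
        rw [htop, tape_end]
        simp only [pstep]
        rfl
      · rfl
    obtain ⟨t, ht⟩ := reach_star (pdaM p) w PDA.Reach.zero (h2.tail h3)
    exact ⟨t, _, ht, rfl⟩

end Pool.Agent.NQ2
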