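import Pool.Agent.NQ2.Defs

/-!
Project NQ2 (MP_5e85fc_lc): the statements of the modules, with complete proofs in words.
Project goal: for every `e > 0` a one-way deterministic multihead pushdown automaton working in
linear time accepts a language which no two-way deterministic multihead finite automaton accepts in
time `n ^ (2 - e)`. Paper proof: note 2887 of the team database (topic `NQ2 paper proof`).
-/

set_option autoImplicit false

namespace Pool.Agent.NQ2

open Pool.Agent.Heads Filter

/-! ### Part 1: the lower bound for block machines -/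

/-- DIG. Proof: `val f < 2 ^ m` by induction on `m` (`Fin.sum_univ_castSucc`), and the binary digits
of `val f` are those of `f` (`Nat.testBit` of `2 ^ m * c + x` with `x < 2 ^ m`, induction on `m`,
splitting off the LAST digit: `val f = val (f ∘ castSucc) + (if f last then 2 ^ m else 0)`);
`val (bitsOf m j) = j` for `j < 2 ^ m`: both have the same digits (`Nat.eq_of_testBit_eq`; digits
from `m` on are `false` as both numbers are `< 2 ^ m`). -/
def DIG_Stmt : Prop :=
  (∀ (m : ℕ) (f : Idx m), val f < 2 ^ m) ∧
  (∀ (m : ℕ) (f : Idx m), bitsOf m (val f) = f) ∧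
  (∀ m j : ℕ, j < 2 ^ m → val (bitsOf m j) = j) ∧
  (∀ m : ℕ, val (fun _ : Fin m => false) = 0) ∧
  (∀ m : ℕ, bitsOf m 0 = fun _ => false)

/-- EQ1. A product of functions with values in `[0, 1]`, each of which does not depend on one of the
`p + 1` blocks, has almost no correlation with the digits.
Proof. `ind (gdig y = a) = ∏ b, (1 + s b * chi b y) / 2` with `s b = if a b then -1 else 1` and
`chi b y = ∏ t, (if ∀ i, y i b t = true then -1 else 1) = Poly.sg univ (fun i => y i b)`.
Show by induction on a finite set `S` of rows:
`avg (A * ∏ b ∈ S, (1 + s b * chi b) / 2) ≤ avg A / 2 ^ |S| + (1 - 2⁻¹ ^ |S|) * bet p ^ l`, where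
`A = ∏ j, A j`. Step `insert b S`: the sum is
`1/2 avg (A * ∏_S) + (s b / 2) avg (A * ∏_S * chi b)`; in the second average fix all rows except the
row `b` of all blocks (write `y` as the pair (row `b` of the blocks, other rows), e.g. with
`Equiv.piEquivPiSubtypeProd` or by `Function.update`): `∏_S` is a constant in `[0, 1]` and `A` is a
product of functions of the row `b` each missing one coordinate; group them into
`P i = ∏ j with i j = i, A j` (times the constant) and apply `Poly.gip p Finset.univ P` (with
`τ = Fin l`): the absolute value of the average over the row `b` is `≤ bet p ^ l`.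
(`bet p ^ l` and `bet` are `Pool.Agent.Poly.bet`.) -/
def EQ1_Stmt : Prop :=
  ∀ (p m l : ℕ) (J : Type) [Fintype J] (A : J → (Fin (p + 1) → Blk m l) → ℝ)
    (i : J → Fin (p + 1)),
    (∀ j y, 0 ≤ A j y ∧ A j y ≤ 1) →
    (∀ j y y', (∀ i', i' ≠ i j → y i' = y' i') → A j y = A j y') →
    ∀ a : Idx m, avg (fun y => (∏ j, A j y) * ind (gdig y = a)) ≤
      avg (fun y => ∏ j, A j y) / 2 ^ m + Poly.bet p ^ l

/-- DEP. The label of `v` depends only on the blocks of the nodes in the subtree of `v` (the words
with suffix `v`), the indices of its blocks only on the strict subtree, and the label is `gdig` of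
the blocks with these indices. Proof: the first by induction on `h` in `lab x h v` (a child `i :: v`
has suffix `v`, `List.IsSuffix.trans`, `List.suffix_cons`); the second from the first for `i :: v`
(`i :: v <:+ u` implies `v <:+ u` and `v ≠ u` by length); the third by unfolding: for
`v.length < d` write `d - v.length = (d - (i :: v).length) + 1`. -/
def DEP_Stmt : Prop :=
  ∀ (r d m l : ℕ),
    (∀ (x x' : Inp r d m l) (v : List (Fin r)),
      (∀ z : Zt r d m, v <:+ z.1.1 → x z = x' z) → labD x v = labD x' v) ∧
    (∀ (x x' : Inp r d m l) (v : List (Fin r)),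
      (∀ z : Zt r d m, v <:+ z.1.1 → v ≠ z.1.1 → x z = x' z) → tup x v = tup x' v) ∧
    (∀ (x : Inp r d m l) (v : List (Fin r)) (hv : v.length ≤ d),
      labD x v = gdig fun i => x (⟨v, hv⟩, i, tup x v i)) ∧
    (∀ (x : Inp r d m l) (v : List (Fin r)) (i : Fin r), v.length < d →
      tup x v i = labD x (i :: v))

/-- J1. `u` is a node, the machine starts in `s` at time `j0` and makes `n` steps; `tr x` is the
sequence of its configurations. If no configuration at a time `< n` covers all the blocks which
determine the label of `u`, then this label is almost uniform even if the transcript and the blocks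
of all other nodes are known.
Proof. Write `U x y` for the input `x` in which, for every `i`, the block `(u, i, tup x u i)` is
replaced by `y i` (`y : Fin (p+1) → Blk m l`). As `tup x u` does not depend on the blocks of `u`
(DEP), `tup (U x y) u = tup x u`, `(x, y) ↦ U x y` maps the uniform measure to the uniform measure
(for fixed other blocks it is a bijection: the map `(x, y) ↦ (U x y, the old blocks)` is an
involution on pairs), so `avg f = avg over x of avg over y of f (U x y)`.
The left side is the sum over all `tr : Fin (n+1) → C` of the average of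
`ind (tr x = tr) * ind (no RQ in tr) * ind (labD x u = a tr) * B tr x`; for fixed `x` and `tr`,
`B tr (U x y)` and `no RQ` (it only uses `tup x u` and `tr`) do not depend on `y`,
`labD (U x y) u = gdig y` (DEP) and `ind (tr (U x y) = tr) = ind (s = tr 0) * ∏ j < n,
ind (F (j0 + j) (tr j) (U x y) = tr (j + 1))`; if there is no RQ in `tr`, for every `j < n` one of
the blocks `(u, i, tup x u i)` is not covered by `tr j`, so the factor does not depend on `y i` (field
`loc` of `BM`): EQ1. Sum over the `card C ^ (n + 1)` transcripts (in the main term drop `no RQ`);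
the sum over `tr` of `ind (tr x = tr) * B tr x` is `B (tr x) x`. -/
def J1_Stmt : Prop :=
  ∀ (p k d m l : ℕ) (M : BM k (Zt (p + 1) d m) (Blk m l)) (j0 n : ℕ) (s : M.C)
    (u : Node (p + 1) d) (B : (Fin (n + 1) → M.C) → Inp (p + 1) d m l → ℝ)
    (a : (Fin (n + 1) → M.C) → Idx m),
    (∀ tr x, 0 ≤ B tr x ∧ B tr x ≤ 1) →
    (∀ tr x x', (∀ z : Zt (p + 1) d m, z.1 ≠ u → x z = x' z) → B tr x = B tr x') →
    avg (fun x : Inp (p + 1) d m l =>
      ind ((∀ j < n, ¬ RQ M x u.1 (M.run x j0 s j)) ∧
        labD x u.1 = a fun j => M.run x j0 s j) * B (fun j => M.run x j0 s j) x) ≤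
    avg (fun x : Inp (p + 1) d m l => B (fun j => M.run x j0 s j) x) / 2 ^ m +
      (Fintype.card M.C : ℝ) ^ (n + 1) * Poly.bet p ^ l

/-- The event for one node `u`: it is not completely covered before time `tau`, and at time `tau` the
head `h` covers a block whose index is the label of `u`. -/
def EvU {p k d m l : ℕ} (M : BM k (Zt (p + 1) d m) (Blk m l)) (j0 : ℕ) (s : M.C)
    (x : Inp (p + 1) d m l) (u : List (Fin (p + 1))) (tau : ℕ) (h : Fin k) : Prop :=
  (∀ j < tau, ¬ RQ M x u (M.run x j0 s j)) ∧
    ∃ v i, M.cov (M.run x j0 s tau) h = some (v, i, labD x u)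

/-- JOINT. For a set `U` of nodes, no one in the subtree of another, the events are almost independent.
Proof: induction on `U.card`. Let `u` be an element of `U` with the largest `tau u`
(`Finset.exists_max_image`), `U' = U.erase u`. Apply J1 with `n = tau u`,
`B tr x = ind (the covered block of head hd u in tr (last) exists and, for all u' in U', EvU u'
expressed by the prefix of tr)`, `a tr =` the index of this block. For `u' ∈ U'` the event `EvU u'`
for the transcript `tr` reads `tup x u'` and `labD x u'`, which depend only on blocks of nodes with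
suffix `u'` (DEP), and `u` does not have the suffix `u'`: so `B` does not depend on the blocks of `u`.
By J1 and the induction hypothesis the average is at most `(2⁻¹ ^ m) * (avg of the events of U') +
card C ^ (T + 1) * bet ^ l`. (`card C ≥ 1`, `tau u + 1 ≤ T + 1`.) -/
def JOINT_Stmt : Prop :=
  ∀ (p k d m l T : ℕ) (M : BM k (Zt (p + 1) d m) (Blk m l)) (j0 : ℕ) (s : M.C)
    (U : Finset (List (Fin (p + 1)))) (tau : List (Fin (p + 1)) → ℕ)
    (hd : List (Fin (p + 1)) → Fin k),
    (∀ u ∈ U, u.length ≤ d) → (∀ u ∈ U, tau u ≤ T) →
    (∀ u ∈ U, ∀ u' ∈ U, u ≠ u' → ¬ (u <:+ u')) →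
    avg (fun x : Inp (p + 1) d m l => ind (∀ u ∈ U, EvU M j0 s x u (tau u) (hd u))) ≤
      ((2 : ℝ) ^ m)⁻¹ ^ U.card +
        (U.card : ℝ) * (Fintype.card M.C : ℝ) ^ (T + 1) * Poly.bet p ^ l

/-- PEB. The pebbling lemma (deterministic). `R v j` means that at time `j` all blocks which
determine the label of `v` are covered.
Proof. Let `next(v, j)` be the first time `≥ j` with `R v`. For `w = i :: v` say that `w` is pebbled
at `j` if there is `j' ≥ j` with `R v j'` and no `R v`, no `R w` at the times in `[j, j')`; the root
is pebbled at `j` if `R [] j''` for some `j'' < j`. An open path at `j` from `v` (length `≤ d`) is a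
sequence `v = w_0, w_1 = i_1 :: w_0, …` down to length `d` of nodes which are not pebbled at `j`.
If case (A) fails (at time 0), every node `v` with `v.length < d` has an unpebbled child at time `0`
(for any `e` some `i ≠ e`: here `τ = next(v, 0)`; note that if `R v` never holds no child is
pebbled), and the root is unpebbled at `0`: there is an open path from `[]` at time `0`. At time
`j* + 1` (`j*` the first `R []`) there is none. So there is `j0` (`1 ≤ j0 ≤ T`) with an open path
`w_0, …, w_d` at `j0 - 1` and no open path at `j0`. Some `w_i` is pebbled at `j0`; choose any such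
`i`. Then `R w_i (j0 - 1)`: for the root this is clear; for `w = i :: v`, if `R w (j0 - 1)` fails,
then with `j'` from the pebbling at `j0`: if `R v (j0-1)` then `w` is pebbled at `j0 - 1` by
`j' = j0 - 1`, otherwise by the same `j'`: contradiction. If `i < d` then `w_(i+1)` is pebbled at
`j0 - 1` (with `j' = j0 - 1`, empty interval): contradiction. So `i = d`: `w_0, …, w_(d-1)` are not
pebbled at `j0`. For `t = 1..d` and a sibling `s = i :: w_(t-1)`, `i ≠ i_t`, there is no open path
at `j0` from `s` (prepend `w_0, …, w_(t-1)`). Either all these siblings are pebbled: take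
`v_t = w_(t-1)`, `e_t = i_t`. Or some `s` is unpebbled without open path: then there is a node `v_t`
with suffix `s`, length `< d`, and `e_t` such that all children `i ≠ e_t` of `v_t` are pebbled
(descend from `s`: `s` has length `< d`, otherwise `s` itself is an open path; if no `e` works for
`s`, it has an unpebbled child, again without open path; induction on `d - length`).
`τ_t = next(v_t, j0) - j0`. Every node `i :: v_t`, `i ≠ e_t`, has a suffix `i' :: w_(t-1)` with
`i' ≠ i_t`; for `t < t'` the nodes of group `t'` have the suffix `w_t = i_t :: w_(t-1)`. Two suffixes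
of the same length of the same word are equal, so no node of one group is a suffix of a node of
another group; within a group they are distinct words of the same length. -/
def PEB_Stmt : Prop :=
  ∀ (p d T : ℕ) (R : List (Fin (p + 1)) → ℕ → Prop), (∀ v j, R v j → j < T) → (∃ j, R [] j) →
    (∃ (v : List (Fin (p + 1))) (e : Fin (p + 1)) (tau : ℕ), v.length < d ∧ tau < T ∧ R v tau ∧
      ∀ i, i ≠ e → ∀ j < tau, ¬ R (i :: v) j) ∨
    (∃ (j0 : ℕ) (v : Fin d → List (Fin (p + 1))) (e : Fin d → Fin (p + 1)) (tau : Fin d → ℕ),
      j0 ≤ T ∧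
      (∀ t, (v t).length < d ∧ j0 + tau t < T ∧ R (v t) (j0 + tau t) ∧
        ∀ i, i ≠ e t → ∀ j < tau t, ¬ R (i :: v t) (j0 + j)) ∧
      ∀ t t' i i', i ≠ e t → i' ≠ e t' → (t, i) ≠ (t', i') → ¬ ((i :: v t) <:+ (i' :: v t')))

/-- The number of hints for one group. -/
noncomputable def Gh (p k d T : ℕ) : ℝ :=
  (Fintype.card (Node (p + 1) d) : ℝ) * (p + 1) * (T + 1) * (k : ℝ) ^ (p + 1)

/-- The error of the lower bound for a machine with `N` configurations and `T` steps. -/
noncomputable def Err (p k d m l T : ℕ) (N : ℝ) : ℝ :=
  Gh p k d T * (((2 : ℝ) ^ m)⁻¹ ^ p + p * N ^ (T + 1) * Poly.bet p ^ l) +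
  (T + 1) * N * Gh p k d T ^ d *
    (((2 : ℝ) ^ m)⁻¹ ^ (p * d) + (p * d) * N ^ (T + 1) * Poly.bet p ^ l) +
  2 ^ m * N ^ (T + 1) * Poly.bet p ^ l

/-- ABS. A block machine with `N` configurations and `T` steps finds the top digit of the root with
probability at most `1/2 + Err`.
Proof. For an input `x` let `c_j = M.run x 0 M.c0 j`, `R v j = (j < T ∧ RQ M x v c_j)`.
(1) `x` with `R [] j` for no `j`, and the output is right: J1 with `u = []`, `n = T`, `j0 = 0`,
`s = c0`, `B tr x = 1`, for each of the `2 ^ (m-1)` values `a` (constant) with the top digit equal to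
... more precisely `a tr = a` and `B tr x = ind (M.out (tr last) ↔ topd a = true)`, summed over all
`2 ^ m` values `a : Idx m`: the sum of `avg B_a / 2 ^ m` over `a` is `1/2` because for each
transcript exactly half of the `a` have the right top digit (`0 < m`); error
`2 ^ m * N ^ (T+1) * bet ^ l`.
(2) `x` with `R [] j` for some `j`: apply PEB. Case (A): there are `v, e, tau` and, as
`RQ M x v c_tau` holds, for every `i` a head `h i` with
`cov c_tau (h i) = some (v, i, tup x v i)` and `tup x v i = labD x (i :: v)` (DEP, `v.length < d`); so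
`EvU M 0 c0 x (i :: v) tau (h i)` for all `i ≠ e`. Union over the at most `Gh` choices of
`(v, e, tau, h)` and JOINT for `U = {i :: v | i ≠ e}` (`p` nodes).
Case (B): with `s = c_(j0)` the run from `s` at time `j0` is the rest of the run
(`run x 0 c0 (j0 + n) = run x j0 c_(j0) n`); union over `j0 ≤ T`, `s`, and for every `t : Fin d` the
`Gh` choices of `(v t, e t, tau t, h t)` (if the separation property fails for a choice it does not
occur); JOINT for `U = {i :: v t | t, i ≠ e t}` (`p * d` distinct nodes by the separation property),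
`tau` and `hd` on `U` are well defined because `(t, i) ↦ i :: v t` is injective on the pairs with
`i ≠ e t`. -/
def ABS_Stmt : Prop :=
  ∀ (p k d m l T : ℕ) (M : BM k (Zt (p + 1) d m) (Blk m l)), 0 < m →
    avg (fun x : Inp (p + 1) d m l =>
      ind (M.out (M.run x 0 M.c0 T) ↔ topd (labD x []) = true)) ≤
      1 / 2 + Err p k d m l T (Fintype.card M.C)

/-! ### Part 2: from finite automata to block machines -/

/-- MACH. Windows of `la` steps of a deterministic multihead finite automaton are the steps of a block
machine. `own q = some z` says that the content of the tape cell `q` may depend on the block `z`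
(and on no other block).
Proof. A configuration of the block machine: `Bool × M.Q × (Fin k → Fin (n + 2))` (flag: an accepting
state was met). `stepF w (b, q, P)`: if there is `t ∈ M.δ q (fun i => tape w (P i))` (unique, `M.Det`)
then the next state and positions with the flag `b ∨ (new state accepting)`, else unchanged.
`F j c x` makes `min la (t - j * la)` steps `stepF (W x)`; `c0 = (start ∈ accept, start, 0)`,
`out c = (c.1 = true)`. `cov c h` = the block `z` such that `own q = some z` for some cell `q` with
`|q - P h| ≤ la`, if there is one; it is unique because two such cells are at distance `≤ 2 * la`.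
`loc`: after `i ≤ la` steps all heads are at distance `≤ i` of their start, so the scanned cells
depend only on covered blocks, hence the computations on `W x` and `W x'` agree. After `t / la + 1`
windows exactly `t` steps have been made, and the flag says that an accepting state was met within
`t` steps, i.e. `AcceptsIn M (W x) t` (a stuck computation stays unchanged; for a deterministic `M`
the configuration reached in `i` steps is unique if it exists). -/
def MACH_Stmt : Prop :=
  ∀ (α : Type) (k : ℕ) (M : FA α k), M.Det → ∀ (Z B : Type) (W : (Z → B) → List α) (n la t : ℕ)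
    (own : ℕ → Option Z), (∀ x, (W x).length = n) → 0 < la →
    (∀ q x x', (∀ z, own q = some z → x z = x' z) → tape (W x) q = tape (W x') q) →
    (∀ q q' z z', own q = some z → own q' = some z' → z ≠ z' →
      q + 2 * la < q' ∨ q' + 2 * la < q) →
    ∃ N : BM k Z B, (Fintype.card N.C : ℝ) ≤ 2 * (Nat.card M.Q : ℝ) * ((n : ℝ) + 2) ^ k ∧
      ∀ x, N.out (N.run x 0 N.c0 (t / la + 1)) ↔ AcceptsIn M (W x) t

/-- LEN. The lengths. Proof: `List.length_flatMap`, `Fin.sum_univ_eq_sum_range`/`List.sum_ofFn`, and
`∑ b < m, 2 ^ b = 2 ^ m - 1`; induction on the height. -/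
def LEN_Stmt : Prop :=
  ∀ (r m l ga : ℕ),
    (∀ (i : Fin r) (c : Blk m l), (blockW ga i c).length = blockLen m l ga) ∧
    (∀ D : Fin r → Idx m → Blk m l, (regionW ga D).length = regionLen r m l ga) ∧
    (∀ (x : List (Fin r) → Fin r → Idx m → Blk m l) (h : ℕ) (v : List (Fin r)),
      (treeW ga x h v).length = treeLen r m l ga h) ∧
    (∀ (x : List (Fin r) → Fin r → Idx m → Blk m l) (d n : ℕ), treeLen r m l ga d ≤ n →
      (wordW ga d n x).length = n)

/-- LAY. Every cell of the word depends on at most one block, and the cells of two different blocks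
have distance more than `ga`.
Proof. Work with templates: lists over `Lt r ⊕ (Zt r d m × Fin m × Fin l)` (a letter, or a data bit of a
block); `eval x` sends a template letter to a letter. Define templates for a block, a region, a tree
(recursively as in `treeW`; nodes `v` with `v.length + h = d`) and the word, so that
`wordW ga d n (ext x) = template.map (eval x)` for all `x`; `own (q + 1) = some z` if the entry
number `q` of the template is a data bit of `z`, else `none` (and `own 0 = none`). Say that a
template `T` is good if two data bits of different blocks have distance `> ga`, and that it has a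
lead if no data bit is among the first `ga + 1` entries. `A ++ B` is good if `A`, `B` are good and
`B` has a lead, and it has a lead if both have leads; a block template is good and has a lead (its
first `ga + 1` entries are `b i` and `fill`s); a template without data bits is good and has a lead. -/
def LAY_Stmt : Prop :=
  ∀ (r d m l ga n : ℕ), ∃ own : ℕ → Option (Zt r d m),
    (∀ q (x x' : Inp r d m l), (∀ z, own q = some z → x z = x' z) →
      tape (wordW ga d n (ext x)) q = tape (wordW ga d n (ext x')) q) ∧
    ∀ q q' z z', own q = some z → own q' = some z' → z ≠ z' → q + ga < q' ∨ q' + ga < q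

/-- INJ. The word determines the input. Proof: `treeW ga x d []` and `treeW ga x' d []` have the same
length (LEN) so they are equal (`List.append_inj`); by induction on the height `h`, equality of
`treeW ga x h v` and `treeW ga x' h v` gives, again by `List.append_inj` and the equal lengths of
corresponding pieces, equality of all regions in the subtree, hence of all blocks
`x u i (bitsOf m j)`, `j < 2 ^ m`, hence (every index is `bitsOf m (val a)`, DIG) of all `x u i a`, for
all `u` with suffix `v` and length `≤ v.length + h`. Every word `u` of length `≤ d` occurs. -/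
def INJ_Stmt : Prop :=
  ∀ (r d m l ga n : ℕ) (x x' : Inp r d m l),
    wordW ga d n (ext x) = wordW ga d n (ext x') → x = x'

/-- NODE. Proof: the number of words of length `j` over `Fin r` is `r ^ j`
(`card_vector`/`List.Vector`, or an injection of `Node r d` into
`Σ j : Fin (d + 1), (Fin j → Fin r)`), and `∑ j ≤ d, r ^ j ≤ r ^ (d + 1)` for `r ≥ 2`; for the
length: `treeLen r m l ga h ≤ (r ^ (h + 1) - 1) * (r + regionLen)` by induction on `h`. -/
def NODE_Stmt : Prop :=
  ∀ (r : ℕ), 2 ≤ r → (∀ d, Fintype.card (Node r d) ≤ r ^ (d + 1)) ∧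
    ∀ m l ga h, treeLen r m l ga h ≤ r ^ (h + 1) * (r + regionLen r m l ga)

/-! ### Part 3: parameters -/

/-- PAR. The choice of the parameters. All logarithms are natural. We may assume `e ≤ 1`
(`n ^ (2 - e)` is decreasing in `e`). Choose `p` with `1 / (p - 2) ≤ e / 16`, `p ≥ 3`, `r = p + 1`,
`κ = 1 / (p - 2)`, `μ = e / 16`, `γ = μ / (2 log r)`; for large `n`: `l = la = ⌊n ^ (1 - e / 4)⌋`,
`m = ⌊κ log n / log 2⌋` (so `n ^ κ / 2 ≤ 2 ^ m ≤ n ^ κ`), `d = ⌊γ log n⌋`; so
`r ^ (d + 1) ≤ r n ^ (μ / 2)`. Length: `treeLen ≤ r ^ (d+1) (r + regionLen)` (NODE) and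
`regionLen = 1 + r 2 ^ m (2 l + m (l + 1) + 2 ^ m) = n ^ (κ + 1 - e / 4 + o(1))`, total
`n ^ (1 - e / 8 + o(1)) ≤ n`. `T = t / la + 1 ≤ n ^ (1 - 3 e / 4 + o(1))`.
`k ≤ c log n` because `(n + 2) ^ k ≤ exp (c log² n)` and `Q ≥ 1`. So
`Gh ≤ n ^ (μ / 2 + 1 - 3 e / 4 + o(1))`, `(2 ^ m)⁻¹ ^ p ≤ 2 ^ p n ^ (- κ p) = 2 ^ p n ^ (-1 - 2 κ)`,
hence `Gh * (2 ^ m)⁻¹ ^ p ≤ n ^ (- e / 2)` for large `n`. `N ≤ 2 exp (c log² n)`,
`N ^ (T + 1) * bet p ^ l ≤ exp ((T + 1) (c log² n + 1) - l log (1 / bet p)) ≤ exp (- n ^ (1/2))` (if
`bet p = 0`, `p = 0` which is excluded; `0 < bet p < 1`), and multiplied by the other factors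
(`≤ exp (C log² n)`) it is still `≤ exp (- n ^ (1/2) / 2)`. The main term of the second line:
`(T + 1) N (Gh * (2 ^ m)⁻¹ ^ p) ^ d ≤ n * 2 exp (c log² n) * n ^ (- (e / 2) d) ≤
2 exp (log n + c log² n - (e / 2) (γ log n - 1) log n)`, small if `c < e γ / 4`. Total error
`≤ n ^ (-c)` for small `c`. -/
def PAR_Stmt : Prop :=
  ∀ e : ℝ, 0 < e → ∃ p : ℕ, 3 ≤ p ∧ ∃ c : ℝ, 0 < c ∧ ∀ᶠ n : ℕ in atTop, ∃ d m l la : ℕ,
    0 < m ∧ 0 < la ∧ treeLen (p + 1) m l (2 * la) d ≤ n ∧
    ∀ (k t : ℕ) (Q N : ℝ), 1 ≤ Q → Q * ((n : ℝ) + 2) ^ k ≤ Real.exp (c * (Real.log n) ^ 2) →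
      1 ≤ N → N ≤ 2 * Q * ((n : ℝ) + 2) ^ k → (t : ℝ) ≤ (n : ℝ) ^ (2 - e) →
      Err p k d m l (t / la + 1) N ≤ (n : ℝ) ^ (-c)

end Pool.Agent.NQ2
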