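import Mathlib
import Pool.Agent.NQ2.St

/-!
Project NQ2 (MP_5e85fc_lc), module PAR: the choice of the parameters.
-/

set_option autoImplicit false

namespace Pool.Agent.NQ2

namespace PARx

open Filter Asymptotics

/-- Powers are smaller than exponentials. -/
theorem G (k : ℕ) (C δ : ℝ) (hδ : 0 < δ) :
    ∀ᶠ x : ℝ in atTop, C * (1 + x) ^ k ≤ Real.exp (δ * x) := by
  have hpos : (0 : ℝ) < |C| * 2 ^ k + 1 := by positivity
  have h := (isLittleO_pow_exp_pos_mul_atTop (k := k) hδ).def (c := 1 / (|C| * 2 ^ k + 1))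
    (by positivity)
  filter_upwards [h, eventually_ge_atTop (1 : ℝ)] with x hx hx1
  have hx0 : (0 : ℝ) ≤ x := by linarith
  rw [Real.norm_of_nonneg (by positivity), Real.norm_of_nonneg (Real.exp_pos _).le] at hx
  have h1 : (1 + x) ^ k ≤ 2 ^ k * x ^ k := by
    rw [← mul_pow]
    exact pow_le_pow_left₀ (by linarith) (by linarith) k
  calc C * (1 + x) ^ k ≤ |C| * (1 + x) ^ k :=
        mul_le_mul_of_nonneg_right (le_abs_self C) (by positivity)
    _ ≤ |C| * (2 ^ k * x ^ k) := mul_le_mul_of_nonneg_left h1 (abs_nonneg _)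
    _ = (|C| * 2 ^ k) * x ^ k := by ring
    _ ≤ (|C| * 2 ^ k) * (1 / (|C| * 2 ^ k + 1) * Real.exp (δ * x)) :=
        mul_le_mul_of_nonneg_left hx (by positivity)
    _ = (|C| * 2 ^ k) / (|C| * 2 ^ k + 1) * Real.exp (δ * x) := by ring
    _ ≤ 1 * Real.exp (δ * x) := by
        apply mul_le_mul_of_nonneg_right _ (Real.exp_pos _).le
        rw [div_le_one hpos]
        linarith
    _ = Real.exp (δ * x) := one_mul _

theorem len (hNODE : NODE_Stmt) (e κ L : ℝ) (r m l d n : ℕ) (hr : 2 ≤ r) (he : 0 < e)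
    (he1 : e ≤ 1) (hκ0 : 0 < κ) (hκ : κ ≤ e / 16) (hL1 : 1 ≤ L) (hn : (n : ℝ) = Real.exp L)
    (hm1 : (m : ℝ) ≤ 2 * L) (hm2 : (2 : ℝ) ^ m ≤ Real.exp (κ * L))
    (hl : (l : ℝ) ≤ Real.exp ((1 - e / 4) * L)) (hd : (r : ℝ) ^ d ≤ Real.exp (e / 32 * L))
    (hG : 6 * (r : ℝ) ^ 2 * (1 + L) ^ 1 ≤ Real.exp (5 * e / 32 * L)) :
    treeLen r m l (2 * l) d ≤ n := by
  have h0 := (hNODE r hr).2 m l (2 * l) d
  have hrR : (2 : ℝ) ≤ r := by exact_mod_cast hr
  set X := Real.exp ((1 - e / 4) * L) with hX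
  have hX1 : 1 ≤ X := by
    rw [hX]
    apply Real.one_le_exp
    have : 0 < 1 - e / 4 := by linarith
    positivity
  have hK1 : 1 ≤ Real.exp (κ * L) := by
    apply Real.one_le_exp
    positivity
  have hKX : Real.exp (κ * L) ≤ X := by
    rw [hX]
    apply Real.exp_le_exp.2
    apply mul_le_mul_of_nonneg_right _ (by linarith)
    linarith
  have hb : ((blockLen m l (2 * l) : ℕ) : ℝ) ≤ 4 * (1 + L) * X := by
    unfold blockLen
    push_cast
    have h1 : (m : ℝ) * (l + 1) ≤ 2 * L * (2 * X) := by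
      apply mul_le_mul hm1 (by linarith) (by positivity) (by positivity)
    nlinarith
  have hbn : (0 : ℝ) ≤ ((blockLen m l (2 * l) : ℕ) : ℝ) := Nat.cast_nonneg _
  have hreg : (r : ℝ) + ((regionLen r m l (2 * l) : ℕ) : ℝ) ≤
      6 * r * (1 + L) * (Real.exp (κ * L) * X) := by
    unfold regionLen
    push_cast
    have h1 : (2 : ℝ) ^ m * ((blockLen m l (2 * l) : ℕ) : ℝ) ≤
        Real.exp (κ * L) * (4 * (1 + L) * X) := by
      apply mul_le_mul hm2 hb hbn (by positivity)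
    have h2 : (r : ℝ) * ((2 : ℝ) ^ m * ((blockLen m l (2 * l) : ℕ) : ℝ)) ≤
        r * (Real.exp (κ * L) * (4 * (1 + L) * X)) := mul_le_mul_of_nonneg_left h1 (by linarith)
    have h3 : 1 ≤ (1 + L) * (Real.exp (κ * L) * X) := by
      have : 1 ≤ Real.exp (κ * L) * X := one_le_mul_of_one_le_of_one_le hK1 hX1
      nlinarith
    have h4 : (r : ℝ) + 1 ≤ 2 * r * ((1 + L) * (Real.exp (κ * L) * X)) := by nlinarith
    nlinarith
  have htot : ((treeLen r m l (2 * l) d : ℕ) : ℝ) ≤ n := by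
    calc ((treeLen r m l (2 * l) d : ℕ) : ℝ)
        ≤ ((r ^ (d + 1) * (r + regionLen r m l (2 * l)) : ℕ) : ℝ) := by exact_mod_cast h0
      _ = (r : ℝ) * (r : ℝ) ^ d * ((r : ℝ) + ((regionLen r m l (2 * l) : ℕ) : ℝ)) := by
          push_cast
          ring
      _ ≤ (r : ℝ) * Real.exp (e / 32 * L) * (6 * r * (1 + L) * (Real.exp (κ * L) * X)) := by
          apply mul_le_mul _ hreg (by positivity) (by positivity)
          exact mul_le_mul_of_nonneg_left hd (by linarith)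
      _ = (6 * (r : ℝ) ^ 2 * (1 + L) ^ 1) * (Real.exp (e / 32 * L) * (Real.exp (κ * L) * X)) := by
          ring
      _ ≤ Real.exp (5 * e / 32 * L) * (Real.exp (e / 32 * L) * (Real.exp (κ * L) * X)) :=
          mul_le_mul_of_nonneg_right hG (by positivity)
      _ = Real.exp (5 * e / 32 * L + (e / 32 * L + (κ * L + (1 - e / 4) * L))) := by
          rw [hX, Real.exp_add, Real.exp_add, Real.exp_add]
      _ ≤ Real.exp L := by
          apply Real.exp_le_exp.2
          have h1 : κ * L ≤ e / 16 * L := mul_le_mul_of_nonneg_right hκ (by linarith)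
          linarith
      _ = n := hn.symm
  exact_mod_cast htot

theorem err (e κ γ β L c : ℝ) (p k d m l T : ℕ) (N : ℝ) (he : 0 < e) (he1 : e ≤ 1)
    (hκ0 : 0 < κ) (hκ1 : κ ≤ 1) (hκp : κ * p = 1 + 2 * κ) (_hγ0 : 0 < γ) (hγ1 : γ ≤ 1) (hβ : 0 < β)
    (hL1 : 1 ≤ L) (hc0 : 0 < c) (hc1 : c ≤ 1) (hc2 : c ≤ e / 4) (hc3 : c ≤ e * γ / 4)
    (hcard : (Fintype.card (Node (p + 1) d) : ℝ) ≤ (p + 1) * Real.exp (e / 32 * L))
    (hT : (T : ℝ) + 1 ≤ 4 * Real.exp ((1 - 3 * e / 4) * L))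
    (hk : (k : ℝ) ≤ L) (hA : ((2 : ℝ) ^ m)⁻¹ ≤ 2 * Real.exp (-(κ * L)))
    (hm2 : (2 : ℝ) ^ m ≤ Real.exp (κ * L)) (hN1 : 1 ≤ N) (hN : N ≤ 2 * Real.exp (c * L ^ 2))
    (hl : Real.exp ((1 - e / 4) * L) / 2 ≤ l) (hbet : Poly.bet p ≤ Real.exp (-β))
    (hd1 : (d : ℝ) ≤ γ * L) (hd2 : γ * L - 1 ≤ d)
    (G1 : 4 * ((p : ℝ) + 1) ^ 2 * 2 ^ p * (1 + L) ^ (p + 1) ≤ Real.exp (7 / 32 * e * L))
    (G2 : 16 / β * (1 + L) ^ 2 ≤ Real.exp (e / 2 * L))
    (G3 : 4 / β * (1 + L) ^ 0 ≤ Real.exp (1 / 4 * L))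
    (G4 : ((p : ℝ) + 20) * (1 + L) ^ 2 ≤ Real.exp (1 / 2 * L))
    (G5 : 5 * (1 + L) ^ 0 ≤ Real.exp (e / 4 * L))
    (G6 : 8 ≤ e * γ / 4 * L) :
    Err p k d m l T N ≤ Real.exp (-(c * L)) := by
  have hp0 : (0 : ℝ) ≤ p := Nat.cast_nonneg _
  have hd0 : (0 : ℝ) ≤ d := Nat.cast_nonneg _
  have hk0 : (0 : ℝ) ≤ k := Nat.cast_nonneg _
  have hT0 : (0 : ℝ) ≤ (T : ℝ) + 1 := by positivity
  have hb0 : 0 ≤ Poly.bet p := Poly.bet_nonneg p
  set a := Real.exp ((1 - 3 * e / 4) * L) with ha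
  have ha0 : 0 < a := Real.exp_pos _
  set A := ((2 : ℝ) ^ m)⁻¹ with hAdef
  have hA0 : 0 ≤ A := by positivity
  set E2 := N ^ (T + 1) * Poly.bet p ^ l with hE2def
  have hE20 : 0 ≤ E2 := by positivity
  have h2e : (2 : ℝ) ≤ Real.exp 1 := by
    have := Real.add_one_le_exp (1 : ℝ)
    linarith
  have h4e : (4 : ℝ) ≤ Real.exp 2 := by
    have : Real.exp 2 = Real.exp 1 * Real.exp 1 := by rw [← Real.exp_add]; norm_num
    rw [this]
    calc (4 : ℝ) = 2 * 2 := by norm_num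
      _ ≤ _ := mul_le_mul h2e h2e (by norm_num) (Real.exp_pos _).le
  have h5e : (5 : ℝ) ≤ Real.exp 2 := by
    have h1 : Real.exp 2 = Real.exp 1 * Real.exp 1 := by rw [← Real.exp_add]; norm_num
    have h2 := Real.exp_one_gt_d9
    rw [h1]
    calc (5 : ℝ) ≤ 2.7 * 2.7 := by norm_num
      _ ≤ _ := mul_le_mul (by linarith) (by linarith) (by norm_num) (Real.exp_pos _).le
  have h8e : (8 : ℝ) ≤ Real.exp 3 := by
    have : Real.exp 3 = Real.exp 1 * Real.exp 2 := by rw [← Real.exp_add]; norm_num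
    rw [this]
    calc (8 : ℝ) = 2 * 4 := by norm_num
      _ ≤ _ := mul_le_mul h2e h4e (by norm_num) (Real.exp_pos _).le
  have hL0 : 0 ≤ L := by linarith
  have hL20 : 0 ≤ L ^ 2 := sq_nonneg L
  have heL : e * L ≤ L := mul_le_of_le_one_left hL0 he1
  have heL0 : 0 ≤ e * L := mul_nonneg he.le hL0
  have hκL : κ * L ≤ L := mul_le_of_le_one_left hL0 hκ1
  have hκL0 : 0 ≤ κ * L := mul_nonneg hκ0.le hL0
  have hγL : γ * L ≤ L := mul_le_of_le_one_left hL0 hγ1
  have hcL : c * L ≤ L := mul_le_of_le_one_left hL0 hc1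
  have hcL2 : c * L ^ 2 ≤ L ^ 2 := mul_le_of_le_one_left hL20 hc1
  have hceL : c * L ≤ e / 4 * L := mul_le_mul_of_nonneg_right hc2 hL0
  have hNe : N ≤ Real.exp (1 + L ^ 2) := by
    refine hN.trans ?_
    rw [Real.exp_add]
    apply mul_le_mul h2e _ (Real.exp_pos _).le (Real.exp_pos _).le
    exact Real.exp_le_exp.2 hcL2
  have hN0 : 0 ≤ N := by linarith
  -- the exponentially small term
  have hE2 : E2 ≤ Real.exp (-(((p : ℝ) + 20) * (1 + L) ^ 2)) := by
    have h1 : N ^ (T + 1) ≤ Real.exp (4 * a * (1 + L ^ 2)) := by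
      calc N ^ (T + 1) ≤ (Real.exp (1 + L ^ 2)) ^ (T + 1) := pow_le_pow_left₀ hN0 hNe _
        _ = Real.exp (((T + 1 : ℕ) : ℝ) * (1 + L ^ 2)) := by rw [Real.exp_nat_mul]
        _ ≤ Real.exp (4 * a * (1 + L ^ 2)) := by
            apply Real.exp_le_exp.2
            apply mul_le_mul_of_nonneg_right _ (by positivity)
            push_cast
            exact hT
    have h2 : Poly.bet p ^ l ≤ Real.exp (-(β * (Real.exp ((1 - e / 4) * L) / 2))) := by
      calc Poly.bet p ^ l ≤ (Real.exp (-β)) ^ l := pow_le_pow_left₀ hb0 hbet _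
        _ = Real.exp ((l : ℝ) * (-β)) := by rw [Real.exp_nat_mul]
        _ ≤ _ := by
            apply Real.exp_le_exp.2
            have := mul_le_mul_of_nonneg_left hl hβ.le
            linarith
    have h3 : Real.exp ((1 - e / 4) * L) = a * Real.exp (e / 2 * L) := by
      rw [ha, ← Real.exp_add]
      congr 1
      ring
    have h4 : 4 * a * (1 + L ^ 2) ≤ β / 4 * Real.exp ((1 - e / 4) * L) := by
      have h5 : 4 * (1 + L) ^ 2 ≤ β / 4 * Real.exp (e / 2 * L) := by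
        have h6 := mul_le_mul_of_nonneg_left G2 (by positivity : 0 ≤ β / 4)
        calc 4 * (1 + L) ^ 2 = β / 4 * (16 / β * (1 + L) ^ 2) := by field_simp; ring
          _ ≤ _ := h6
      rw [h3]
      have h7 : 4 * (1 + L ^ 2) ≤ β / 4 * Real.exp (e / 2 * L) := by
        have h9 : (1 + L) ^ 2 = 1 + 2 * L + L ^ 2 := by ring
        linarith
      have h8 := mul_le_mul_of_nonneg_left h7 ha0.le
      linarith
    have h5 : Real.exp (1 / 2 * L) ≤ β / 4 * Real.exp ((1 - e / 4) * L) := by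
      have h6 : 4 / β ≤ Real.exp (1 / 4 * L) := by simpa using G3
      have h7 : 1 ≤ β / 4 * Real.exp (1 / 4 * L) := by
        have h8 := mul_le_mul_of_nonneg_left h6 (by positivity : 0 ≤ β / 4)
        calc (1 : ℝ) = β / 4 * (4 / β) := by field_simp
          _ ≤ _ := h8
      calc Real.exp (1 / 2 * L) ≤ Real.exp (1 / 2 * L) * (β / 4 * Real.exp (1 / 4 * L)) :=
            le_mul_of_one_le_right (Real.exp_pos _).le h7
        _ = β / 4 * Real.exp (1 / 2 * L + 1 / 4 * L) := by rw [Real.exp_add]; ring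
        _ ≤ β / 4 * Real.exp ((1 - e / 4) * L) := by
            apply mul_le_mul_of_nonneg_left _ (by positivity)
            apply Real.exp_le_exp.2
            linarith
    calc E2 ≤ Real.exp (4 * a * (1 + L ^ 2)) *
          Real.exp (-(β * (Real.exp ((1 - e / 4) * L) / 2))) :=
          mul_le_mul h1 h2 (by positivity) (Real.exp_pos _).le
      _ = Real.exp (4 * a * (1 + L ^ 2) + -(β * (Real.exp ((1 - e / 4) * L) / 2))) :=
          (Real.exp_add _ _).symm
      _ ≤ _ := by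
          apply Real.exp_le_exp.2
          linarith
  -- the number of hints
  have hGdef : Gh p k d T = (Fintype.card (Node (p + 1) d) : ℝ) * (p + 1) * (T + 1) *
      (k : ℝ) ^ (p + 1) := rfl
  set Gv := Gh p k d T with hGv
  have hG0 : 0 ≤ Gv := by rw [hGdef]; positivity
  have hG2 : Gv * 2 ^ p ≤ Real.exp ((1 - e / 2) * L) := by
    have h1 : (k : ℝ) ^ (p + 1) ≤ (1 + L) ^ (p + 1) := pow_le_pow_left₀ hk0 (by linarith) _
    calc Gv * 2 ^ p ≤ (((p : ℝ) + 1) * Real.exp (e / 32 * L) * (p + 1) * (4 * a) *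
          (1 + L) ^ (p + 1)) * 2 ^ p := by
          apply mul_le_mul_of_nonneg_right _ (by positivity)
          rw [hGdef]
          apply mul_le_mul _ h1 (by positivity) (by positivity)
          apply mul_le_mul _ hT (by positivity) (by positivity)
          exact mul_le_mul_of_nonneg_right hcard (by positivity)
      _ = (4 * ((p : ℝ) + 1) ^ 2 * 2 ^ p * (1 + L) ^ (p + 1)) * (Real.exp (e / 32 * L) * a) := by
          ring
      _ ≤ Real.exp (7 / 32 * e * L) * (Real.exp (e / 32 * L) * a) :=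
          mul_le_mul_of_nonneg_right G1 (by positivity)
      _ = Real.exp ((1 - e / 2) * L) := by
          rw [ha, ← Real.exp_add, ← Real.exp_add]
          congr 1
          ring
  have hGL : Gv ≤ Real.exp L := by
    have h1 : Gv ≤ Gv * 2 ^ p := le_mul_of_one_le_right hG0 (one_le_pow₀ (by norm_num))
    refine h1.trans (hG2.trans (Real.exp_le_exp.2 ?_))
    linarith
  have hGA : Gv * A ^ p ≤ Real.exp (-(e / 2 * L)) := by
    calc Gv * A ^ p ≤ Gv * (2 * Real.exp (-(κ * L))) ^ p :=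
          mul_le_mul_of_nonneg_left (pow_le_pow_left₀ hA0 hA p) hG0
      _ = (Gv * 2 ^ p) * Real.exp ((p : ℝ) * (-(κ * L))) := by
          rw [mul_pow, ← Real.exp_nat_mul, mul_assoc]
      _ ≤ Real.exp ((1 - e / 2) * L) * Real.exp ((p : ℝ) * (-(κ * L))) :=
          mul_le_mul_of_nonneg_right hG2 (Real.exp_pos _).le
      _ = Real.exp ((1 - e / 2) * L + (p : ℝ) * (-(κ * L))) := (Real.exp_add _ _).symm
      _ ≤ Real.exp (-(e / 2 * L)) := by
          apply Real.exp_le_exp.2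
          have h1 : (p : ℝ) * (-(κ * L)) = -((κ * p) * L) := by ring
          rw [h1, hκp]
          linarith
  have hGA0 : 0 ≤ Gv * A ^ p := by positivity
  have haL : a ≤ Real.exp L := by
    rw [ha]
    apply Real.exp_le_exp.2
    linarith
  have hT2 : (T : ℝ) + 1 ≤ Real.exp (2 + L) := by
    rw [Real.exp_add]
    refine hT.trans ?_
    exact mul_le_mul h4e haL ha0.le (Real.exp_pos _).le
  have hpe : (p : ℝ) ≤ Real.exp p := by
    have := Real.add_one_le_exp (p : ℝ)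
    linarith
  have hdL : (d : ℝ) ≤ L := by linarith
  have hde : (d : ℝ) ≤ Real.exp L := by
    have := Real.add_one_le_exp L
    linarith
  -- the target
  have key : ∀ x y : ℝ, x ≤ Real.exp y → 2 + y ≤ -(c * L) → x ≤ Real.exp (-(c * L)) / 5 := by
    intro x y h1 h2
    rw [le_div_iff₀ (by norm_num)]
    calc x * 5 ≤ Real.exp y * Real.exp 2 := mul_le_mul h1 h5e (by norm_num) (Real.exp_pos _).le
      _ = Real.exp (y + 2) := (Real.exp_add _ _).symm
      _ ≤ _ := Real.exp_le_exp.2 (by linarith)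
  set W := ((p : ℝ) + 20) * (1 + L) ^ 2 with hW
  have hW1 : (p : ℝ) + 20 + 20 * L + 20 * L ^ 2 ≤ W := by
    have h1 : W = (p : ℝ) + 20 + 40 * L + 20 * L ^ 2 + (2 * (p * L) + p * L ^ 2) := by
      rw [hW]
      ring
    have h2 : 0 ≤ (p : ℝ) * L := mul_nonneg hp0 hL0
    have h3 : 0 ≤ (p : ℝ) * L ^ 2 := mul_nonneg hp0 hL20
    linarith
  have e1 : Gv * A ^ p ≤ Real.exp (-(c * L)) / 5 := by
    rw [le_div_iff₀ (by norm_num)]
    have h5 : (5 : ℝ) ≤ Real.exp (e / 4 * L) := by simpa using G5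
    calc Gv * A ^ p * 5 ≤ Real.exp (-(e / 2 * L)) * Real.exp (e / 4 * L) :=
          mul_le_mul hGA h5 (by norm_num) (Real.exp_pos _).le
      _ = Real.exp (-(e / 2 * L) + e / 4 * L) := (Real.exp_add _ _).symm
      _ ≤ _ := by
          apply Real.exp_le_exp.2
          linarith
  have e2 : p * Gv * E2 ≤ Real.exp (-(c * L)) / 5 := by
    apply key _ (p + L + -W)
    · rw [Real.exp_add, Real.exp_add]
      apply mul_le_mul _ hE2 hE20 (by positivity)
      exact mul_le_mul hpe hGL hG0 (Real.exp_pos _).le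
    · linarith
  have e3 : ((T : ℝ) + 1) * N * (Gv * A ^ p) ^ d ≤ Real.exp (-(c * L)) / 5 := by
    have h1 : (Gv * A ^ p) ^ d ≤ Real.exp ((d : ℝ) * (-(e / 2 * L))) := by
      rw [Real.exp_nat_mul]
      exact pow_le_pow_left₀ hGA0 hGA d
    have h2 : ((T : ℝ) + 1) * N ≤ Real.exp (3 + L + c * L ^ 2) := by
      rw [Real.exp_add, Real.exp_add]
      calc ((T : ℝ) + 1) * N ≤ (4 * a) * (2 * Real.exp (c * L ^ 2)) :=
            mul_le_mul hT hN hN0 (by positivity)
        _ = 8 * a * Real.exp (c * L ^ 2) := by ring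
        _ ≤ _ := by
            apply mul_le_mul_of_nonneg_right _ (Real.exp_pos _).le
            exact mul_le_mul h8e haL ha0.le (Real.exp_pos _).le
    apply key _ (3 + L + c * L ^ 2 + (d : ℝ) * (-(e / 2 * L)))
    · rw [Real.exp_add (3 + L + c * L ^ 2)]
      exact mul_le_mul h2 h1 (by positivity) (Real.exp_pos _).le
    · have h3 : (γ * L - 1) * (e / 2 * L) ≤ d * (e / 2 * L) :=
        mul_le_mul_of_nonneg_right hd2 (by positivity)
      have h4 : c * L ^ 2 ≤ e * γ / 4 * L ^ 2 := mul_le_mul_of_nonneg_right hc3 (sq_nonneg _)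
      have h5 : 8 * L ≤ e * γ / 4 * L * L := mul_le_mul_of_nonneg_right G6 (by linarith)
      linarith
  have e4 : ((T : ℝ) + 1) * N * Gv ^ d * p * d * E2 ≤ Real.exp (-(c * L)) / 5 := by
    have h1 : Gv ^ d ≤ Real.exp (L ^ 2) := by
      calc Gv ^ d ≤ (Real.exp L) ^ d := pow_le_pow_left₀ hG0 hGL d
        _ = Real.exp ((d : ℝ) * L) := by rw [Real.exp_nat_mul]
        _ ≤ _ := by
            apply Real.exp_le_exp.2
            calc (d : ℝ) * L ≤ L * L := mul_le_mul_of_nonneg_right hdL hL0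
              _ = L ^ 2 := by ring
    apply key _ (2 + L + (1 + L ^ 2) + L ^ 2 + p + L + -W)
    · rw [Real.exp_add _ (-W), Real.exp_add _ L, Real.exp_add _ (p : ℝ), Real.exp_add _ (L ^ 2),
        Real.exp_add _ (1 + L ^ 2)]
      apply mul_le_mul _ hE2 hE20 (by positivity)
      apply mul_le_mul _ hde hd0 (by positivity)
      apply mul_le_mul _ hpe hp0 (by positivity)
      apply mul_le_mul _ h1 (by positivity) (by positivity)
      exact mul_le_mul hT2 hNe hN0 (by positivity)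
    · linarith
  have e5 : 2 ^ m * E2 ≤ Real.exp (-(c * L)) / 5 := by
    apply key _ (κ * L + -W)
    · rw [Real.exp_add]
      exact mul_le_mul hm2 hE2 hE20 (Real.exp_pos _).le
    · linarith
  have heq : Err p k d m l T N = Gv * A ^ p + p * Gv * E2 + ((T : ℝ) + 1) * N * (Gv * A ^ p) ^ d +
      ((T : ℝ) + 1) * N * Gv ^ d * p * d * E2 + 2 ^ m * E2 := by
    unfold Err
    rw [← hGv, ← hAdef, hE2def, pow_mul A p d, mul_pow]
    ring
  rw [heq]
  linarith

end PARx

open Filter in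
theorem t_PAR (hNODE : NODE_Stmt) : PAR_Stmt := by
  intro e0 he0
  obtain ⟨e, hedef⟩ : ∃ e, e = min e0 1 := ⟨_, rfl⟩
  have he : 0 < e := by rw [hedef]; exact lt_min he0 one_pos
  have he1 : e ≤ 1 := by rw [hedef]; exact min_le_right _ _
  have hee : e ≤ e0 := by rw [hedef]; exact min_le_left _ _
  obtain ⟨p, hp⟩ := exists_nat_ge (16 / e + 3)
  have h16 : 0 < 16 / e := by positivity
  have hp3R : (3 : ℝ) ≤ p := by linarith
  have hp3 : 3 ≤ p := by exact_mod_cast hp3R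
  obtain ⟨κ, hκdef⟩ : ∃ κ : ℝ, κ = 1 / (p - 2) := ⟨_, rfl⟩
  have hp2 : (0 : ℝ) < p - 2 := by linarith
  have hκ0 : 0 < κ := by rw [hκdef]; positivity
  have hκ : κ ≤ e / 16 := by
    rw [hκdef, div_le_iff₀ hp2]
    have h1 : 16 / e ≤ (p : ℝ) - 2 := by linarith
    calc (1 : ℝ) = e / 16 * (16 / e) := by field_simp
      _ ≤ e / 16 * (p - 2) := mul_le_mul_of_nonneg_left h1 (by positivity)
  have hκ1 : κ ≤ 1 := by linarith
  have hκp : κ * p = 1 + 2 * κ := by
    rw [hκdef]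
    field_simp
    ring
  have hr4 : (4 : ℝ) ≤ (p : ℝ) + 1 := by linarith
  obtain ⟨lr, hlr⟩ : ∃ lr : ℝ, lr = Real.log ((p : ℝ) + 1) := ⟨_, rfl⟩
  have hlr1 : 1 ≤ lr := by
    rw [hlr, Real.le_log_iff_exp_le (by linarith)]
    have := Real.exp_one_lt_d9
    linarith
  obtain ⟨γ, hγdef⟩ : ∃ γ : ℝ, γ = e / (32 * lr) := ⟨_, rfl⟩
  have hγ0 : 0 < γ := by rw [hγdef]; positivity
  have hγ1 : γ ≤ 1 := by
    rw [hγdef, div_le_one (by positivity)]
    linarith
  have hγr : γ * lr = e / 32 := by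
    rw [hγdef]
    field_simp
  obtain ⟨β, hβdef⟩ : ∃ β : ℝ, β = 1 - Poly.bet p := ⟨_, rfl⟩
  have hβ : 0 < β := by
    have := Poly.bet_lt_one p
    linarith
  have hbet : Poly.bet p ≤ Real.exp (-β) := by
    have := Real.add_one_le_exp (-β)
    linarith
  obtain ⟨c, hcdef⟩ : ∃ c : ℝ, c = min 1 (min (e / 4) (e * γ / 4)) := ⟨_, rfl⟩
  have hc0 : 0 < c := by
    rw [hcdef]
    exact lt_min one_pos (lt_min (by positivity) (by positivity))
  have hc1 : c ≤ 1 := by rw [hcdef]; exact min_le_left _ _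
  have hc2 : c ≤ e / 4 := by rw [hcdef]; exact (min_le_right _ _).trans (min_le_left _ _)
  have hc3 : c ≤ e * γ / 4 := by rw [hcdef]; exact (min_le_right _ _).trans (min_le_right _ _)
  refine ⟨p, hp3, c, hc0, ?_⟩
  have hL : Tendsto (fun n : ℕ => Real.log (n : ℝ)) atTop atTop :=
    Real.tendsto_log_atTop.comp tendsto_natCast_atTop_atTop
  have hl2 : (0 : ℝ) < Real.log 2 := Real.log_pos (by norm_num)
  have hl2' : (1 : ℝ) / 2 ≤ Real.log 2 := by
    have := Real.log_two_gt_d9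
    linarith
  filter_upwards [hL.eventually (PARx.G 1 (6 * ((p : ℝ) + 1) ^ 2) (5 * e / 32) (by positivity)),
    hL.eventually (PARx.G (p + 1) (4 * ((p : ℝ) + 1) ^ 2 * 2 ^ p) (7 / 32 * e) (by positivity)),
    hL.eventually (PARx.G 2 (16 / β) (e / 2) (by positivity)),
    hL.eventually (PARx.G 0 (4 / β) (1 / 4) (by positivity)),
    hL.eventually (PARx.G 2 ((p : ℝ) + 20) (1 / 2) (by positivity)),
    hL.eventually (PARx.G 0 5 (e / 4) (by positivity)),
    hL.eventually (eventually_ge_atTop (8 / (e * γ / 4))),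
    hL.eventually (eventually_ge_atTop (1 / κ)),
    hL.eventually (eventually_ge_atTop (4 : ℝ)),
    eventually_ge_atTop 2] with n g0 g1 g2 g3 g4 g5 g6 g7 g8 hn2
  obtain ⟨L, hLdef⟩ : ∃ L : ℝ, L = Real.log (n : ℝ) := ⟨_, rfl⟩
  rw [← hLdef] at g0 g1 g2 g3 g4 g5 g6 g7 g8
  have hL1 : 1 ≤ L := by linarith
  have hL0 : 0 ≤ L := by linarith
  have heL : e * L ≤ L := mul_le_of_le_one_left hL0 he1
  have hκL : κ * L ≤ L := mul_le_of_le_one_left hL0 hκ1
  have hn0 : (0 : ℝ) < n := by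
    have : 0 < n := by omega
    exact_mod_cast this
  have hnL : (n : ℝ) = Real.exp L := by rw [hLdef, Real.exp_log hn0]
  have hpow : ∀ x : ℝ, (n : ℝ) ^ x = Real.exp (x * L) := by
    intro x
    rw [Real.rpow_def_of_pos hn0, ← hLdef, mul_comm]
  -- the parameters
  obtain ⟨m, hm⟩ : ∃ m : ℕ, m = ⌊κ * L / Real.log 2⌋₊ := ⟨_, rfl⟩
  obtain ⟨l, hl⟩ : ∃ l : ℕ, l = ⌊Real.exp ((1 - e / 4) * L)⌋₊ := ⟨_, rfl⟩
  obtain ⟨d, hd⟩ : ∃ d : ℕ, d = ⌊γ * L⌋₊ := ⟨_, rfl⟩
  have hmle : (m : ℝ) ≤ κ * L / Real.log 2 := by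
    rw [hm]
    exact Nat.floor_le (by positivity)
  have hmlt : κ * L / Real.log 2 < m + 1 := by
    rw [hm]
    exact Nat.lt_floor_add_one _
  have h2m : ∀ j : ℕ, (2 : ℝ) ^ j = Real.exp (j * Real.log 2) := by
    intro j
    rw [Real.exp_nat_mul, Real.exp_log (by norm_num)]
  have hm2 : (2 : ℝ) ^ m ≤ Real.exp (κ * L) := by
    rw [h2m]
    apply Real.exp_le_exp.2
    rwa [le_div_iff₀ hl2] at hmle
  have hm3 : Real.exp (κ * L) ≤ 2 * (2 : ℝ) ^ m := by
    have h1 : 2 * (2 : ℝ) ^ m = 2 ^ (m + 1) := by ring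
    rw [h1, h2m]
    apply Real.exp_le_exp.2
    rw [div_lt_iff₀ hl2] at hmlt
    push_cast
    exact hmlt.le
  have hA : ((2 : ℝ) ^ m)⁻¹ ≤ 2 * Real.exp (-(κ * L)) := by
    rw [Real.exp_neg, inv_le_comm₀ (by positivity) (by positivity), mul_inv, inv_inv]
    linarith
  have hm0 : 0 < m := by
    rw [hm, Nat.floor_pos, le_div_iff₀ hl2]
    have h1 : 1 ≤ κ * L := by
      rw [div_le_iff₀ hκ0] at g7
      linarith
    have := Real.log_two_lt_d9
    linarith
  have hm1 : (m : ℝ) ≤ 2 * L := by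
    refine hmle.trans ?_
    rw [div_le_iff₀ hl2]
    have h1 : L * (1 / 2) ≤ L * Real.log 2 := mul_le_mul_of_nonneg_left hl2' hL0
    linarith
  obtain ⟨X, hX⟩ : ∃ X : ℝ, X = Real.exp ((1 - e / 4) * L) := ⟨_, rfl⟩
  have hX2 : 2 ≤ X := by
    rw [hX]
    have h1 := Real.add_one_le_exp ((1 - e / 4) * L)
    linarith
  have hlle : (l : ℝ) ≤ X := by
    rw [hl, hX]
    exact Nat.floor_le (Real.exp_pos _).le
  have hlge : X / 2 ≤ l := by
    have h1 : X < l + 1 := by
      rw [hl, hX]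
      exact Nat.lt_floor_add_one _
    linarith
  have hl0 : (0 : ℝ) < l := by linarith
  have hl0' : 0 < l := by exact_mod_cast hl0
  have hd1 : (d : ℝ) ≤ γ * L := by
    rw [hd]
    exact Nat.floor_le (by positivity)
  have hd2 : γ * L - 1 ≤ d := by
    have h1 : γ * L < d + 1 := by
      rw [hd]
      exact Nat.lt_floor_add_one _
    linarith
  have hrd : ((p + 1 : ℕ) : ℝ) ^ d ≤ Real.exp (e / 32 * L) := by
    have h1 : ((p + 1 : ℕ) : ℝ) = Real.exp lr := by
      rw [hlr, Real.exp_log (by linarith)]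
      push_cast
      rfl
    rw [h1, ← Real.exp_nat_mul]
    apply Real.exp_le_exp.2
    calc (d : ℝ) * lr ≤ γ * L * lr := mul_le_mul_of_nonneg_right hd1 (by linarith)
      _ = e / 32 * L := by rw [← hγr]; ring
  refine ⟨d, m, l, l, hm0, hl0', ?_, ?_⟩
  · refine PARx.len hNODE e κ L (p + 1) m l d n (by omega) he he1 hκ0 hκ hL1 hnL hm1 hm2
      (hX ▸ hlle) hrd ?_
    push_cast
    exact g0
  · intro k t Q N hQ1 hQ hN1 hN ht
    rw [hpow]
    have hn2R : L ≤ Real.log ((n : ℝ) + 2) := by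
      rw [hLdef]
      exact Real.log_le_log hn0 (by linarith)
    have hpk : (0 : ℝ) < ((n : ℝ) + 2) ^ k := by positivity
    rw [← hLdef] at hQ
    have hk : (k : ℝ) ≤ L := by
      have h1 : ((n : ℝ) + 2) ^ k ≤ Real.exp (c * L ^ 2) :=
        (le_mul_of_one_le_left hpk.le hQ1).trans hQ
      have h2 : (k : ℝ) * Real.log ((n : ℝ) + 2) ≤ c * L ^ 2 := by
        rw [← Real.log_pow]
        exact (Real.log_le_iff_le_exp hpk).2 h1
      have h3 : (k : ℝ) * L ≤ k * Real.log ((n : ℝ) + 2) :=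
        mul_le_mul_of_nonneg_left hn2R (Nat.cast_nonneg _)
      have h4 : (k : ℝ) * L ≤ L * L := by
        have h5 : c * L ^ 2 ≤ L ^ 2 := mul_le_of_le_one_left (sq_nonneg L) hc1
        have h6 : L * L = L ^ 2 := by ring
        linarith
      exact le_of_mul_le_mul_right h4 (by linarith)
    have hN2 : N ≤ 2 * Real.exp (c * L ^ 2) := by
      refine hN.trans ?_
      rw [mul_assoc]
      exact mul_le_mul_of_nonneg_left hQ (by norm_num)
    have hcard : (Fintype.card (Node (p + 1) d) : ℝ) ≤ (p + 1) * Real.exp (e / 32 * L) := by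
      have h1 := (hNODE (p + 1) (by omega)).1 d
      calc (Fintype.card (Node (p + 1) d) : ℝ) ≤ (((p + 1) ^ (d + 1) : ℕ) : ℝ) := by
            exact_mod_cast h1
        _ = (p + 1) * ((p + 1 : ℕ) : ℝ) ^ d := by push_cast; ring
        _ ≤ _ := mul_le_mul_of_nonneg_left hrd (by positivity)
    have hT : ((t / l + 1 : ℕ) : ℝ) + 1 ≤ 4 * Real.exp ((1 - 3 * e / 4) * L) := by
      have h1 : ((t / l : ℕ) : ℝ) ≤ (t : ℝ) / l := Nat.cast_div_le
      have h2 : (t : ℝ) ≤ Real.exp ((2 - e) * L) := by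
        refine ht.trans ?_
        rw [hpow]
        exact Real.exp_le_exp.2 (mul_le_mul_of_nonneg_right (by linarith) hL0)
      have h3 : (t : ℝ) / l ≤ 2 * Real.exp ((1 - 3 * e / 4) * L) := by
        rw [div_le_iff₀ hl0]
        calc (t : ℝ) ≤ Real.exp ((2 - e) * L) := h2
          _ = 2 * Real.exp ((1 - 3 * e / 4) * L) * (X / 2) := by
              have : Real.exp ((2 - e) * L) = Real.exp ((1 - 3 * e / 4) * L) * X := by
                rw [hX, ← Real.exp_add]
                congr 1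
                ring
              rw [this]
              ring
          _ ≤ 2 * Real.exp ((1 - 3 * e / 4) * L) * l :=
              mul_le_mul_of_nonneg_left hlge (by positivity)
      have h4 : 1 ≤ Real.exp ((1 - 3 * e / 4) * L) := by
        apply Real.one_le_exp
        have : 0 < 1 - 3 * e / 4 := by linarith
        positivity
      push_cast
      linarith
    have g6' : 8 ≤ e * γ / 4 * L := by
      rw [div_le_iff₀ (by positivity)] at g6
      linarith
    have hres := PARx.err e κ γ β L c p k d m l (t / l + 1) N he he1 hκ0 hκ1 hκp hγ0 hγ1 hβ hL1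
      hc0 hc1 hc2 hc3 hcard hT hk hA hm2 hN1 hN2 (hX ▸ hlge) hbet hd1 hd2 g1 g2 g3 g4 g5 g6'
    refine hres.trans (le_of_eq ?_)
    congr 1
    ring

end Pool.Agent.NQ2
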