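import Pool.Agent.NQ2.StP

/-!
Project NQ2: all heads of the pushdown automaton read one block each.
-/

set_option autoImplicit false

namespace Pool.Agent.NQ2

open Pool.Agent.Heads

namespace PBLKx

lemma le_of_letter {α : Type} {w : List α} {q : ℕ} {a : α} (h : tape w q = Sym.letter a) :
    q ≤ w.length := by
  cases q with
  | zero => exact Nat.zero_le _
  | succ q =>
    by_contra hc
    have h1 : w[q]? = none := by
      rw [List.getElem?_eq_none_iff]
      omega
    simp only [tape, h1] at h
    cases h

lemma move_R {α : Type} {w : List α} {q : ℕ} {a : α} (h : tape w q = Sym.letter a) :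
    move (w.length + 1) q Dir.R = q + 1 := by
  have h1 := le_of_letter h
  simp only [move]
  omega

/-- One step of the automaton. -/
lemma step_of {p : ℕ} {w : List (Lt (p + 1))} {q : PSt (p + 1)} {pos : Fin (p + 1) → ℕ}
    {st : List Bool} {t : PSt (p + 1) × (Fin (p + 1) → Dir) × Op Bool}
    (h : pstep q (fun i => tape w (pos i)) st.head? = some t) :
    (pdaM p).Step w ⟨q, pos, st⟩
      ⟨t.1, fun i => move (w.length + 1) (pos i) (t.2.1 i), t.2.2.apply st⟩ :=
  ⟨t, h, rfl⟩

/-- One step in which all heads move right. -/
lemma step_allR {p : ℕ} {w : List (Lt (p + 1))} {q q' : PSt (p + 1)} {pos : Fin (p + 1) → ℕ}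
    {st : List Bool} {o : Op Bool} (hl : ∀ i, ∃ a, tape w (pos i) = Sym.letter a)
    (h : pstep q (fun i => tape w (pos i)) st.head? = some (q', allR, o)) :
    Star p w ⟨q, pos, st⟩ ⟨q', fun i => pos i + 1, o.apply st⟩ := by
  have h1 := step_of h
  have h2 : (fun i => move (w.length + 1) (pos i) ((allR : Fin (p + 1) → Dir) i))
      = fun i => pos i + 1 := by
    funext i
    obtain ⟨a, ha⟩ := hl i
    exact move_R ha
  simp only [h2] at h1
  exact Relation.ReflTransGen.single h1

lemma at_left {α : Type} {w : List α} {q : ℕ} {u v : List α} (h : At w q (u ++ v)) :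
    At w q u := by
  intro o ho
  have h1 := h o (by rw [List.length_append]; omega)
  rw [h1, List.getElem_append_left ho]

lemma at_right {α : Type} {w : List α} {q : ℕ} {u v : List α} (h : At w q (u ++ v)) :
    At w (q + u.length) v := by
  intro o ho
  have h1 := h (u.length + o) (by rw [List.length_append]; omega)
  rw [add_assoc, h1, List.getElem_append_right (by omega)]
  simp

lemma at_cons {α : Type} {w : List α} {q : ℕ} {a : α} {v : List α} (h : At w q (a :: v)) :
    tape w q = Sym.letter a ∧ At w (q + 1) v := by
  refine ⟨?_, ?_⟩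
  · have h1 := h 0 (by simp)
    simpa using h1
  · exact at_right (u := [a]) h

lemma rowW_length {r l : ℕ} (b : ℕ) (f : Fin l → Bool) :
    (rowW (r := r) b f).length = l + 1 + 2 ^ b := by
  simp only [rowW, List.length_append, List.length_ofFn, List.length_cons, List.length_replicate]
  omega

/-- The steps on the letter `fill`. -/
lemma fills {p : ℕ} {w : List (Lt (p + 1))} (f c : Bool) (st : List Bool) :
    ∀ (ga : ℕ) (pos : Fin (p + 1) → ℕ), (∀ i, At w (pos i) (List.replicate ga Lt.fill)) →
      Star p w ⟨PSt.ev f c, pos, st⟩ ⟨PSt.ev f c, fun i => pos i + ga, st⟩ := by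
  intro ga
  induction ga with
  | zero =>
    intro pos _
    exact Relation.ReflTransGen.refl
  | succ ga ih =>
    intro pos h
    have h1 : ∀ i, tape w (pos i) = Sym.letter Lt.fill ∧
        At w (pos i + 1) (List.replicate ga Lt.fill) := by
      intro i
      have h2 := h i
      rw [List.replicate_succ] at h2
      exact at_cons h2
    have hs : pstep (PSt.ev f c) (fun i => tape w (pos i)) st.head?
        = some (PSt.ev f c, allR, Op.none) := by
      have h3 : ∀ i, (fun i => tape w (pos i)) i = Sym.letter Lt.fill := fun i => (h1 i).1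
      simp only [pstep]
      rw [if_pos h3]
    have h4 : Star p w ⟨PSt.ev f c, pos, st⟩ ⟨PSt.ev f c, fun i => pos i + 1, st⟩ :=
      step_allR (fun i => ⟨_, (h1 i).1⟩) hs
    have h5 := ih (fun i => pos i + 1) fun i => (h1 i).2
    have h6 : (fun i => pos i + 1 + ga) = fun i => pos i + (ga + 1) := by
      funext i
      omega
    simp only [h6] at h5
    exact Relation.ReflTransGen.trans h4 h5

/-- The rows of a block. -/
lemma rows {p m l : ℕ} {w : List (Lt (p + 1))} (hROW : PROW_Stmt) (c : Fin (p + 1) → Blk m l) :
    ∀ (L : List (Fin m)) (pos : Fin (p + 1) → ℕ) (f : Bool) (st : List Bool),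
      (∀ i, At w (pos i) (L.flatMap fun b : Fin m => rowW (b : ℕ) (c i b))) →
      Star p w ⟨PSt.ev f false, pos, st⟩
        ⟨PSt.ev ((L.getLast?.map (gdig c)).getD f) false,
          fun i => pos i + (L.map fun b : Fin m => l + 1 + 2 ^ (b : ℕ)).sum,
          List.replicate (L.map fun b : Fin m => if gdig c b = true then 2 ^ (b : ℕ) else 0).sum
            true ++ st⟩ := by
  intro L
  induction L with
  | nil =>
    intro pos f st _
    exact Relation.ReflTransGen.refl
  | cons b L ih =>
    intro pos f st h
    have h1 : ∀ i, At w (pos i) (rowW (b : ℕ) (c i b)) ∧ At w (pos i + (l + 1 + 2 ^ (b : ℕ)))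
        (L.flatMap fun b : Fin m => rowW (b : ℕ) (c i b)) := by
      intro i
      have h2 := h i
      rw [List.flatMap_cons] at h2
      refine ⟨at_left h2, ?_⟩
      have h3 := at_right h2
      rwa [rowW_length] at h3
    have h4 := hROW p l (b : ℕ) w pos (fun i => c i b) f st fun i => (h1 i).1
    have h5 : (if Odd (Finset.univ.filter fun t : Fin l => ∀ i, c i b t = true).card then
          List.replicate (2 ^ (b : ℕ)) true else []) ++ st
        = List.replicate (if gdig c b = true then 2 ^ (b : ℕ) else 0) true ++ st := by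
      unfold gdig
      by_cases hO : Odd (Finset.univ.filter fun t : Fin l => ∀ i, c i b t = true).card
      · simp [hO]
      · simp [hO]
    have h6 := ih (fun i => pos i + (l + 1 + 2 ^ (b : ℕ))) (gdig c b)
      (List.replicate (if gdig c b = true then 2 ^ (b : ℕ) else 0) true ++ st) fun i => (h1 i).2
    have h7 : Star p w ⟨PSt.ev f false, pos, st⟩ ⟨PSt.ev (gdig c b) false,
        fun i => pos i + (l + 1 + 2 ^ (b : ℕ)),
        List.replicate (if gdig c b = true then 2 ^ (b : ℕ) else 0) true ++ st⟩ := by
      rw [← h5]
      exact h4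
    have h8 := Relation.ReflTransGen.trans h7 h6
    have e1 : ((b :: L).getLast?.map (gdig c)).getD f = (L.getLast?.map (gdig c)).getD (gdig c b) := by
      rw [List.getLast?_cons]
      cases L.getLast? <;> simp
    have e2 : (fun i => pos i + (l + 1 + 2 ^ (b : ℕ)) +
          (L.map fun b : Fin m => l + 1 + 2 ^ (b : ℕ)).sum)
        = fun i => pos i + ((b :: L).map fun b : Fin m => l + 1 + 2 ^ (b : ℕ)).sum := by
      funext i
      rw [List.map_cons, List.sum_cons, add_assoc]
    have e3 : List.replicate (L.map fun b : Fin m => if gdig c b = true then 2 ^ (b : ℕ) else 0).sum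
            true ++ (List.replicate (if gdig c b = true then 2 ^ (b : ℕ) else 0) true ++ st)
        = List.replicate
            ((b :: L).map fun b : Fin m => if gdig c b = true then 2 ^ (b : ℕ) else 0).sum
            true ++ st := by
      rw [← List.append_assoc, List.replicate_append_replicate, List.map_cons, List.sum_cons,
        add_comm]
    rw [e1]
    simp only [e2, e3] at h8
    exact h8

lemma last_finRange {m l p : ℕ} (c : Fin (p + 1) → Blk m l) :
    ((List.finRange m).getLast?.map (gdig c)).getD false = topd (gdig c) := by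
  cases m with
  | zero => simp [topd]
  | succ n =>
    rw [List.finRange_succ_last, List.getLast?_append]
    simp [topd, Fin.last]

lemma sum_pow (m : ℕ) : (∑ b : Fin m, 2 ^ (b : ℕ)) + 1 = 2 ^ m := by
  rw [Fin.sum_univ_eq_sum_range (fun b => 2 ^ b) m]
  induction m with
  | zero => simp
  | succ n ih =>
    rw [Finset.sum_range_succ, pow_succ]
    omega

lemma adv (m l : ℕ) :
    ((List.finRange m).map fun b : Fin m => l + 1 + 2 ^ (b : ℕ)).sum + 1 = m * (l + 1) + 2 ^ m := by
  rw [← Fin.sum_univ_def, Finset.sum_add_distrib, ← sum_pow m]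
  simp
  ring

end PBLKx

open PBLKx in
theorem t_PBLK (hROW : PROW_Stmt) : PBLK_Stmt := by
  intro p m l ga w pos c st h
  have h1 : ∀ i, tape w (pos i) = Sym.letter (Lt.b i) ∧
      At w (pos i + 1) (List.replicate ga Lt.fill) ∧
      At w (pos i + 1 + ga) ((List.finRange m).flatMap fun b : Fin m => rowW (b : ℕ) (c i b)) := by
    intro i
    obtain ⟨h2, h3⟩ := at_cons (h i)
    refine ⟨h2, at_left h3, ?_⟩
    have h4 := at_right h3
    rwa [List.length_replicate] at h4
  have hs : pstep PSt.ev0 (fun i => tape w (pos i)) st.head?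
      = some (PSt.ev false false, allR, Op.push false) := by
    have h2 : tape w (pos 0) = Sym.letter (Lt.b 0) := (h1 0).1
    simp only [pstep]
    rw [h2]
  have s1 : Star p w ⟨PSt.ev0, pos, st⟩ ⟨PSt.ev false false, fun i => pos i + 1, false :: st⟩ :=
    step_allR (fun i => ⟨_, (h1 i).1⟩) hs
  have s2 := fills false false (false :: st) ga (fun i => pos i + 1) fun i => (h1 i).2.1
  have s3 := rows hROW c (List.finRange m) (fun i => pos i + 1 + ga) false (false :: st)
    fun i => (h1 i).2.2
  have s4 := Relation.ReflTransGen.trans (Relation.ReflTransGen.trans s1 s2) s3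
  rw [last_finRange] at s4
  have e1 : (fun i => pos i + 1 + ga + ((List.finRange m).map
      fun b : Fin m => l + 1 + 2 ^ (b : ℕ)).sum) = fun i => pos i + blockLen m l ga := by
    funext i
    have h5 := adv m l
    unfold blockLen
    omega
  have e2 : ((List.finRange m).map
      fun b : Fin m => if gdig c b = true then 2 ^ (b : ℕ) else 0).sum = val (gdig c) := by
    rw [← Fin.sum_univ_def]
    rfl
  simp only [e1, e2] at s4
  exact s4

end Pool.Agent.NQ2
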