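import Pool.Agent.NQ2.StP

/-!
Project NQ2: the pushdown automaton is deterministic and its heads never move left.
-/

set_option autoImplicit false

namespace Pool.Agent.NQ2

open Pool.Agent.Heads

namespace PDETx

/-- The directions of the heads in one step. -/
def Good {r : ℕ} (d : Fin r → Dir) : Prop := d = allR ∨ (∃ j, d = oneR j) ∨ d = allS

lemma good_ne {r : ℕ} {d : Fin r → Dir} (h : Good d) (i : Fin r) : d i ≠ Dir.L := by
  rcases h with rfl | ⟨j, rfl⟩ | rfl
  · simp [allR]
  · unfold oneR
    split_ifs <;> simp
  · simp [allS]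

lemma pstep_good {p : ℕ} (q : PSt (p + 1)) (x : Fin (p + 1) → Sym (Lt (p + 1)))
    (g : Option Bool) (t : PSt (p + 1) × (Fin (p + 1) → Dir) × Op Bool)
    (h : pstep q x g = some t) : Good t.2.1 := by
  have hR : ∀ (a : PSt (p + 1)) (o : Op Bool), some (a, allR, o) = some t → Good t.2.1 := by
    intro a o e
    rw [← Option.some.inj e]
    exact Or.inl rfl
  have hS : ∀ (a : PSt (p + 1)) (o : Op Bool), some (a, allS, o) = some t → Good t.2.1 := by
    intro a o e
    rw [← Option.some.inj e]
    exact Or.inr (Or.inr rfl)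
  have hO : ∀ (a : PSt (p + 1)) (j : Fin (p + 1)) (o : Op Bool),
      some (a, oneR j, o) = some t → Good t.2.1 := by
    intro a j o e
    rw [← Option.some.inj e]
    exact Or.inr (Or.inl ⟨j, rfl⟩)
  have hN : (none : Option (PSt (p + 1) × (Fin (p + 1) → Dir) × Op Bool)) = some t →
      Good t.2.1 := fun e => absurd e (by simp)
  unfold pstep at h
  repeat' split at h
  all_goals first
    | exact hR _ _ h
    | exact hS _ _ h
    | exact hO _ _ _ h
    | exact hN h

end PDETx

theorem t_PDET : PDET_Stmt := by
  intro p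
  refine ⟨?_, ?_⟩
  · intro q x g a ha b hb
    have ha' : pstep q x g = some a := ha
    have hb' : pstep q x g = some b := hb
    rw [ha'] at hb'
    exact Option.some.inj hb'
  · intro q x g t ht i
    exact PDETx.good_ne (PDETx.pstep_good q x g t ht) i

end Pool.Agent.NQ2
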