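import Pool.Agent.NQ2.St

/-!
# PEB: the deterministic pebbling lemma on lists

`PB R w j`: the node `w` is pebbled at time `j`. `OP R d j v`: there is an open path at time `j` from `v`
down to depth `d`, given by its last node `W`; the nodes of the path are the suffixes of `W` which have
the suffix `v`.
-/

set_option autoImplicit false

namespace Pool.Agent.NQ2

namespace PEBx

variable {p : ℕ}

/-- The node is pebbled at time `j`. -/
def PB (R : List (Fin (p + 1)) → ℕ → Prop) : List (Fin (p + 1)) → ℕ → Prop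
  | [], j => ∃ j'' < j, R [] j''
  | i :: v, j => ∃ j', j ≤ j' ∧ R v j' ∧
      ∀ j'', j ≤ j'' → j'' < j' → ¬ R v j'' ∧ ¬ R (i :: v) j''

/-- There is an open path from `v`. -/
def OP (R : List (Fin (p + 1)) → ℕ → Prop) (d j : ℕ) (v : List (Fin (p + 1))) : Prop :=
  ∃ W : List (Fin (p + 1)), W.length = d ∧ v <:+ W ∧ ∀ s, v <:+ s → s <:+ W → ¬ PB R s j

theorem eq_of_suffix {α : Type} {l₁ l₂ X : List α} (h₁ : l₁ <:+ X) (h₂ : l₂ <:+ X)
    (h : l₁.length = l₂.length) : l₁ = l₂ :=
  (List.suffix_of_suffix_length_le h₁ h₂ h.le).eq_of_length h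

theorem cons_suffix_of {α : Type} {s s' W : List α} {i : α} (h : (i :: s) <:+ W) (hs : s <:+ s')
    (hs' : s' <:+ W) (hne : s' ≠ s) : (i :: s) <:+ s' := by
  apply List.suffix_of_suffix_length_le h hs'
  have h1 : s.length ≤ s'.length := hs.length_le
  have h2 : s.length ≠ s'.length := fun h2 => hne (hs.eq_of_length h2).symm
  simp only [List.length_cons]
  omega

theorem descend (R : List (Fin (p + 1)) → ℕ → Prop) (d j : ℕ) :
    ∀ (n : ℕ) (s : List (Fin (p + 1))), s.length + n = d → ¬ PB R s j → ¬ OP R d j s →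
      ∃ v, s <:+ v ∧ v.length < d ∧ ∀ i, PB R (i :: v) j := by
  intro n
  induction n with
  | zero =>
    intro s hs hP hO
    exfalso
    apply hO
    refine ⟨s, by omega, List.suffix_refl s, ?_⟩
    intro s' h1 h2
    have : s' = s := h2.eq_of_length (le_antisymm h2.length_le h1.length_le)
    rw [this]
    exact hP
  | succ n ih =>
    intro s hs hP hO
    by_cases hall : ∀ i, PB R (i :: s) j
    · exact ⟨s, List.suffix_refl s, by omega, hall⟩
    · push Not at hall
      obtain ⟨i, hi⟩ := hall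
      have hO' : ¬ OP R d j (i :: s) := by
        rintro ⟨W, hW, hiW, hall⟩
        apply hO
        refine ⟨W, hW, (List.suffix_cons i s).trans hiW, ?_⟩
        intro s' h1 h2
        by_cases hs' : s' = s
        · rw [hs']; exact hP
        · exact hall s' (cons_suffix_of hiW h1 h2 hs') h2
      obtain ⟨v, hv1, hv2, hv3⟩ := ih (i :: s) (by simp only [List.length_cons]; omega) hi hO'
      exact ⟨v, (List.suffix_cons i s).trans hv1, hv2, hv3⟩

/-- From pebbled children to a common time. -/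
theorem next_of (R : List (Fin (p + 1)) → ℕ → Prop) (j : ℕ) (v : List (Fin (p + 1)))
    (S : Fin (p + 1) → Prop) (hne : ∃ i, S i) (h : ∀ i, S i → PB R (i :: v) j) :
    ∃ tau, R v (j + tau) ∧ ∀ i, S i → ∀ j' < tau, ¬ R (i :: v) (j + j') := by
  obtain ⟨i₀, hi₀⟩ := hne
  obtain ⟨j₁, h1, h2, h3⟩ := h i₀ hi₀
  refine ⟨j₁ - j, ?_, ?_⟩
  · rw [Nat.add_sub_cancel' h1]; exact h2
  · intro i hi j' hj'
    obtain ⟨j₂, g1, g2, g3⟩ := h i hi
    have : j₂ = j₁ := by
      rcases lt_trichotomy j₂ j₁ with hlt | heq | hgt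
      · exact absurd g2 (h3 j₂ g1 hlt).1
      · exact heq
      · exact absurd h2 (g3 j₁ h1 hgt).1
    subst this
    exact (g3 (j + j') (Nat.le_add_right j j') (by omega)).2

/-- The step from an open path at `j` to none at `j + 1`: only the last node gets pebbled. -/
theorem last_pebbled (R : List (Fin (p + 1)) → ℕ → Prop) (j : ℕ) (W : List (Fin (p + 1)))
    (hW : ∀ s, s <:+ W → ¬ PB R s j) (s : List (Fin (p + 1))) (hs : s <:+ W)
    (hP : PB R s (j + 1)) : s = W := by
  have hR : R s j := by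
    cases s with
    | nil =>
      obtain ⟨j'', h1, h2⟩ := hP
      have h3 : ¬ j'' < j := fun h => hW [] hs ⟨j'', h, h2⟩
      have : j'' = j := by omega
      rw [← this]; exact h2
    | cons i v =>
      by_contra hRs
      obtain ⟨j', h1, h2, h3⟩ := hP
      apply hW (i :: v) hs
      by_cases hRv : R v j
      · exact ⟨j, le_refl j, hRv, fun j'' h4 h5 => absurd h5 (not_lt.mpr h4)⟩
      · refine ⟨j', by omega, h2, ?_⟩
        intro j'' h4 h5
        rcases Nat.eq_or_lt_of_le h4 with h6 | h6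
        · rw [← h6]; exact ⟨hRv, hRs⟩
        · exact h3 j'' h6 h5
  by_contra hne
  obtain ⟨t, ht⟩ := hs
  rcases List.eq_nil_or_concat t with h0 | ⟨t', i, h0⟩
  · apply hne
    rw [← ht, h0]; simp
  · have hs' : (i :: s) <:+ W := ⟨t', by rw [← ht, h0]; simp⟩
    exact hW (i :: s) hs' ⟨j, le_refl j, hR, fun j'' h4 h5 => absurd h5 (not_lt.mpr h4)⟩

end PEBx

open PEBx in
theorem t_PEB : PEB_Stmt := by
  intro p d T R hT hroot
  obtain ⟨jr, hjr⟩ := hroot
  by_cases hd : d = 0
  · subst hd
    right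
    exact ⟨0, fun t => t.elim0, fun t => t.elim0, fun t => t.elim0, Nat.zero_le T,
      fun t => t.elim0, fun t => t.elim0⟩
  have hd0 : 0 < d := Nat.pos_of_ne_zero hd
  rcases Nat.eq_zero_or_pos p with hp | hp
  · subst hp
    left
    refine ⟨[], 0, jr, by simpa using hd0, hT _ _ hjr, hjr, ?_⟩
    intro i hi
    exact absurd (by apply Fin.ext; have := i.2; simp only [Fin.val_zero]; omega) hi
  by_cases h0 : OP R d 0 []
  swap
  · left
    have hPB0 : ¬ PB R [] 0 := by
      rintro ⟨j'', h1, _⟩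
      exact absurd h1 (Nat.not_lt_zero _)
    obtain ⟨v, -, hv2, hv3⟩ := descend R d 0 d [] (by simp) hPB0 h0
    obtain ⟨tau, ht1, ht2⟩ := next_of R 0 v (fun _ => True) ⟨0, trivial⟩ (fun i _ => hv3 i)
    refine ⟨v, 0, tau, hv2, ?_, ?_, ?_⟩
    · have := hT _ _ ht1; omega
    · simpa using ht1
    · intro i _ j hj
      have := ht2 i trivial j hj
      simpa using this
  right
  -- the first time without an open path from the root
  have hex : ∃ j, ¬ OP R d j [] := by
    refine ⟨jr + 1, ?_⟩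
    rintro ⟨W, _, h2, h3⟩
    exact h3 [] (List.suffix_refl _) h2 ⟨jr, Nat.lt_succ_self jr, hjr⟩
  classical
  obtain ⟨j0, hj0, hmin, hle⟩ : ∃ j0, ¬ OP R d j0 [] ∧ (∀ j < j0, OP R d j []) ∧ j0 ≤ jr + 1 := by
    refine ⟨Nat.find hex, Nat.find_spec hex, ?_, ?_⟩
    · intro j hj
      have := Nat.find_min hex hj
      push Not at this
      exact this
    · apply Nat.find_min'
      rintro ⟨W, _, h2, h3⟩
      exact h3 [] (List.suffix_refl _) h2 ⟨jr, Nat.lt_succ_self jr, hjr⟩
  have hj0pos : 0 < j0 := by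
    rcases Nat.eq_zero_or_pos j0 with h | h
    · rw [h] at hj0; exact absurd h0 hj0
    · exact h
  obtain ⟨j1, rfl⟩ : ∃ j1, j0 = j1 + 1 := ⟨j0 - 1, by omega⟩
  obtain ⟨W, hWlen, -, hWall⟩ := hmin j1 (Nat.lt_succ_self j1)
  have hWall' : ∀ s, s <:+ W → ¬ PB R s j1 := fun s hs => hWall s (List.nil_suffix) hs
  have hprop : ∀ s, s <:+ W → s.length < d → ¬ PB R s (j1 + 1) := by
    intro s hs hl hP
    have := last_pebbled R j1 W hWall' s hs hP
    rw [this, hWlen] at hl
    exact absurd hl (lt_irrefl _)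
  have hj0T : j1 + 1 ≤ T := by
    have := hT _ _ hjr
    omega
  -- the nodes of the path
  have hnode : ∀ t : Fin d, ∃ (b : Fin (p + 1)), (b :: W.drop (d - t)) <:+ W ∧
      W.drop (d - (t + 1)) = b :: W.drop (d - t) := by
    intro t
    have h1 : d - (t + 1) < W.length := by rw [hWlen]; have := t.2; omega
    have h2 : W.drop (d - (t + 1)) = W[d - (t + 1)] :: W.drop (d - t) := by
      have h3 : d - (t : ℕ) = d - (t + 1) + 1 := by have := t.2; omega
      rw [h3]
      exact List.drop_eq_getElem_cons h1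
    refine ⟨W[d - (t + 1)], ?_, h2⟩
    rw [← h2]
    exact List.drop_suffix _ _
  choose b hb1 hb2 using hnode
  have hlen : ∀ t, t ≤ d → (W.drop (d - t)).length = t := by
    intro t ht
    rw [List.length_drop, hWlen]
    omega
  -- the groups
  have hgroup : ∀ t : Fin d, ∃ (v : List (Fin (p + 1))) (e : Fin (p + 1)), v.length < d ∧
      (∀ i, i ≠ e → PB R (i :: v) (j1 + 1)) ∧
      (∀ i, i ≠ e → ∃ a, a ≠ b t ∧ (a :: W.drop (d - t)) <:+ (i :: v)) := by
    intro t
    by_cases hall : ∀ i, i ≠ b t → PB R (i :: W.drop (d - t)) (j1 + 1)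
    · refine ⟨W.drop (d - t), b t, ?_, hall, fun i hi => ⟨i, hi, List.suffix_refl _⟩⟩
      rw [hlen t t.2.le]
      exact t.2
    · push Not at hall
      obtain ⟨a, ha, hPa⟩ := hall
      have hO : ¬ OP R d (j1 + 1) (a :: W.drop (d - t)) := by
        rintro ⟨X, hX1, hX2, hX3⟩
        apply hj0
        refine ⟨X, hX1, List.nil_suffix, ?_⟩
        intro s _ hs
        by_cases hls : s.length ≤ (t : ℕ)
        · have h4 : s <:+ W.drop (d - t) := by
            apply List.suffix_of_suffix_length_le hs ((List.suffix_cons a _).trans hX2)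
            rw [hlen t t.2.le]
            exact hls
          apply hprop s (h4.trans (List.drop_suffix _ _))
          have := t.2
          omega
        · apply hX3 s _ hs
          apply List.suffix_of_suffix_length_le hX2 hs
          rw [List.length_cons, hlen t t.2.le]
          omega
      obtain ⟨v, hv1, hv2, hv3⟩ := descend R d (j1 + 1) (d - (t + 1)) (a :: W.drop (d - t))
        (by rw [List.length_cons, hlen t t.2.le]; have := t.2; omega) hPa hO
      refine ⟨v, 0, hv2, fun i _ => hv3 i, fun i _ => ⟨a, ha, hv1.trans (List.suffix_cons i v)⟩⟩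
  choose v e hv1 hv2 hv3 using hgroup
  have hnext : ∀ t : Fin d, ∃ tau, R (v t) (j1 + 1 + tau) ∧
      ∀ i, i ≠ e t → ∀ j' < tau, ¬ R (i :: v t) (j1 + 1 + j') := by
    intro t
    apply next_of R (j1 + 1) (v t) (fun i => i ≠ e t) _ (hv2 t)
    obtain ⟨q, rfl⟩ : ∃ q, p = q + 1 := ⟨p - 1, by omega⟩
    exact exists_ne (e t)
  choose tau ht1 ht2 using hnext
  refine ⟨j1 + 1, v, e, tau, hj0T, ?_, ?_⟩
  · intro t
    exact ⟨hv1 t, hT _ _ (ht1 t), ht1 t, ht2 t⟩
  · intro t t' i i' hi hi' hne hsuf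
    -- a path node of smaller depth
    have hpath : ∀ t₁ t₂ : Fin d, t₁ < t₂ → (b t₁ :: W.drop (d - t₁)) <:+ W.drop (d - t₂) := by
      intro t₁ t₂ h
      apply List.suffix_of_suffix_length_le (hb1 t₁) (List.drop_suffix _ _)
      rw [List.length_cons, hlen t₁ t₁.2.le, hlen t₂ t₂.2.le]
      exact h
    have hkey : ∀ (t₁ : Fin d) (a : Fin (p + 1)) (X : List (Fin (p + 1))),
        (a :: W.drop (d - t₁)) <:+ X → (b t₁ :: W.drop (d - t₁)) <:+ X → a = b t₁ := by
      intro t₁ a X h1 h2
      have := eq_of_suffix h1 h2 (by simp)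
      simpa using this
    obtain ⟨a, ha, hsa⟩ := hv3 t i hi
    obtain ⟨a', ha', hsa'⟩ := hv3 t' i' hi'
    rcases lt_trichotomy t t' with hlt | heq | hgt
    · apply ha
      apply hkey t a _ (hsa.trans hsuf)
      exact (hpath t t' hlt).trans ((List.suffix_cons a' _).trans hsa')
    · subst heq
      have h5 : i :: v t = i' :: v t := hsuf.eq_of_length (by simp)
      apply hne
      rw [(List.cons.inj h5).1]
    · apply ha'
      apply hkey t' a' _ hsa'
      exact (hpath t' t hgt).trans ((List.suffix_cons a _).trans (hsa.trans hsuf))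

end Pool.Agent.NQ2
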