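import Pool.Agent.NQ2.StP

/-!
Project NQ2 (MP_5e85fc_lc), module PLOC: the heads go to the blocks given by the stack.
-/

set_option autoImplicit false

namespace Pool.Agent.NQ2

open Pool.Agent.Heads

namespace PLOCx

lemma le_of_letter {α : Type} {w : List α} {q : ℕ} {a : α} (h : tape w q = Sym.letter a) :
    q ≤ w.length := by
  cases q with
  | zero => exact Nat.zero_le _
  | succ n =>
    by_contra hn
    have h1 : w[n]? = none := by
      rw [List.getElem?_eq_none_iff]; omega
    simp [tape, h1] at h

lemma at_app {α : Type} {w : List α} {q : ℕ} {u v : List α} (h : At w q (u ++ v)) :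
    At w q u ∧ At w (q + u.length) v := by
  constructor
  · intro o ho
    have h1 := h o (by rw [List.length_append]; omega)
    rw [h1, List.getElem_append_left ho]
  · intro o ho
    have h1 := h (u.length + o) (by rw [List.length_append]; omega)
    rw [Nat.add_assoc, h1, List.getElem_append_right (by omega)]
    simp

lemma at_fm {α β : Type} {w : List α} (g : β → List α) (L : ℕ) (hL : ∀ b, (g b).length = L) :
    ∀ (l : List β) (q : ℕ), At w q (l.flatMap g) → ∀ (j : ℕ) (hj : j < l.length),
      At w (q + j * L) (g l[j]) := by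
  intro l
  induction l with
  | nil => intro q _ j hj; exact absurd hj (by simp)
  | cons b l ih =>
    intro q h j hj
    rw [List.flatMap_cons] at h
    obtain ⟨h1, h2⟩ := at_app h
    cases j with
    | zero => simpa using h1
    | succ j =>
      rw [hL] at h2
      have h3 := ih (q + L) h2 j (by simpa using hj)
      have e : q + (j + 1) * L = q + L + j * L := by ring
      rw [e]
      simpa using h3

lemma len_inner {r m l ga : ℕ} (hB : ∀ (i : Fin r) (c : Blk m l),
    (blockW ga i c).length = blockLen m l ga) (D : Fin r → Idx m → Blk m l) (i : Fin r) :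
    ((List.range (2 ^ m)).flatMap fun j => blockW ga i (D i (bitsOf m j))).length =
      2 ^ m * blockLen m l ga := by
  rw [List.length_flatMap]
  simp [hB]

/-- Block number `j` of the list `i`. -/
lemma at_block {r m l ga : ℕ} (hB : ∀ (i : Fin r) (c : Blk m l),
    (blockW ga i c).length = blockLen m l ga) {w : List (Lt r)} {q : ℕ}
    {D : Fin r → Idx m → Blk m l} (h : At w q (listsW ga D)) (i : Fin r) (j : ℕ) (hj : j < 2 ^ m) :
    At w (q + ((i : ℕ) * 2 ^ m + j) * blockLen m l ga) (blockW ga i (D i (bitsOf m j))) := by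
  have h1 := at_fm (fun i : Fin r =>
    (List.range (2 ^ m)).flatMap fun j => blockW ga i (D i (bitsOf m j)))
    (2 ^ m * blockLen m l ga) (fun i => len_inner hB D i) (List.finRange r) q h (i : ℕ)
    (by simp)
  have h2 := at_fm (fun j => blockW ga i (D i (bitsOf m j))) (blockLen m l ga)
    (fun j => hB i _) (List.range (2 ^ m)) (q + (i : ℕ) * (2 ^ m * blockLen m l ga))
    (by simpa using h1) j (by simpa using hj)
  have e : q + ((i : ℕ) * 2 ^ m + j) * blockLen m l ga =
      q + (i : ℕ) * (2 ^ m * blockLen m l ga) + j * blockLen m l ga := by ring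
  rw [e]
  simpa using h2

/-- The letters of a block except the first one are not `b`. -/
lemma mem_tail {r m l ga : ℕ} {i : Fin r} {c : Blk m l} {x : Lt r}
    (hx : x ∈ (blockW ga i c).tail) (i' : Fin r) : x ≠ Lt.b i' := by
  simp only [blockW, rowW, List.tail_cons, List.mem_append, List.mem_flatMap, List.mem_cons,
    List.mem_replicate, List.mem_ofFn] at hx
  rcases hx with ⟨-, rfl⟩ | ⟨b, -, ⟨t, rfl⟩ | rfl | ⟨-, rfl⟩⟩ <;> nofun

/-- The first letter of a block. -/
lemma first {r m l ga : ℕ} (hB : ∀ (i : Fin r) (c : Blk m l),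
    (blockW ga i c).length = blockLen m l ga) {w : List (Lt r)} {q : ℕ}
    {D : Fin r → Idx m → Blk m l} (h : At w q (listsW ga D)) (i : Fin r) (j : ℕ) (hj : j < 2 ^ m) :
    tape w (q + ((i : ℕ) * 2 ^ m + j) * blockLen m l ga) = Sym.letter (Lt.b i) := by
  have h1 := at_block hB h i j hj 0 (by simp [blockW])
  simpa [blockW] using h1

/-- The other letters of a block. -/
lemma rest {r m l ga : ℕ} (hB : ∀ (i : Fin r) (c : Blk m l),
    (blockW ga i c).length = blockLen m l ga) {w : List (Lt r)} {q : ℕ}
    {D : Fin r → Idx m → Blk m l} (h : At w q (listsW ga D)) (i : Fin r) (j : ℕ) (hj : j < 2 ^ m)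
    (t : ℕ) (ht0 : 0 < t) (ht : t < blockLen m l ga) :
    ∃ a : Lt r, tape w (q + ((i : ℕ) * 2 ^ m + j) * blockLen m l ga + t) = Sym.letter a ∧
      ∀ i' : Fin r, a ≠ Lt.b i' := by
  have ht' : t < (blockW ga i (D i (bitsOf m j))).length := by rw [hB]; exact ht
  refine ⟨_, at_block hB h i j hj t ht', fun i' => mem_tail (ga := ga) (i := i)
    (c := D i (bitsOf m j)) ?_ i'⟩
  rw [List.mem_iff_getElem]
  refine ⟨t - 1, by rw [List.length_tail]; omega, ?_⟩
  rw [List.getElem_tail]
  congr 1
  omega

lemma blockLen_pos (m l ga : ℕ) : 0 < blockLen m l ga := by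
  unfold blockLen
  have : 0 < 2 ^ m := by positivity
  omega

/-- The letters before the list `i` are not `b i`. -/
lemma before {r m l ga : ℕ} (hB : ∀ (i : Fin r) (c : Blk m l),
    (blockW ga i c).length = blockLen m l ga) {w : List (Lt r)} {q : ℕ}
    {D : Fin r → Idx m → Blk m l} (h : At w q (listsW ga D)) (i : Fin r) (o : ℕ) (h1 : q ≤ o)
    (h2 : o < q + (i : ℕ) * 2 ^ m * blockLen m l ga) :
    ∃ a : Lt r, tape w o = Sym.letter a ∧ a ≠ Lt.b i := by
  have hb := blockLen_pos m l ga
  have hm : 0 < 2 ^ m := by positivity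
  -- the number of the block and the place in the block
  have hu : (o - q) / blockLen m l ga < (i : ℕ) * 2 ^ m := by
    rw [Nat.div_lt_iff_lt_mul hb]
    omega
  have hi' : (o - q) / blockLen m l ga / 2 ^ m < (i : ℕ) := by
    rw [Nat.div_lt_iff_lt_mul hm]
    exact hu
  have hj : (o - q) / blockLen m l ga % 2 ^ m < 2 ^ m := Nat.mod_lt _ hm
  have ht : (o - q) % blockLen m l ga < blockLen m l ga := Nat.mod_lt _ hb
  have e1 : (o - q) / blockLen m l ga / 2 ^ m * 2 ^ m + (o - q) / blockLen m l ga % 2 ^ m =
      (o - q) / blockLen m l ga := Nat.div_add_mod' _ _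
  have e2 : (o - q) / blockLen m l ga * blockLen m l ga + (o - q) % blockLen m l ga = o - q :=
    Nat.div_add_mod' _ _
  have hir : (o - q) / blockLen m l ga / 2 ^ m < r := lt_trans hi' i.isLt
  rcases Nat.eq_zero_or_pos ((o - q) % blockLen m l ga) with h0 | h0
  · have h3 := first hB h ⟨(o - q) / blockLen m l ga / 2 ^ m, hir⟩ _ hj
    have e3 : q + ((o - q) / blockLen m l ga / 2 ^ m * 2 ^ m +
        (o - q) / blockLen m l ga % 2 ^ m) * blockLen m l ga = o := by
      rw [e1]
      omega
    simp only [e3] at h3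
    refine ⟨_, h3, ?_⟩
    intro h4
    have h5 : (⟨(o - q) / blockLen m l ga / 2 ^ m, hir⟩ : Fin r) = i := by
      injection h4
    rw [← h5] at hi'
    exact absurd hi' (lt_irrefl _)
  · obtain ⟨a, ha, ha'⟩ := rest hB h ⟨(o - q) / blockLen m l ga / 2 ^ m, hir⟩ _ hj _ h0 ht
    have e3 : q + ((o - q) / blockLen m l ga / 2 ^ m * 2 ^ m +
        (o - q) / blockLen m l ga % 2 ^ m) * blockLen m l ga + (o - q) % blockLen m l ga = o := by
      rw [e1]
      omega
    simp only [e3] at ha
    exact ⟨a, ha, ha' i⟩

variable {p : ℕ} {w : List (Lt (p + 1))}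

/-- A step of the automaton. -/
lemma step_of {q : PSt (p + 1)} {pos : Fin (p + 1) → ℕ} {st : List Bool}
    {t : PSt (p + 1) × (Fin (p + 1) → Dir) × Op Bool}
    (h : pstep q (fun i => tape w (pos i)) st.head? = some t) :
    (pdaM p).Step w ⟨q, pos, st⟩
      ⟨t.1, fun i => move (w.length + 1) (pos i) (t.2.1 i), t.2.2.apply st⟩ :=
  ⟨t, h, rfl⟩

lemma move_oneR {pos : Fin (p + 1) → ℕ} {i : Fin (p + 1)} (hle : pos i ≤ w.length) :
    (fun j => move (w.length + 1) (pos j) (oneR i j)) = Function.update pos i (pos i + 1) := by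
  funext j
  by_cases hj : j = i
  · subst hj
    simp [oneR, move, hle]
  · simp [oneR, move, hj]

/-- The head `i` moves over letters which are not `b i`. -/
lemma skip (i : Fin (p + 1)) (st : List Bool) : ∀ (n : ℕ) (pos : Fin (p + 1) → ℕ),
    (∀ o, pos i ≤ o → o < pos i + n → ∃ a : Lt (p + 1), tape w o = Sym.letter a ∧ a ≠ Lt.b i) →
    Star p w ⟨PSt.loc i, pos, st⟩ ⟨PSt.loc i, Function.update pos i (pos i + n), st⟩ := by
  intro n
  induction n with
  | zero =>
    intro pos _
    have h1 : Function.update pos i (pos i + 0) = pos := by simp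
    rw [h1]
    exact Relation.ReflTransGen.refl
  | succ n ih =>
    intro pos hl
    obtain ⟨a, ha, ha1⟩ := hl (pos i) le_rfl (by omega)
    have key : pstep (PSt.loc i) (fun j => tape w (pos j)) st.head? =
        some (PSt.loc i, oneR i, Op.none) := by
      simp [pstep, ha, ha1]
    have h1 := step_of key
    rw [move_oneR (le_of_letter ha)] at h1
    refine Relation.ReflTransGen.head h1 ?_
    have h2 := ih (Function.update pos i (pos i + 1)) (by
      rw [Function.update_self]
      intro o ho1 ho2
      exact hl o (by omega) (by omega))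
    rw [Function.update_idem, Function.update_self] at h2
    have e : pos i + 1 + n = pos i + (n + 1) := by omega
    rw [e] at h2
    exact h2

/-- A unit is popped. -/
lemma unit (i : Fin (p + 1)) (st : List Bool) (pos : Fin (p + 1) → ℕ)
    (h : tape w (pos i) = Sym.letter (Lt.b i)) :
    Star p w ⟨PSt.loc i, pos, true :: st⟩
      ⟨PSt.loc i, Function.update pos i (pos i + 1), st⟩ := by
  have key : pstep (PSt.loc i) (fun j => tape w (pos j)) (true :: st).head? =
      some (PSt.loc i, oneR i, Op.pop) := by
    simp [pstep, h]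
  have h1 := step_of key
  rw [move_oneR (le_of_letter h)] at h1
  exact Relation.ReflTransGen.single h1

/-- The state after the location of the head `i`. -/
def nxt (i : Fin (p + 1)) : PSt (p + 1) :=
  if h : 0 < (i : ℕ) then PSt.loc ⟨(i : ℕ) - 1, by omega⟩ else PSt.ev0

/-- The mark is popped. -/
lemma mark (i : Fin (p + 1)) (st : List Bool) (pos : Fin (p + 1) → ℕ)
    (h : tape w (pos i) = Sym.letter (Lt.b i)) :
    Star p w ⟨PSt.loc i, pos, false :: st⟩ ⟨nxt i, pos, st⟩ := by
  have key : pstep (PSt.loc i) (fun j => tape w (pos j)) (false :: st).head? =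
      some (nxt i, allS, Op.pop) := by
    simp [pstep, h, nxt]
  have h1 := step_of key
  have h2 : (fun j => move (w.length + 1) (pos j) ((allS : Fin (p + 1) → Dir) j)) = pos := by
    funext j
    simp [allS, move]
  rw [h2] at h1
  exact Relation.ReflTransGen.single h1

/-- The head `i` goes to the block number `j + v` of its list. -/
lemma units {m l ga : ℕ} (hB : ∀ (i : Fin (p + 1)) (c : Blk m l),
    (blockW ga i c).length = blockLen m l ga) {q : ℕ}
    {D : Fin (p + 1) → Idx m → Blk m l} (h : At w q (listsW ga D)) (i : Fin (p + 1))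
    (st : List Bool) : ∀ (v j : ℕ) (pos : Fin (p + 1) → ℕ), j + v < 2 ^ m →
      pos i = q + ((i : ℕ) * 2 ^ m + j) * blockLen m l ga →
      Star p w ⟨PSt.loc i, pos, List.replicate v true ++ st⟩
        ⟨PSt.loc i, Function.update pos i (q + ((i : ℕ) * 2 ^ m + (j + v)) * blockLen m l ga),
          st⟩ := by
  intro v
  induction v with
  | zero =>
    intro j pos _ hpos
    have e0 : q + ((i : ℕ) * 2 ^ m + (j + 0)) * blockLen m l ga = pos i := hpos.symm
    rw [e0, Function.update_eq_self]
    exact Relation.ReflTransGen.refl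
  | succ v ih =>
    intro j pos hj hpos
    have hb := blockLen_pos m l ga
    have hf : tape w (pos i) = Sym.letter (Lt.b i) := by
      rw [hpos]
      exact first hB h i j (by omega)
    have h1 := unit i (List.replicate v true ++ st) pos hf
    have h2 := skip (w := w) i (List.replicate v true ++ st) (blockLen m l ga - 1)
      (Function.update pos i (pos i + 1)) (by
        rw [Function.update_self]
        intro o ho1 ho2
        obtain ⟨a, ha, ha'⟩ := rest hB h i j (by omega) (o - pos i) (by omega) (by omega)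
        rw [← hpos] at ha
        have e : pos i + (o - pos i) = o := by omega
        rw [e] at ha
        exact ⟨a, ha, ha' i⟩)
    rw [Function.update_idem, Function.update_self] at h2
    have e1 : pos i + 1 + (blockLen m l ga - 1) =
        q + ((i : ℕ) * 2 ^ m + (j + 1)) * blockLen m l ga := by
      have e2 : q + ((i : ℕ) * 2 ^ m + (j + 1)) * blockLen m l ga =
          q + ((i : ℕ) * 2 ^ m + j) * blockLen m l ga + blockLen m l ga := by ring
      rw [e2, hpos]
      omega
    rw [e1] at h2
    have h3 := ih (j + 1)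
      (Function.update pos i (q + ((i : ℕ) * 2 ^ m + (j + 1)) * blockLen m l ga))
      (by omega) (by rw [Function.update_self])
    rw [Function.update_idem] at h3
    have e3 : j + 1 + v = j + (v + 1) := by omega
    rw [e3] at h3
    have e4 : List.replicate (v + 1) true ++ st = true :: (List.replicate v true ++ st) := by
      rw [List.replicate_succ, List.cons_append]
    rw [e4]
    exact (h1.trans h2).trans h3

/-- The numbers on the stack as a function on the natural numbers. -/
def G {r m : ℕ} (a : Fin r → Idx m) (k : ℕ) : List Bool :=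
  if h : k < r then List.replicate (val (a ⟨k, h⟩)) true ++ [false] else []

lemma stk_eq {r m : ℕ} (a : Fin r → Idx m) : stk a = (List.range r).reverse.flatMap (G a) := by
  have h1 : (List.range r).reverse = (List.finRange r).reverse.map (fun i : Fin r => (i : ℕ)) := by
    rw [List.map_reverse]
    congr 1
    exact (List.map_coe_finRange_eq_range).symm
  rw [h1, List.flatMap_map]
  unfold stk
  congr 1
  funext i
  simp [G]

/-- The heads `n, …, 0` go to their blocks. -/
lemma all {m l ga : ℕ} (hB : ∀ (i : Fin (p + 1)) (c : Blk m l),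
    (blockW ga i c).length = blockLen m l ga) (hv : ∀ f : Idx m, val f < 2 ^ m) {q : ℕ}
    {D : Fin (p + 1) → Idx m → Blk m l} (h : At w q (listsW ga D)) (a : Fin (p + 1) → Idx m)
    (st : List Bool) : ∀ (n : ℕ) (hn : n < p + 1) (pos : Fin (p + 1) → ℕ),
      (∀ j : Fin (p + 1), (j : ℕ) ≤ n → pos j = q) →
      (∀ j : Fin (p + 1), n < (j : ℕ) →
        pos j = q + ((j : ℕ) * 2 ^ m + val (a j)) * blockLen m l ga) →
      Star p w ⟨PSt.loc ⟨n, hn⟩, pos, (List.range (n + 1)).reverse.flatMap (G a) ++ st⟩
        ⟨PSt.ev0, fun i => q + ((i : ℕ) * 2 ^ m + val (a i)) * blockLen m l ga, st⟩ := by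
  intro n
  induction n with
  | zero =>
    intro hn pos h1 h2
    have h0 : pos ⟨0, hn⟩ = q := h1 _ le_rfl
    have s1 := units (w := w) hB h ⟨0, hn⟩ (false :: st) (val (a ⟨0, hn⟩)) 0 pos
      (by have := hv (a ⟨0, hn⟩); omega) (by rw [h0]; simp)
    have s2 := mark (w := w) ⟨0, hn⟩ st
      (Function.update pos ⟨0, hn⟩ (q + (((⟨0, hn⟩ : Fin (p + 1)) : ℕ) * 2 ^ m +
        (0 + val (a ⟨0, hn⟩))) * blockLen m l ga))
      (by
        rw [Function.update_self, Nat.zero_add]
        exact first hB h ⟨0, hn⟩ _ (hv _))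
    have e1 : (List.range (0 + 1)).reverse.flatMap (G a) ++ st =
        List.replicate (val (a ⟨0, hn⟩)) true ++ false :: st := by
      simp [G]
    have e2 : nxt (⟨0, hn⟩ : Fin (p + 1)) = PSt.ev0 := by simp [nxt]
    have e3 : Function.update pos ⟨0, hn⟩ (q + (((⟨0, hn⟩ : Fin (p + 1)) : ℕ) * 2 ^ m +
        (0 + val (a ⟨0, hn⟩))) * blockLen m l ga) =
        fun i : Fin (p + 1) => q + ((i : ℕ) * 2 ^ m + val (a i)) * blockLen m l ga := by
      funext j
      by_cases hj : j = ⟨0, hn⟩
      · subst hj
        rw [Function.update_self, Nat.zero_add]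
      · rw [Function.update_of_ne hj]
        apply h2
        rcases Nat.eq_zero_or_pos (j : ℕ) with h3 | h3
        · exact absurd (Fin.ext h3) hj
        · exact h3
    rw [e2, e3] at s2
    rw [e3] at s1
    rw [e1]
    exact s1.trans s2
  | succ n ih =>
    intro hn pos h1 h2
    have h0 : pos ⟨n + 1, hn⟩ = q := h1 _ le_rfl
    have s0 := skip (w := w) ⟨n + 1, hn⟩
      (List.replicate (val (a ⟨n + 1, hn⟩)) true ++
        false :: ((List.range (n + 1)).reverse.flatMap (G a) ++ st))
      ((n + 1) * 2 ^ m * blockLen m l ga) pos (by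
        rw [h0]
        intro o ho1 ho2
        exact before hB h ⟨n + 1, hn⟩ o ho1 ho2)
    rw [h0] at s0
    have s1 := units (w := w) hB h ⟨n + 1, hn⟩
      (false :: ((List.range (n + 1)).reverse.flatMap (G a) ++ st)) (val (a ⟨n + 1, hn⟩)) 0
      (Function.update pos ⟨n + 1, hn⟩ (q + (n + 1) * 2 ^ m * blockLen m l ga))
      (by have := hv (a ⟨n + 1, hn⟩); omega) (by rw [Function.update_self]; simp)
    rw [Function.update_idem, Nat.zero_add] at s1
    have s2 := mark (w := w) ⟨n + 1, hn⟩ ((List.range (n + 1)).reverse.flatMap (G a) ++ st)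
      (Function.update pos ⟨n + 1, hn⟩ (q + (((⟨n + 1, hn⟩ : Fin (p + 1)) : ℕ) * 2 ^ m +
        val (a ⟨n + 1, hn⟩)) * blockLen m l ga))
      (by
        rw [Function.update_self]
        exact first hB h ⟨n + 1, hn⟩ _ (hv _))
    have e1 : (List.range (n + 1 + 1)).reverse.flatMap (G a) ++ st =
        List.replicate (val (a ⟨n + 1, hn⟩)) true ++
          false :: ((List.range (n + 1)).reverse.flatMap (G a) ++ st) := by
      rw [List.range_succ (n := n + 1), List.reverse_append]
      simp [G, hn]
    have hn' : n < p + 1 := by omega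
    have e2 : nxt (⟨n + 1, hn⟩ : Fin (p + 1)) = PSt.loc ⟨n, hn'⟩ := by simp [nxt]
    rw [e2] at s2
    have s3 := ih hn' (Function.update pos ⟨n + 1, hn⟩
      (q + (((⟨n + 1, hn⟩ : Fin (p + 1)) : ℕ) * 2 ^ m +
        val (a ⟨n + 1, hn⟩)) * blockLen m l ga))
      (by
        intro j hj
        have hne : j ≠ ⟨n + 1, hn⟩ := by
          rintro rfl
          simp at hj
        rw [Function.update_of_ne hne]
        exact h1 j (by omega))
      (by
        intro j hj
        by_cases hne : j = ⟨n + 1, hn⟩
        · subst hne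
          rw [Function.update_self]
        · rw [Function.update_of_ne hne]
          apply h2
          have h4 : (j : ℕ) ≠ n + 1 := fun h5 => hne (Fin.ext h5)
          omega)
    rw [e1]
    exact ((s0.trans s1).trans s2).trans s3

end PLOCx

theorem t_PLOC (hDIG : DIG_Stmt) (hLEN : LEN_Stmt) : PLOC_Stmt := by
  intro p m l ga w q D a st hat
  obtain ⟨hd1, -, -, -, -⟩ := hDIG
  obtain ⟨hB, -, -, -⟩ := hLEN (p + 1) m l ga
  rw [PLOCx.stk_eq]
  exact PLOCx.all hB (hd1 m) hat a st p (Nat.lt_succ_self p) (fun _ => q) (fun _ _ => rfl)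
    (fun j hj => absurd j.isLt (by omega))

end Pool.Agent.NQ2
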