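import Pool.Agent.NQ2.StP

/-!
Project NQ2 (MP_5e85fc_lc), module PREG: one node.
-/

set_option autoImplicit false

namespace Pool.Agent.NQ2.PREGx

open Pool.Agent.Heads Pool.Agent.NQ2

lemma tape_le {α : Type} {w : List α} {q : ℕ} {a : α} (h : tape w q = Sym.letter a) :
    q ≤ w.length := by
  cases q with
  | zero => exact Nat.zero_le _
  | succ n =>
    by_contra hn
    have h1 : w[n]? = none := by
      rw [List.getElem?_eq_none_iff]; omega
    simp [tape, h1] at h

lemma at_app {α : Type} {w : List α} {q : ℕ} {u v : List α} (h : At w q (u ++ v)) :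
    At w q u ∧ At w (q + u.length) v := by
  constructor
  · intro o ho
    have h1 := h o (by rw [List.length_append]; omega)
    rw [h1, List.getElem_append_left ho]
  · intro o ho
    have h1 := h (u.length + o) (by rw [List.length_append]; omega)
    rw [Nat.add_assoc, h1, List.getElem_append_right (by omega)]
    simp

lemma at_fm {α β : Type} {w : List α} (g : β → List α) (L : ℕ) (hL : ∀ b, (g b).length = L) :
    ∀ (l : List β) (q : ℕ), At w q (l.flatMap g) → ∀ (j : ℕ) (hj : j < l.length),
      At w (q + j * L) (g l[j]) := by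
  intro l
  induction l with
  | nil => intro q _ j hj; exact absurd hj (by simp)
  | cons b l ih =>
    intro q h j hj
    rw [List.flatMap_cons] at h
    obtain ⟨h1, h2⟩ := at_app h
    cases j with
    | zero => simpa using h1
    | succ j =>
      rw [hL] at h2
      have h3 := ih (q + L) h2 j (by simpa using hj)
      have e : q + (j + 1) * L = q + L + j * L := by ring
      rw [e]
      simpa using h3

lemma len_inner {r m l ga : ℕ} (hB : ∀ (i : Fin r) (c : Blk m l),
    (blockW ga i c).length = blockLen m l ga) (D : Fin r → Idx m → Blk m l) (i : Fin r) :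
    ((List.range (2 ^ m)).flatMap fun j => blockW ga i (D i (bitsOf m j))).length =
      2 ^ m * blockLen m l ga := by
  rw [List.length_flatMap]
  simp [hB]

/-- Block number `j` of the list `i`. -/
lemma at_block {r m l ga : ℕ} (hB : ∀ (i : Fin r) (c : Blk m l),
    (blockW ga i c).length = blockLen m l ga) {w : List (Lt r)} {q : ℕ}
    {D : Fin r → Idx m → Blk m l} (h : At w q (listsW ga D)) (i : Fin r) (j : ℕ) (hj : j < 2 ^ m) :
    At w (q + ((i : ℕ) * 2 ^ m + j) * blockLen m l ga) (blockW ga i (D i (bitsOf m j))) := by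
  have h1 := at_fm (fun i : Fin r =>
    (List.range (2 ^ m)).flatMap fun j => blockW ga i (D i (bitsOf m j)))
    (2 ^ m * blockLen m l ga) (fun i => len_inner hB D i) (List.finRange r) q h (i : ℕ)
    (by simp)
  have h2 := at_fm (fun j => blockW ga i (D i (bitsOf m j))) (blockLen m l ga)
    (fun j => hB i _) (List.range (2 ^ m)) (q + (i : ℕ) * (2 ^ m * blockLen m l ga))
    (by simpa using h1) j (by simpa using hj)
  have e : q + ((i : ℕ) * 2 ^ m + j) * blockLen m l ga =
      q + (i : ℕ) * (2 ^ m * blockLen m l ga) + j * blockLen m l ga := by ring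
  rw [e]
  simpa using h2

/-- The letters of the lists are neither `z` nor `nd`. -/
lemma mem_lists {r m l ga : ℕ} {D : Fin r → Idx m → Blk m l} {x : Lt r}
    (hx : x ∈ listsW ga D) : x ≠ Lt.z ∧ x ≠ Lt.nd := by
  simp only [listsW, List.mem_flatMap, blockW, rowW, List.mem_cons, List.mem_append,
    List.mem_replicate, List.mem_ofFn] at hx
  obtain ⟨i, -, j, -, hx⟩ := hx
  rcases hx with rfl | ⟨-, rfl⟩ | ⟨b, -, ⟨t, rfl⟩ | rfl | ⟨-, rfl⟩⟩ <;> exact ⟨nofun, nofun⟩

lemma mul_step {A B M : ℕ} (h : A < M) : A * B + B ≤ M * B := by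
  calc A * B + B = (A + 1) * B := by ring
    _ ≤ M * B := Nat.mul_le_mul_right _ h

end Pool.Agent.NQ2.PREGx

namespace Pool.Agent.NQ2

open Pool.Agent.Heads PREGx

theorem t_PREG (hDIG : DIG_Stmt) (hLEN : LEN_Stmt) (hBLK : PBLK_Stmt) (hLOC : PLOC_Stmt)
    (hSYN : PSYN_Stmt) : PREG_Stmt := by
  intro p m l ga w q q' D a f st hp hat hnx
  obtain ⟨hd1, hd2, -, -, -⟩ := hDIG
  obtain ⟨hB, hR, -, -⟩ := hLEN (p + 1) m l ga
  have hreg : regionW ga D = [Lt.nd] ++ listsW ga D := rfl
  have hlen : (listsW ga D).length + 1 = regionLen (p + 1) m l ga := by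
    rw [← hR D, hreg, List.length_append]; simp [Nat.add_comm]
  rw [hreg] at hat
  obtain ⟨hat1, hat2⟩ := at_app hat
  have hq : tape w q = Sym.letter Lt.nd := by
    have := hat1 0 (by simp)
    simpa using this
  have hqle := tape_le hq
  have hat2' : At w (q + 1) (listsW ga D) := by simpa using hat2
  -- the first step
  have s1 : Star p w ⟨PSt.main f, fun _ => q, stk a ++ st⟩
      ⟨PSt.loc (Fin.last p), fun _ => q + 1, stk a ++ st⟩ := by
    refine Relation.ReflTransGen.single ⟨(PSt.loc (Fin.last p), allR, Op.none), ?_, ?_⟩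
    · show pstep (PSt.main f) _ _ = _
      simp [pstep, hq]
      rfl
    · simp [allR, move, Op.apply, hqle]
      rfl
  have s2 := hLOC p m l ga w (q + 1) D a st hat2'
  have s3 := hBLK p m l ga w
    (fun i => q + 1 + ((i : ℕ) * 2 ^ m + val (a i)) * blockLen m l ga) (fun i => D i (a i)) st
    (by
      intro i
      have := at_block hB hat2' i (val (a i)) (hd1 m (a i))
      rwa [hd2 m (a i)] at this)
  -- the head `0` scans a letter `b`
  have hb0 : ∃ i : Fin (p + 1), tape w (q + 1 + (((0 : Fin (p + 1)) : ℕ) * 2 ^ m + val (a 0)) *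
      blockLen m l ga + blockLen m l ga) = Sym.letter (Lt.b i) := by
    have hv := hd1 m (a 0)
    have key : ∀ (i : Fin (p + 1)) (j : ℕ), j < 2 ^ m → (i : ℕ) * 2 ^ m + j = val (a 0) + 1 →
        tape w (q + 1 + (((0 : Fin (p + 1)) : ℕ) * 2 ^ m + val (a 0)) *
          blockLen m l ga + blockLen m l ga) = Sym.letter (Lt.b i) := by
      intro i j hj hij
      have h1 := at_block hB hat2' i j hj 0 (by rw [hB]; simp [blockLen])
      rw [hij] at h1
      have e : q + 1 + (((0 : Fin (p + 1)) : ℕ) * 2 ^ m + val (a 0)) *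
          blockLen m l ga + blockLen m l ga = q + 1 + (val (a 0) + 1) * blockLen m l ga + 0 := by
        simp only [Fin.val_zero]; ring
      rw [e, h1]
      simp [blockW]
    rcases Nat.lt_or_ge (val (a 0) + 1) (2 ^ m) with h | h
    · exact ⟨0, key 0 (val (a 0) + 1) h (by simp)⟩
    · refine ⟨⟨1, by omega⟩, key ⟨1, by omega⟩ 0 (by positivity) ?_⟩
      simp only [one_mul]; omega
  have s4 : Star p w
      ⟨PSt.ev (topd (gdig fun i => D i (a i))) false,
        fun i => q + 1 + ((i : ℕ) * 2 ^ m + val (a i)) * blockLen m l ga + blockLen m l ga,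
        List.replicate (val (gdig fun i => D i (a i))) true ++ false :: st⟩
      ⟨PSt.sync 0 (topd (gdig fun i => D i (a i))),
        fun i => q + 1 + ((i : ℕ) * 2 ^ m + val (a i)) * blockLen m l ga + blockLen m l ga,
        List.replicate (val (gdig fun i => D i (a i))) true ++ false :: st⟩ := by
    obtain ⟨i0, hi0⟩ := hb0
    refine Relation.ReflTransGen.single
      ⟨(PSt.sync 0 (topd (gdig fun i => D i (a i))), allS, Op.none), ?_, ?_⟩
    · show pstep (PSt.ev _ false) _ _ = _
      have t1 : ¬ ∀ i : Fin (p + 1), tape w (q + 1 + ((i : ℕ) * 2 ^ m + val (a i)) *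
          blockLen m l ga + blockLen m l ga) = Sym.letter Lt.fill := by
        intro h; have := (h 0).symm.trans hi0; simp at this
      have t2 : ¬ ∀ i : Fin (p + 1), ∃ v, tape w (q + 1 + ((i : ℕ) * 2 ^ m + val (a i)) *
          blockLen m l ga + blockLen m l ga) = Sym.letter (Lt.bit v) := by
        intro h; obtain ⟨v, hv⟩ := h 0; have := hv.symm.trans hi0; simp at this
      have t3 : ¬ ∀ i : Fin (p + 1), tape w (q + 1 + ((i : ℕ) * 2 ^ m + val (a i)) *
          blockLen m l ga + blockLen m l ga) = Sym.letter Lt.s := by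
        intro h; have := (h 0).symm.trans hi0; simp at this
      have t4 : ¬ ∀ i : Fin (p + 1), tape w (q + 1 + ((i : ℕ) * 2 ^ m + val (a i)) *
          blockLen m l ga + blockLen m l ga) = Sym.letter Lt.pad := by
        intro h; have := (h 0).symm.trans hi0; simp at this
      unfold pstep
      simp only [t1, t2, t3, t4, if_false]
      rfl
    · simp [allS, move, Op.apply]
      rfl
  -- the numbers
  have hbnd : ∀ i : Fin (p + 1), q + 1 + ((i : ℕ) * 2 ^ m + val (a i)) * blockLen m l ga +
      blockLen m l ga ≤ q + regionLen (p + 1) m l ga := by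
    intro i
    have h1 : (i : ℕ) * 2 ^ m + val (a i) < (p + 1) * 2 ^ m := by
      have h2 := mul_step (B := 2 ^ m) i.isLt
      have h3 := hd1 m (a i)
      omega
    have h4 := mul_step (B := blockLen m l ga) h1
    have e : regionLen (p + 1) m l ga = 1 + (p + 1) * 2 ^ m * blockLen m l ga := by
      unfold regionLen; ring
    rw [e]; omega
  obtain ⟨hn1, hn2, hn3⟩ := hnx
  have s5 := hSYN p w
    (fun i => q + 1 + ((i : ℕ) * 2 ^ m + val (a i)) * blockLen m l ga + blockLen m l ga) q'
    (topd (gdig fun i => D i (a i)))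
    (List.replicate (val (gdig fun i => D i (a i))) true ++ false :: st)
    (fun i => (hbnd i).trans hn1)
    (by
      intro i o h1 h2
      rcases Nat.lt_or_ge o (q + regionLen (p + 1) m l ga) with h | h
      · have h1' : q + 1 ≤ o := by
          have : q + 1 ≤ q + 1 + ((i : ℕ) * 2 ^ m + val (a i)) * blockLen m l ga +
            blockLen m l ga := by omega
          exact this.trans h1
        have h3 := hat2' (o - (q + 1)) (by omega)
        have e : q + 1 + (o - (q + 1)) = o := by omega
        rw [e] at h3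
        exact ⟨_, h3, mem_lists (List.getElem_mem _)⟩
      · exact ⟨Lt.fill, hn2 o h h2, nofun, nofun⟩)
    hn3
  exact (((s1.trans s2).trans s3).trans s4).trans s5

end Pool.Agent.NQ2
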