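import Pool.Agent.NQ2.StP

/-!
Project NQ2, module PROW: all heads read one row.
-/

set_option autoImplicit false

namespace Pool.Agent.NQ2

open Pool.Agent.Heads

namespace PROWx

variable {p : ℕ} {w : List (Lt (p + 1))}

/-- A step of the automaton. -/
lemma step_of {q : PSt (p + 1)} {pos : Fin (p + 1) → ℕ} {st : List Bool}
    {t : PSt (p + 1) × (Fin (p + 1) → Dir) × Op Bool}
    (h : pstep q (fun i => tape w (pos i)) st.head? = some t) :
    (pdaM p).Step w ⟨q, pos, st⟩
      ⟨t.1, fun i => move (w.length + 1) (pos i) (t.2.1 i), t.2.2.apply st⟩ :=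
  ⟨t, h, rfl⟩

/-- A cell with a letter is one of the first `|w|` cells. -/
lemma le_of_letter {q : ℕ} {a : Lt (p + 1)} (h : tape w q = Sym.letter a) : q ≤ w.length := by
  rcases q with _ | q
  · exact Nat.zero_le _
  · by_contra hq
    have h1 : w[q]? = none := by
      rw [List.getElem?_eq_none_iff]
      omega
    simp [tape, h1] at h

/-- All heads move right. -/
lemma move_all {pos : Fin (p + 1) → ℕ} {a : Fin (p + 1) → Lt (p + 1)}
    (h : ∀ i, tape w (pos i) = Sym.letter (a i)) :
    (fun i => move (w.length + 1) (pos i) ((allR : Fin (p + 1) → Dir) i)) =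
      fun i => pos i + 1 := by
  funext i
  have := le_of_letter (h i)
  simp [allR, move, this]

/-- All heads read a bit. -/
lemma step_bit (f c : Bool) (v : Fin (p + 1) → Bool) (pos : Fin (p + 1) → ℕ) (st : List Bool)
    (h : ∀ i, tape w (pos i) = Sym.letter (Lt.bit (v i))) :
    (pdaM p).Step w ⟨PSt.ev f c, pos, st⟩
      ⟨PSt.ev f (xor c (decide (∀ i, v i = true))), fun i => pos i + 1, st⟩ := by
  have key : pstep (PSt.ev f c) (fun j => tape w (pos j)) st.head? =
      some (PSt.ev f (xor c (decide (∀ i, v i = true))), allR, Op.none) := by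
    have h1 : ¬ ∀ i, tape w (pos i) = Sym.letter Lt.fill := by
      intro h2
      have h3 := (h 0).symm.trans (h2 0)
      simp at h3
    have h2 : ∀ i, ∃ v, tape w (pos i) = Sym.letter (Lt.bit v) := fun i => ⟨v i, h i⟩
    have h3 : (∀ i, tape w (pos i) = Sym.letter (Lt.bit true)) ↔ ∀ i, v i = true := by
      constructor
      · intro h4 i
        have h5 := (h i).symm.trans (h4 i)
        simpa using h5
      · intro h4 i
        rw [h i, h4 i]
    simp only [pstep]
    rw [if_neg h1, if_pos h2]
    simp only [h3]
  have h1 := step_of key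
  rw [move_all h] at h1
  exact h1

/-- All heads read the letter `s`. -/
lemma step_s (f c : Bool) (pos : Fin (p + 1) → ℕ) (st : List Bool)
    (h : ∀ i, tape w (pos i) = Sym.letter Lt.s) :
    (pdaM p).Step w ⟨PSt.ev f c, pos, st⟩ ⟨PSt.ev c false, fun i => pos i + 1, st⟩ := by
  have key : pstep (PSt.ev f c) (fun j => tape w (pos j)) st.head? =
      some (PSt.ev c false, allR, Op.none) := by
    have h1 : ¬ ∀ i, tape w (pos i) = Sym.letter Lt.fill := by
      intro h2
      have h3 := (h 0).symm.trans (h2 0)
      simp at h3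
    have h2 : ¬ ∀ i, ∃ v, tape w (pos i) = Sym.letter (Lt.bit v) := by
      intro h2
      obtain ⟨v, hv⟩ := h2 0
      have h3 := (h 0).symm.trans hv
      simp at h3
    simp only [pstep]
    rw [if_neg h1, if_neg h2, if_pos h]
  have h1 := step_of key
  rw [move_all h] at h1
  exact h1

/-- All heads read the letter `pad`. -/
lemma step_pad (f c : Bool) (pos : Fin (p + 1) → ℕ) (st : List Bool)
    (h : ∀ i, tape w (pos i) = Sym.letter Lt.pad) :
    (pdaM p).Step w ⟨PSt.ev f c, pos, st⟩
      ⟨PSt.ev f c, fun i => pos i + 1, (if f = true then [true] else []) ++ st⟩ := by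
  have key : pstep (PSt.ev f c) (fun j => tape w (pos j)) st.head? =
      some (PSt.ev f c, allR, if f = true then Op.push true else Op.none) := by
    have h1 : ¬ ∀ i, tape w (pos i) = Sym.letter Lt.fill := by
      intro h2
      have h3 := (h 0).symm.trans (h2 0)
      simp at h3
    have h2 : ¬ ∀ i, ∃ v, tape w (pos i) = Sym.letter (Lt.bit v) := by
      intro h2
      obtain ⟨v, hv⟩ := h2 0
      have h3 := (h 0).symm.trans hv
      simp at h3
    have h3 : ¬ ∀ i, tape w (pos i) = Sym.letter Lt.s := by
      intro h2
      have h3 := (h 0).symm.trans (h2 0)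
      simp at h3
    simp only [pstep]
    rw [if_neg h1, if_neg h2, if_neg h3, if_pos h]
  have h1 := step_of key
  rw [move_all h] at h1
  cases f with
  | false => exact h1
  | true => exact h1

/-- The pads. -/
lemma pads (f c : Bool) : ∀ (n : ℕ) (pos : Fin (p + 1) → ℕ) (st : List Bool),
    (∀ i, ∀ o < n, tape w (pos i + o) = Sym.letter Lt.pad) →
    Star p w ⟨PSt.ev f c, pos, st⟩
      ⟨PSt.ev f c, fun i => pos i + n, (if f = true then List.replicate n true else []) ++ st⟩ := by
  intro n
  induction n with
  | zero =>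
    intro pos st h
    have h1 : (if f = true then List.replicate 0 true else []) ++ st = st := by
      cases f <;> rfl
    rw [h1]
    exact Relation.ReflTransGen.refl
  | succ n ih =>
    intro pos st h
    have h1 := step_pad (w := w) f c pos st (fun i => h i 0 (Nat.succ_pos n))
    refine Relation.ReflTransGen.head h1 ?_
    have h2 := ih (fun i => pos i + 1) ((if f = true then [true] else []) ++ st) (by
      intro i o ho
      have h3 := h i (o + 1) (by omega)
      rw [← h3]
      congr 1
      omega)
    have h3 : (fun i => pos i + 1 + n) = fun i => pos i + (n + 1) := by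
      funext i
      omega
    have h4 : (if f = true then List.replicate n true else []) ++
        ((if f = true then [true] else []) ++ st) =
        (if f = true then List.replicate (n + 1) true else []) ++ st := by
      cases f with
      | false => rfl
      | true =>
        simp only [if_true]
        rw [← List.append_assoc, List.replicate_succ']
    rw [h3, h4] at h2
    exact h2

/-- The parity of the number of the first `j` columns with all bits `true`. -/
def par {r l : ℕ} (c : Fin r → Fin l → Bool) (j : ℕ) : Bool :=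
  decide (Odd (Finset.univ.filter fun t : Fin l => (t : ℕ) < j ∧ ∀ i, c i t = true).card)

lemma par_zero {r l : ℕ} (c : Fin r → Fin l → Bool) : par c 0 = false := by
  simp [par]

lemma par_last {r l : ℕ} (c : Fin r → Fin l → Bool) :
    par c l = decide (Odd (Finset.univ.filter fun t : Fin l => ∀ i, c i t = true).card) := by
  have h : (Finset.univ.filter fun t : Fin l => (t : ℕ) < l ∧ ∀ i, c i t = true) =
      Finset.univ.filter fun t : Fin l => ∀ i, c i t = true := by
    ext t
    simp
  rw [par, h]

lemma par_succ {r l : ℕ} (c : Fin r → Fin l → Bool) (j : ℕ) (hj : j < l) :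
    par c (j + 1) = xor (par c j) (decide (∀ i, c i ⟨j, hj⟩ = true)) := by
  by_cases h : ∀ i, c i ⟨j, hj⟩ = true
  · have h1 : (Finset.univ.filter fun t : Fin l => (t : ℕ) < j + 1 ∧ ∀ i, c i t = true) =
        insert (⟨j, hj⟩ : Fin l)
          (Finset.univ.filter fun t : Fin l => (t : ℕ) < j ∧ ∀ i, c i t = true) := by
      ext t
      simp only [Finset.mem_filter, Finset.mem_univ, true_and, Finset.mem_insert]
      constructor
      · rintro ⟨h2, h3⟩
        by_cases h4 : (t : ℕ) = j
        · exact Or.inl (Fin.ext h4)
        · exact Or.inr ⟨by omega, h3⟩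
      · rintro (h2 | h2)
        · subst h2
          exact ⟨Nat.lt_succ_self j, h⟩
        · exact ⟨by omega, h2.2⟩
    have h2 : (⟨j, hj⟩ : Fin l) ∉
        (Finset.univ.filter fun t : Fin l => (t : ℕ) < j ∧ ∀ i, c i t = true) := by
      simp
    have h3 : decide (∀ i, c i ⟨j, hj⟩ = true) = true := decide_eq_true h
    rw [h3, Bool.xor_true, par, par, h1, Finset.card_insert_of_notMem h2, ← decide_not,
      decide_eq_decide, Nat.odd_add_one]
  · have h1 : (Finset.univ.filter fun t : Fin l => (t : ℕ) < j + 1 ∧ ∀ i, c i t = true) =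
        (Finset.univ.filter fun t : Fin l => (t : ℕ) < j ∧ ∀ i, c i t = true) := by
      ext t
      simp only [Finset.mem_filter, Finset.mem_univ, true_and]
      constructor
      · rintro ⟨h2, h3⟩
        refine ⟨?_, h3⟩
        by_contra h4
        have h5 : (t : ℕ) = j := by omega
        have h6 : t = ⟨j, hj⟩ := Fin.ext h5
        rw [h6] at h3
        exact h h3
      · rintro ⟨h2, h3⟩
        exact ⟨by omega, h3⟩
    have h3 : decide (∀ i, c i ⟨j, hj⟩ = true) = false := decide_eq_false h
    rw [h3, Bool.xor_false, par, par, h1]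

/-- The bits. -/
lemma bits {l : ℕ} (c : Fin (p + 1) → Fin l → Bool) (f : Bool) (pos : Fin (p + 1) → ℕ)
    (st : List Bool)
    (h : ∀ i, ∀ (o : ℕ) (ho : o < l), tape w (pos i + o) = Sym.letter (Lt.bit (c i ⟨o, ho⟩))) :
    ∀ j ≤ l, Star p w ⟨PSt.ev f false, pos, st⟩ ⟨PSt.ev f (par c j), fun i => pos i + j, st⟩ := by
  intro j
  induction j with
  | zero =>
    intro _
    rw [par_zero]
    exact Relation.ReflTransGen.refl
  | succ j ih =>
    intro hj
    refine Relation.ReflTransGen.tail (ih (by omega)) ?_
    have h1 := step_bit (w := w) f (par c j) (fun i => c i ⟨j, by omega⟩) (fun i => pos i + j) st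
      (fun i => h i j (by omega))
    rw [← par_succ] at h1
    exact h1

/-- The letters of a row. -/
lemma row_len {r l : ℕ} (b : ℕ) (f : Fin l → Bool) :
    (rowW (r := r) b f).length = l + 1 + 2 ^ b := by
  simp [rowW]
  omega

lemma row_bit {r l : ℕ} (b : ℕ) (f : Fin l → Bool) (o : ℕ) (ho : o < l)
    (h : o < (rowW (r := r) b f).length) : (rowW (r := r) b f)[o] = Lt.bit (f ⟨o, ho⟩) := by
  simp only [rowW]
  rw [List.getElem_append_left (by simpa using ho)]
  simp

lemma row_s {r l : ℕ} (b : ℕ) (f : Fin l → Bool)
    (h : l < (rowW (r := r) b f).length) : (rowW (r := r) b f)[l] = Lt.s := by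
  simp only [rowW]
  rw [List.getElem_append_right (by simp)]
  simp

lemma row_pad {r l : ℕ} (b : ℕ) (f : Fin l → Bool) (o : ℕ)
    (h : l + 1 + o < (rowW (r := r) b f).length) :
    (rowW (r := r) b f)[l + 1 + o] = Lt.pad := by
  simp only [rowW]
  rw [List.getElem_append_right (by simp; omega)]
  have h1 : l + 1 + o - (List.ofFn fun t => (Lt.bit (f t) : Lt r)).length = o + 1 := by
    simp
    omega
  simp only [h1, List.getElem_cons_succ, List.getElem_replicate]

end PROWx

theorem t_PROW : PROW_Stmt := by
  intro p l b w pos c f st h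
  have h1 : ∀ i, ∀ (o : ℕ) (ho : o < l),
      tape w (pos i + o) = Sym.letter (Lt.bit (c i ⟨o, ho⟩)) := by
    intro i o ho
    have h2 : o < (rowW (r := p + 1) b (c i)).length := by
      rw [PROWx.row_len]
      have hb : 0 < 2 ^ b := Nat.two_pow_pos b
      omega
    rw [h i o h2, PROWx.row_bit b (c i) o ho]
  have h2 : ∀ i, tape w (pos i + l) = Sym.letter Lt.s := by
    intro i
    have h3 : l < (rowW (r := p + 1) b (c i)).length := by
      rw [PROWx.row_len]
      have hb : 0 < 2 ^ b := Nat.two_pow_pos b
      omega
    rw [h i l h3, PROWx.row_s]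
  have h3 : ∀ i, ∀ o < 2 ^ b, tape w (pos i + l + 1 + o) = Sym.letter Lt.pad := by
    intro i o ho
    have h4 : l + 1 + o < (rowW (r := p + 1) b (c i)).length := by
      rw [PROWx.row_len]
      omega
    have h5 := h i (l + 1 + o) h4
    rw [PROWx.row_pad] at h5
    rw [← h5]
    congr 1
    omega
  have h4 := PROWx.bits c f pos st h1 l le_rfl
  have h5 := PROWx.step_s (w := w) f (PROWx.par c l) (fun i => pos i + l) st h2
  have h6 := PROWx.pads (w := w) (PROWx.par c l) false (2 ^ b) (fun i => pos i + l + 1) st h3
  have h7 := (h4.tail h5).trans h6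
  rw [PROWx.par_last] at h7
  have h8 : (fun i => pos i + l + 1 + 2 ^ b) = fun i => pos i + (l + 1 + 2 ^ b) := by
    funext i
    omega
  simp only [decide_eq_true_eq] at h7
  rw [h8] at h7
  exact h7

end Pool.Agent.NQ2
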