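import Pool.Agent.NQ2.StP

/-!
Project NQ2, module PSYN: all heads go to the next item.
-/

set_option autoImplicit false

namespace Pool.Agent.NQ2

open Pool.Agent.Heads

namespace PSYNx

variable {p : ℕ} {w : List (Lt (p + 1))}

/-- A step of the automaton. -/
lemma step_of {q : PSt (p + 1)} {pos : Fin (p + 1) → ℕ} {st : List Bool}
    {t : PSt (p + 1) × (Fin (p + 1) → Dir) × Op Bool}
    (h : pstep q (fun i => tape w (pos i)) st.head? = some t) :
    (pdaM p).Step w ⟨q, pos, st⟩
      ⟨t.1, fun i => move (w.length + 1) (pos i) (t.2.1 i), t.2.2.apply st⟩ :=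
  ⟨t, h, rfl⟩

/-- A cell with a letter is one of the first `|w|` cells. -/
lemma le_of_letter {q : ℕ} {a : Lt (p + 1)} (h : tape w q = Sym.letter a) : q ≤ w.length := by
  rcases q with _ | q
  · exact Nat.zero_le _
  · by_contra hq
    have h1 : w[q]? = none := by
      rw [List.getElem?_eq_none_iff]
      omega
    simp [tape, h1] at h

/-- The state after the synchronisation of the head `i`. -/
noncomputable def nxt (i : Fin (p + 1)) (f : Bool) : PSt (p + 1) :=
  if h : (i : ℕ) < p then PSt.sync ⟨(i : ℕ) + 1, by omega⟩ f else PSt.main f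

/-- One head goes to the next item. -/
lemma one (i : Fin (p + 1)) (f : Bool) (st : List Bool) (q' : ℕ)
    (hq' : tape w q' = Sym.letter Lt.z ∨ tape w q' = Sym.letter Lt.nd ∨ tape w q' = Sym.right) :
    ∀ (n : ℕ) (pos : Fin (p + 1) → ℕ), pos i + n = q' →
      (∀ o, pos i ≤ o → o < q' →
        ∃ a : Lt (p + 1), tape w o = Sym.letter a ∧ a ≠ Lt.z ∧ a ≠ Lt.nd) →
      Star p w ⟨PSt.sync i f, pos, st⟩ ⟨nxt i f, Function.update pos i q', st⟩ := by
  intro n
  induction n with
  | zero =>
    intro pos hn hl
    have hn' : pos i = q' := hn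
    have hpos : Function.update pos i q' = pos := by
      rw [← hn', Function.update_eq_self]
    rw [hpos]
    have key : pstep (PSt.sync i f) (fun j => tape w (pos j)) st.head? =
        some (nxt i f, allS, Op.none) := by
      rcases hq' with h | h | h
      · simp [pstep, hn', h, nxt]
      · simp [pstep, hn', h, nxt]
      · simp [pstep, hn', h, nxt]
    exact Relation.ReflTransGen.single (step_of key)
  | succ n ih =>
    intro pos hn hl
    obtain ⟨a, ha, ha1, ha2⟩ := hl (pos i) le_rfl (by omega)
    have key : pstep (PSt.sync i f) (fun j => tape w (pos j)) st.head? =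
        some (PSt.sync i f, oneR i, Op.none) := by
      simp [pstep, ha, ha1, ha2]
    have hle := le_of_letter ha
    have hmv : (fun j => move (w.length + 1) (pos j) (oneR i j)) =
        Function.update pos i (pos i + 1) := by
      funext j
      by_cases hj : j = i
      · subst hj
        simp [oneR, move, hle]
      · simp [oneR, move, hj]
    have h1 := step_of key
    rw [hmv] at h1
    refine Relation.ReflTransGen.head h1 ?_
    have h2 := ih (Function.update pos i (pos i + 1)) (by
      rw [Function.update_self]
      omega) (by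
      rw [Function.update_self]
      intro o ho1 ho2
      exact hl o (by omega) ho2)
    rw [Function.update_idem] at h2
    exact h2

/-- The heads `i, …, p` go to the next item. -/
lemma all (f : Bool) (st : List Bool) (q' : ℕ)
    (hq' : tape w q' = Sym.letter Lt.z ∨ tape w q' = Sym.letter Lt.nd ∨ tape w q' = Sym.right) :
    ∀ (n : ℕ) (i : Fin (p + 1)) (pos : Fin (p + 1) → ℕ), (i : ℕ) + n = p →
      (∀ j, j < i → pos j = q') → (∀ j, i ≤ j → pos j ≤ q') →
      (∀ j, i ≤ j → ∀ o, pos j ≤ o → o < q' →
        ∃ a : Lt (p + 1), tape w o = Sym.letter a ∧ a ≠ Lt.z ∧ a ≠ Lt.nd) →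
      Star p w ⟨PSt.sync i f, pos, st⟩ ⟨PSt.main f, fun _ => q', st⟩ := by
  intro n
  induction n with
  | zero =>
    intro i pos hi h1 h2 h3
    have h4 := one i f st q' hq' (q' - pos i) pos (Nat.add_sub_cancel' (h2 i le_rfl))
      (h3 i le_rfl)
    have h5 : nxt i f = PSt.main f := dif_neg (by omega)
    have h6 : Function.update pos i q' = fun _ => q' := by
      funext j
      by_cases hj : j = i
      · subst hj
        simp
      · rw [Function.update_of_ne hj]
        apply h1
        have h7 : (j : ℕ) ≠ i := fun h => hj (Fin.ext h)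
        have h8 := j.2
        rw [Fin.lt_def]
        omega
    rw [h5, h6] at h4
    exact h4
  | succ n ih =>
    intro i pos hi h1 h2 h3
    have h4 := one i f st q' hq' (q' - pos i) pos (Nat.add_sub_cancel' (h2 i le_rfl))
      (h3 i le_rfl)
    have hip : (i : ℕ) < p := by omega
    have h5 : nxt i f = PSt.sync ⟨(i : ℕ) + 1, by omega⟩ f := dif_pos hip
    rw [h5] at h4
    refine Relation.ReflTransGen.trans h4 ?_
    apply ih ⟨(i : ℕ) + 1, by omega⟩
    · change (i : ℕ) + 1 + n = p
      omega
    · intro j hj
      rw [Fin.lt_def] at hj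
      change (j : ℕ) < (i : ℕ) + 1 at hj
      by_cases hji : j = i
      · subst hji
        simp
      · rw [Function.update_of_ne hji]
        apply h1
        have h7 : (j : ℕ) ≠ i := fun h => hji (Fin.ext h)
        rw [Fin.lt_def]
        omega
    · intro j hj
      rw [Fin.le_def] at hj
      change (i : ℕ) + 1 ≤ (j : ℕ) at hj
      have hji : j ≠ i := by
        rintro rfl
        omega
      rw [Function.update_of_ne hji]
      exact h2 j (by rw [Fin.le_def]; omega)
    · intro j hj
      rw [Fin.le_def] at hj
      change (i : ℕ) + 1 ≤ (j : ℕ) at hj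
      have hji : j ≠ i := by
        rintro rfl
        omega
      rw [Function.update_of_ne hji]
      exact h3 j (by rw [Fin.le_def]; omega)

end PSYNx

theorem t_PSYN : PSYN_Stmt := by
  intro p w pos q' f st h1 h2 h3
  exact PSYNx.all f st q' h3 p 0 pos (by simp) (fun j hj => absurd hj (Fin.not_lt_zero j))
    (fun j _ => h1 j) (fun j _ => h2 j)

end Pool.Agent.NQ2
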