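import Pool.Agent.NQ2.StP

/-!
Project NQ2 (problem MP_5e85fc_lc), module PTREE: the pushdown automaton on one tree.
-/

set_option autoImplicit false

namespace Pool.Agent.NQ2

open Pool.Agent.Heads

namespace PTREEx

lemma at_left {α : Type} {w : List α} {q : ℕ} {u v : List α} (h : At w q (u ++ v)) :
    At w q u := by
  intro o ho
  have h1 : o < (u ++ v).length := by rw [List.length_append]; omega
  have h2 := h o h1
  rwa [List.getElem_append_left ho] at h2

lemma at_right {α : Type} {w : List α} {q : ℕ} {u v : List α} (h : At w q (u ++ v)) :
    At w (q + u.length) v := by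
  intro o ho
  have h1 : u.length + o < (u ++ v).length := by rw [List.length_append]; omega
  have h2 := h (u.length + o) h1
  rw [List.getElem_append_right (by omega), ← add_assoc] at h2
  simpa using h2

lemma at_flatMap {α β : Type} {w : List α} {T : ℕ} (f : β → List α) (hf : ∀ b, (f b).length = T)
    (L : List β) : ∀ (q : ℕ), At w q (L.flatMap f) →
    ∀ (j : ℕ) (hj : j < L.length), At w (q + j * T) (f L[j]) := by
  induction L with
  | nil => intro q _ j hj; simp at hj
  | cons b L ih =>
    intro q h j hj
    rw [List.flatMap_cons] at h
    rcases j with _ | j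
    · simpa using at_left h
    · have h1 := at_right h
      rw [hf] at h1
      have hj' : j < L.length := by simpa using hj
      have h2 := ih _ h1 j hj'
      have e : q + (j + 1) * T = q + T + j * T := by ring
      rw [e]
      simpa using h2

/-- A letter is on a cell of the word. -/
lemma move_letter {α : Type} {w : List α} {q : ℕ} {a : α} (h : tape w q = Sym.letter a) :
    move (w.length + 1) q Dir.R = q + 1 := by
  have hq : q ≤ w.length := by
    by_contra hlt
    rcases q with _ | q
    · omega
    · have h1 : w[q]? = none := List.getElem?_eq_none (by omega)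
      simp [tape, h1] at h
  change min (q + 1) (w.length + 1) = q + 1
  omega

/-- One step on the letter `z`. -/
lemma step_z {p : ℕ} {w : List (Lt (p + 1))} {q : ℕ} (f : Bool) (st : List Bool)
    (h : tape w q = Sym.letter Lt.z) :
    (pdaM p).Step w ⟨PSt.main f, fun _ => q, st⟩ ⟨PSt.main f, fun _ => q + 1, false :: st⟩ := by
  refine ⟨(PSt.main f, allR, Op.push false), ?_, ?_⟩
  · change pstep (PSt.main f) (fun _ => tape w q) st.head? = _
    rw [h]
    rfl
  · have h1 := move_letter h
    simp only [allR, Op.apply, h1]

/-- The steps on the letters `z`. -/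
lemma star_z {p : ℕ} {w : List (Lt (p + 1))} (f : Bool) (n : ℕ) :
    ∀ (q : ℕ) (st : List Bool), At w q (List.replicate n Lt.z) →
      Star p w ⟨PSt.main f, fun _ => q, st⟩
        ⟨PSt.main f, fun _ => q + n, List.replicate n false ++ st⟩ := by
  induction n with
  | zero => intro q st _; exact Relation.ReflTransGen.refl
  | succ n ih =>
    intro q st h
    have h0 : tape w q = Sym.letter Lt.z := by
      have := h 0 (by simp)
      simpa using this
    have h1 : At w (q + 1) (List.replicate n Lt.z) := by
      intro o ho
      have h2 := h (1 + o) (by simp at ho ⊢; omega)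
      rw [← add_assoc] at h2
      simpa using h2
    have h3 := ih (q + 1) (false :: st) h1
    have e1 : q + 1 + n = q + (n + 1) := by ring
    have e2 : List.replicate n false ++ false :: st = List.replicate (n + 1) false ++ st := by
      rw [List.replicate_succ', List.append_assoc]
      rfl
    rw [e1, e2] at h3
    exact Relation.ReflTransGen.head (step_z f st h0) h3

/-- Every tree word starts with `z`. -/
lemma tree_head {p m l : ℕ} (ga : ℕ)
    (x : List (Fin (p + 1)) → Fin (p + 1) → Idx m → Blk m l) (h : ℕ) :
    ∀ v : List (Fin (p + 1)), ∃ u, treeW ga x h v = Lt.z :: u := by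
  induction h with
  | zero =>
    intro v
    exact ⟨List.replicate p Lt.z ++ regionW ga (x v), rfl⟩
  | succ h ih =>
    intro v
    obtain ⟨u, hu⟩ := ih ((0 : Fin (p + 1)) :: v)
    refine ⟨u ++ (((List.finRange p).map Fin.succ).flatMap fun i => treeW ga x h (i :: v)) ++
      regionW ga (x v), ?_⟩
    rw [treeW, List.finRange_succ, List.flatMap_cons, hu]
    simp

lemma at_head {α : Type} {w : List α} {q : ℕ} {a : α} {u : List α} (h : At w q (a :: u)) :
    tape w q = Sym.letter a := by
  have := h 0 (by simp)
  simpa using this

lemma nxt_self {r : ℕ} {w : List (Lt r)} {q : ℕ}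
    (h : tape w q = Sym.letter Lt.z ∨ tape w q = Sym.letter Lt.nd) : Nxt w q q := by
  refine ⟨le_rfl, fun o h1 h2 => by omega, ?_⟩
  rcases h with h | h
  · exact Or.inl h
  · exact Or.inr (Or.inl h)

end PTREEx

open PTREEx

theorem t_PTREE (hDIG : DIG_Stmt) (hLEN : LEN_Stmt) (hREG : PREG_Stmt) : PTREE_Stmt := by
  intro p m l ga w x h
  induction h with
  | zero =>
    intro v q q' f st hp hat hn
    have hl := at_left hat
    have hr := at_right hat
    rw [List.length_replicate] at hr
    have h1 := star_z f (p + 1) q st hl
    have e1 : List.replicate (p + 1) false =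
        stk (fun (_ : Fin (p + 1)) (_ : Fin m) => false) := by
      unfold stk
      simp only [hDIG.2.2.2.1 m, List.replicate_zero, List.nil_append]
      rw [← List.map_eq_flatMap]
      symm
      rw [List.eq_replicate_iff]
      refine ⟨by simp, fun b hb => ?_⟩
      obtain ⟨a, -, rfl⟩ := List.mem_map.1 hb
      rfl
    rw [e1] at h1
    have h2 := hREG p m l ga w (q + (p + 1)) q' (x v) (fun _ _ => false) f st hp hr
      (by rw [treeLen, ← add_assoc] at hn; exact hn)
    exact Relation.ReflTransGen.trans h1 h2
  | succ h ih =>
    intro v q q' f st hp hat hn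
    set T := treeLen (p + 1) m l ga h with hT
    have hlen : ∀ i : Fin (p + 1), (treeW ga x h (i :: v)).length = T := fun i =>
      (hLEN (p + 1) m l ga).2.2.1 x h (i :: v)
    have hl := at_left hat
    have hr := at_right hat
    have hlf : ((List.finRange (p + 1)).flatMap fun i => treeW ga x h (i :: v)).length =
        (p + 1) * T := by
      rw [List.length_flatMap]
      simp only [hlen]
      simp
    rw [hlf] at hr
    -- the trees of the children
    have hch : ∀ (j : ℕ) (hj : j < p + 1),
        At w (q + j * T) (treeW ga x h ((⟨j, hj⟩ : Fin (p + 1)) :: v)) := by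
      intro j hj
      have h1 := at_flatMap (fun i => treeW ga x h (i :: v)) hlen (List.finRange (p + 1)) q hl j
        (by simpa using hj)
      simpa using h1
    -- the cell after a child
    have hcell : ∀ j : ℕ, j < p + 1 → Nxt w (q + j * T + T) (q + (j + 1) * T) := by
      intro j hj
      have e : q + j * T + T = q + (j + 1) * T := by ring
      rw [e]
      apply nxt_self
      rcases Nat.lt_or_ge (j + 1) (p + 1) with h1 | h1
      · left
        obtain ⟨u, hu⟩ := tree_head ga x h ((⟨j + 1, h1⟩ : Fin (p + 1)) :: v)
        have h2 := hch (j + 1) h1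
        rw [hu] at h2
        exact at_head h2
      · right
        have h2 : j + 1 = p + 1 := by omega
        rw [h2]
        exact at_head hr
    set F : Fin (p + 1) → List Bool := fun i =>
      List.replicate (val (lab x h (i :: v))) true ++ [false] with hF
    have key : ∀ j : ℕ, j ≤ p + 1 → ∃ g : Bool,
        Star p w ⟨PSt.main f, fun _ => q, st⟩
          ⟨PSt.main g, fun _ => q + j * T,
            ((List.finRange (p + 1)).take j).reverse.flatMap F ++ st⟩ := by
      intro j
      induction j with
      | zero =>
        intro _
        refine ⟨f, ?_⟩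
        simp only [zero_mul, add_zero, List.take_zero, List.reverse_nil, List.flatMap_nil,
          List.nil_append]
        exact Relation.ReflTransGen.refl
      | succ j ihj =>
        intro hj
        obtain ⟨g, hg⟩ := ihj (by omega)
        have hj' : j < p + 1 := by omega
        have h1 := ih ((⟨j, hj'⟩ : Fin (p + 1)) :: v) (q + j * T) (q + (j + 1) * T) g
          (((List.finRange (p + 1)).take j).reverse.flatMap F ++ st) hp (hch j hj') (hcell j hj')
        refine ⟨topd (lab x h ((⟨j, hj'⟩ : Fin (p + 1)) :: v)), ?_⟩
        have e1 : ((List.finRange (p + 1)).take (j + 1)).reverse.flatMap F ++ st =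
            List.replicate (val (lab x h ((⟨j, hj'⟩ : Fin (p + 1)) :: v))) true ++
              false :: (((List.finRange (p + 1)).take j).reverse.flatMap F ++ st) := by
          have hlt : j < (List.finRange (p + 1)).length := by simpa using hj'
          rw [List.take_succ_eq_append_getElem hlt, List.reverse_append, List.reverse_singleton,
            List.singleton_append, List.flatMap_cons]
          simp [hF]
        rw [e1]
        exact Relation.ReflTransGen.trans hg h1
    obtain ⟨g, hg⟩ := key (p + 1) le_rfl
    have e2 : ((List.finRange (p + 1)).take (p + 1)).reverse.flatMap F =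
        stk (fun i : Fin (p + 1) => lab x h (i :: v)) := by
      rw [List.take_of_length_le (by simp)]
      rfl
    rw [e2] at hg
    have h2 := hREG p m l ga w (q + (p + 1) * T) q' (x v) (fun i => lab x h (i :: v)) g st hp hr
      (by rw [treeLen, ← add_assoc] at hn; exact hn)
    exact Relation.ReflTransGen.trans hg h2

end Pool.Agent.NQ2
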