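import Pool.Agent.NQ2.Fin2
import Pool.Agent.NQ2.ABS
import Pool.Agent.NQ2.J1
import Pool.Agent.NQ2.JOINT
import Pool.Agent.NQ2.PEB
import Pool.Agent.NQ2.EQ1
import Pool.Agent.NQ2.DEP
import Pool.Agent.NQ2.MACH
import Pool.Agent.NQ2.DFAC
import Pool.Agent.NQ2.LEN
import Pool.Agent.NQ2.LAY
import Pool.Agent.NQ2.INJ
import Pool.Agent.NQ2.NODE
import Pool.Agent.NQ2.PAR
import Pool.Agent.NQ2.DIG
import Pool.Agent.NQ2.PDET
import Pool.Agent.NQ2.PTIME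
import Pool.Agent.NQ2.PROW
import Pool.Agent.NQ2.PBLK
import Pool.Agent.NQ2.PLOC
import Pool.Agent.NQ2.PSYN
import Pool.Agent.NQ2.PREG
import Pool.Agent.NQ2.PTREE
import Pool.Agent.NQ2.PACC

/-!
Project NQ2 (MP_5e85fc_lc): all modules.
-/

set_option autoImplicit false

namespace Pool.Agent.NQ2

theorem a_J1 : J1_Stmt := t_J1 t_EQ1 t_DEP

theorem a_JOINT : JOINT_Stmt := t_JOINT a_J1 t_DEP

theorem a_ABS : ABS_Stmt := t_ABS a_J1 a_JOINT t_PEB t_DEP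

theorem a_BLK : PBLK_Stmt := t_PBLK t_PROW

theorem a_LOC : PLOC_Stmt := t_PLOC t_DIG t_LEN

theorem a_REG : PREG_Stmt := t_PREG t_DIG t_LEN a_BLK a_LOC t_PSYN

theorem a_TREE : PTREE_Stmt := t_PTREE t_DIG t_LEN a_REG

theorem a_ACC : PACC_Stmt := t_PACC t_PDET t_LEN a_TREE

theorem a_INJ : INJ_Stmt := t_INJ t_LEN t_DIG

theorem a_PAR : PAR_Stmt := t_PAR t_NODE

end Pool.Agent.NQ2
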