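import Pool.Agent.NQ2.St

/-!
Project NQ2 (MP_5e85fc_lc): statements of the modules on the pushdown automaton `pdaM p` (with
`p + 1` one-way heads), with complete proofs in words.
-/

set_option autoImplicit false

namespace Pool.Agent.NQ2

open Pool.Agent.Heads Filter

/-- The letters of `u` are on the cells from `q` on. -/
def At {α : Type} (w : List α) (q : ℕ) (u : List α) : Prop :=
  ∀ (o : ℕ) (h : o < u.length), tape w (q + o) = Sym.letter u[o]

/-- `c'` is reached from `c` on the input `w`. -/
def Star (p : ℕ) (w : List (Lt (p + 1))) :
    Cfg (PSt (p + 1)) (Fin (p + 1) → ℕ) Bool → Cfg (PSt (p + 1)) (Fin (p + 1) → ℕ) Bool → Prop :=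
  Relation.ReflTransGen ((pdaM p).Step w)

/-- The stack with the numbers `val (a i)` in unary (`true` is a unit, `false` the mark), the last
one on the top. -/
def stk {r m : ℕ} (a : Fin r → Idx m) : List Bool :=
  (List.finRange r).reverse.flatMap fun i => List.replicate (val (a i)) true ++ [false]

/-- The lists of blocks of a node. -/
def listsW {r m l : ℕ} (ga : ℕ) (D : Fin r → Idx m → Blk m l) : List (Lt r) :=
  (List.finRange r).flatMap fun i =>
    (List.range (2 ^ m)).flatMap fun j => blockW ga i (D i (bitsOf m j))

/-- The next item after cell `q` starts in cell `q'` (or there is no item and `q'` is the first cell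
with the right endmarker); the cells between carry the letter `fill`. -/
def Nxt {r : ℕ} (w : List (Lt r)) (q q' : ℕ) : Prop :=
  q ≤ q' ∧ (∀ o, q ≤ o → o < q' → tape w o = Sym.letter Lt.fill) ∧
    (tape w q' = Sym.letter Lt.z ∨ tape w q' = Sym.letter Lt.nd ∨ tape w q' = Sym.right)

/-- PDET. `pdaM p` is deterministic and its heads never move left. Proof: `δ q x g` is the set of
`t` with `pstep q x g = some t` (`Option.some.inj`); inspection of `pstep` (moves `allR`, `oneR`,
`allS`). -/
def PDET_Stmt : Prop :=
  ∀ p : ℕ, (pdaM p).Det ∧ ∀ q x g, ∀ t ∈ (pdaM p).δ q x g, ∀ i, t.2.1 i ≠ Dir.L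

/-- PTIME. Every computation has at most `(p + 6) (p + 1) (|w| + 1) + 1` steps.
Proof: let `Φ = (p + 6) * ∑ i, (|w| + 1 - pos i) + |stack| + rank` with `rank acc = 0`,
`rank (main f) = 1`, `rank (sync i f) = p + 2 - i`, `rank (ev f c) = p + 3`, `rank ev0 = rank (loc i)
= p + 4`. All positions are `≤ |w| + 1` (invariant). Every step lowers `Φ` by at least `1`: a move
`allR` is made only if head `0` scans the left endmarker or a letter, so that head `0` really moves
(`p + 6` is more than one push plus the growth of the rank, at most `p + 3`); a move `oneR i` only if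
head `i` scans a letter; the steps with `allS` either pop (and do not raise the rank: `loc → loc,
ev0`) or lower the rank (`main → acc`, `ev → sync 0`, `sync i → sync (i + 1)`, `sync p → main`).
In the state `ev` with `∀ i, x i = letter …` use `i = 0`. At the start `Φ = (p+6)(p+1)(|w|+1) + 1`.
Note: `a letter on cell q` implies `q ≤ |w|`. -/
def PTIME_Stmt : Prop :=
  ∀ (p : ℕ) (w : List (Lt (p + 1))) (t : ℕ) (c : Cfg (pdaM p).Q (Fin (p + 1) → ℕ) (pdaM p).Γ),
    (pdaM p).Reach w t c → t ≤ (p + 6) * (p + 1) * (w.length + 1) + 1

/-- PROW. All heads read one row. Proof: first `l` steps of the second kind (all letters are bits): by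
induction on `j ≤ l` the state after `j` steps is `ev f (parity of the number of t < j with
∀ i, c i t = true)`; then the letter `s` (state `ev f' false`), then `2 ^ b` steps on the letter
`pad`, each pushing one unit if `f' = true` (induction; `List.replicate_succ'`/commutation of equal
units). The moves: a letter on cell `q` means `q ≤ |w|`, so `move (|w| + 1) q R = q + 1`. Take care
of the order of the tests in `pstep`: a bit is not `fill`, `s` is neither `fill` nor a bit, and so on
(use head `0`). -/
def PROW_Stmt : Prop :=
  ∀ (p l b : ℕ) (w : List (Lt (p + 1))) (pos : Fin (p + 1) → ℕ) (c : Fin (p + 1) → Fin l → Bool)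
    (f : Bool) (st : List Bool), (∀ i, At w (pos i) (rowW b (c i))) →
    Star p w ⟨PSt.ev f false, pos, st⟩
      ⟨PSt.ev (decide (Odd (Finset.univ.filter fun t : Fin l => ∀ i, c i t = true).card)) false,
        fun i => pos i + (l + 1 + 2 ^ b),
        (if Odd (Finset.univ.filter fun t : Fin l => ∀ i, c i t = true).card then
          List.replicate (2 ^ b) true else []) ++ st⟩

/-- PBLK. All heads read one block each. Proof: the first step (state `ev0`) pushes the mark and moves
all heads; `ga` steps on `fill`; then the `m` rows with PROW: by induction on `j ≤ m` the state is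
`ev (digit j - 1, or false if j = 0) false`, the positions have advanced by
`1 + ga + ∑ b < j, (l + 1 + 2 ^ b)` and the stack is
`replicate (∑ b < j, if digit b then 2 ^ b else 0) true ++ false :: st`; at `j = m` the number of
units is `val (gdig c)` and the state is `ev (topd (gdig c)) false`; the total advance is
`1 + ga + m (l + 1) + (2 ^ m - 1) = blockLen m l ga`. The rows of the block `blockW ga i (c i)` start
at offset `1 + ga + ∑ b < j, (l + 1 + 2 ^ b)` (flatMap over `finRange m`). -/
def PBLK_Stmt : Prop :=
  ∀ (p m l ga : ℕ) (w : List (Lt (p + 1))) (pos : Fin (p + 1) → ℕ) (c : Fin (p + 1) → Blk m l)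
    (st : List Bool), (∀ i, At w (pos i) (blockW ga i (c i))) →
    Star p w ⟨PSt.ev0, pos, st⟩
      ⟨PSt.ev (topd (gdig c)) false, fun i => pos i + blockLen m l ga,
        List.replicate (val (gdig c)) true ++ false :: st⟩

/-- PLOC. The heads go to the blocks given by the stack. Proof. For the head `i` (from the last one
down to `0`): (1) in the state `loc i` the head `i` moves right over letters `≠ b i`; (2) on a letter
`b i` with a unit on the top: pop and move right (then over the rest of the block, by (1), to the
next block); (3) with the mark on the top: pop and pass to `loc (i - 1)` or `ev0`. The block number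
`j` of the list `i` starts at offset `(i * 2 ^ m + j) * blockLen m l ga` of `listsW`, its first
letter is `b i`, and the other letters of all blocks of the lists `0, …, i` before the end of the
list `i` are not `b i` except the first letters of the blocks of the list `i`. Induction on
`i` downwards; `val (a i) < 2 ^ m` (DIG). -/
def PLOC_Stmt : Prop :=
  ∀ (p m l ga : ℕ) (w : List (Lt (p + 1))) (q : ℕ) (D : Fin (p + 1) → Idx m → Blk m l)
    (a : Fin (p + 1) → Idx m) (st : List Bool), At w q (listsW ga D) →
    Star p w ⟨PSt.loc (Fin.last p), fun _ => q, stk a ++ st⟩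
      ⟨PSt.ev0, fun i => q + ((i : ℕ) * 2 ^ m + val (a i)) * blockLen m l ga, st⟩

/-- PSYN. All heads go to the next item. Proof: for `i = 0, …, p`: the head `i` moves right over the
letters which are not `z`, `nd`; on `z`, `nd` or the right endmarker the state changes to
`sync (i + 1)` or, for `i = p`, to `main f`. -/
def PSYN_Stmt : Prop :=
  ∀ (p : ℕ) (w : List (Lt (p + 1))) (pos : Fin (p + 1) → ℕ) (q' : ℕ) (f : Bool) (st : List Bool),
    (∀ i, pos i ≤ q') →
    (∀ i o, pos i ≤ o → o < q' → ∃ a : Lt (p + 1), tape w o = Sym.letter a ∧ a ≠ Lt.z ∧ a ≠ Lt.nd) →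
    (tape w q' = Sym.letter Lt.z ∨ tape w q' = Sym.letter Lt.nd ∨ tape w q' = Sym.right) →
    Star p w ⟨PSt.sync 0 f, pos, st⟩ ⟨PSt.main f, fun _ => q', st⟩

/-- PREG. One node. Proof: the step on `nd` (state `main`), PLOC, PBLK (with
`c i = D i (a i)`; the block number `val (a i)` of the list `i` is
`blockW ga i (D i (bitsOf m (val (a i)))) = blockW ga i (D i (a i))` by DIG), then in the state
`ev _ false` the head `0` scans the first letter of the block number `val (a 0) + 1` of `listsW`
(there is one because `p ≥ 1`: there are at least `2 * 2 ^ m` blocks), which is a letter `b _`: so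
all tests fail and the next state is `sync 0 _`; then PSYN (`Nxt`, and no letter of `listsW` is `z` or
`nd`). -/
def PREG_Stmt : Prop :=
  ∀ (p m l ga : ℕ) (w : List (Lt (p + 1))) (q q' : ℕ) (D : Fin (p + 1) → Idx m → Blk m l)
    (a : Fin (p + 1) → Idx m) (f : Bool) (st : List Bool), 1 ≤ p → At w q (regionW ga D) →
    Nxt w (q + regionLen (p + 1) m l ga) q' →
    Star p w ⟨PSt.main f, fun _ => q, stk a ++ st⟩
      ⟨PSt.main (topd (gdig fun i => D i (a i))), fun _ => q',
        List.replicate (val (gdig fun i => D i (a i))) true ++ false :: st⟩

/-- PTREE. One tree. Proof: induction on `h`. `h = 0`: `p + 1` steps on `z` push `p + 1` marks, which is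
`stk (fun _ _ => false)` (`val = 0`, DIG), then PREG. `h + 1`: for the children `i = 0, …, p` in this
order the induction hypothesis with the stack `the values of the children 0, …, i - 1, then st`
(the tree of the child `i` starts in cell `q + i * treeLen h`; the cell after it carries `z`, as
every tree word starts with `z`, or, for `i = p`, the `nd` of the region: `Nxt` with `q' = q`); after
the last child the stack is `stk (fun i => lab x h (i :: v)) ++ st`; then PREG. -/
def PTREE_Stmt : Prop :=
  ∀ (p m l ga : ℕ) (w : List (Lt (p + 1))) (x : List (Fin (p + 1)) → Fin (p + 1) → Idx m → Blk m l)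
    (h : ℕ) (v : List (Fin (p + 1))) (q q' : ℕ) (f : Bool) (st : List Bool), 1 ≤ p →
    At w q (treeW ga x h v) → Nxt w (q + treeLen (p + 1) m l ga h) q' →
    Star p w ⟨PSt.main f, fun _ => q, st⟩
      ⟨PSt.main (topd (lab x h v)), fun _ => q',
        List.replicate (val (lab x h v)) true ++ false :: st⟩

/-- PACC. The pushdown automaton computes the top digit of the root. Proof: the first step moves all
heads from the left endmarker to cell `1`; PTREE with `q = 1`, `q' = |w| + 1`
(`w = treeW … ++ fill …`); in the state `main f` on the right endmarker: if `f = true` the next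
state is `acc`; if `f = false` there is no step, and as the automaton is deterministic (PDET) every
reachable configuration is on this computation: if an accepting configuration (state `acc`, no
step) were reachable it would be the last one of it too, which has state `main false`. -/
def PACC_Stmt : Prop :=
  ∀ (p m l ga d n : ℕ) (x : List (Fin (p + 1)) → Fin (p + 1) → Idx m → Blk m l), 1 ≤ p →
    (wordW ga d n x ∈ (pdaM p).lang ↔ topd (lab x d []) = true)

end Pool.Agent.NQ2
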