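import Mathlib
import Pool.Agent.Lib_helper16.Heads.Defs
import Pool.Agent.Lib_helper16.Poly.Gip
import Pool.Agent.Lib_helper16.Heads.LTS

/-!
Project NQ2 (problem MP_5e85fc_lc): definitions.
-/

set_option autoImplicit false

namespace Pool.Agent.NQ2

open Pool.Agent.Heads

/-! ### Labels of the nodes of a pointer tree -/

/-- The index of a block in its list, written in binary (digit `b` has weight `2 ^ b`). -/
abbrev Idx (m : ℕ) := Fin m → Bool

/-- The content of a block: `m` rows of `l` bits. -/
abbrev Blk (m l : ℕ) := Fin m → Fin l → Bool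

/-- The number with the binary digits `f`. -/
def val {m : ℕ} (f : Idx m) : ℕ := ∑ b, if f b = true then 2 ^ (b : ℕ) else 0

/-- The first `m` binary digits of `j`. -/
def bitsOf (m j : ℕ) : Idx m := fun b => j.testBit b

/-- Digit `b` is the generalised inner product of the rows `b` of the blocks. -/
def gdig {r m l : ℕ} (y : Fin r → Blk m l) : Idx m := fun b =>
  decide (Odd (Finset.univ.filter fun t : Fin l => ∀ i, y i b t = true).card)

/-- The label of the node `v` of height `h`; the child `i` of `v` is `i :: v`. The data `x v i a`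
is the content of the block number `a` in the list number `i` of the node `v`. -/
def lab {r m l : ℕ} (x : List (Fin r) → Fin r → Idx m → Blk m l) : ℕ → List (Fin r) → Idx m
  | 0, v => gdig fun i => x v i fun _ => false
  | h + 1, v => gdig fun i => x v i (lab x h (i :: v))

/-- The top digit. -/
def topd {m : ℕ} (f : Idx m) : Bool := if h : 0 < m then f ⟨m - 1, Nat.sub_lt h one_pos⟩ else false

/-- The nodes of the tree of depth `d`. -/
abbrev Node (r d : ℕ) := {v : List (Fin r) // v.length ≤ d}

noncomputable instance Node.fintype (r d : ℕ) : Fintype (Node r d) :=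
  (List.finite_length_le (Fin r) d).fintype

/-- The blocks: a node, the number of the list, the index in the list. -/
abbrev Zt (r d m : ℕ) := Node r d × Fin r × Idx m

/-- The inputs: the contents of all blocks. -/
abbrev Inp (r d m l : ℕ) := Zt r d m → Blk m l

/-- An input as a function on all words. -/
def ext {r d m l : ℕ} (x : Inp r d m l) : List (Fin r) → Fin r → Idx m → Blk m l :=
  fun v i a => if h : v.length ≤ d then x (⟨v, h⟩, i, a) else fun _ _ => false

/-- The label of the node `v` in the tree of depth `d`. -/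
def labD {r d m l : ℕ} (x : Inp r d m l) (v : List (Fin r)) : Idx m :=
  lab (ext x) (d - v.length) v

/-- The indices of the blocks which determine the label of `v`. -/
def tup {r d m l : ℕ} (x : Inp r d m l) (v : List (Fin r)) (i : Fin r) : Idx m :=
  if v.length < d then labD x (i :: v) else fun _ => false

/-! ### Averages and indicators -/

/-- The indicator of a proposition. -/
noncomputable def ind (P : Prop) : ℝ := by classical exact if P then 1 else 0

/-- The average of `f`. -/
noncomputable def avg {X : Type} [Fintype X] (f : X → ℝ) : ℝ := (∑ x, f x) / (Fintype.card X : ℝ)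

/-! ### Block machines -/

/-- A deterministic machine with time dependent steps; in the configuration `c` it covers at most
`k` blocks, and its step depends only on the contents of these blocks. -/
structure BM (k : ℕ) (Z B : Type) where
  C : Type
  fin : Fintype C
  F : ℕ → C → (Z → B) → C
  cov : C → Fin k → Option Z
  c0 : C
  out : C → Prop
  loc : ∀ j c x x', (∀ h z, cov c h = some z → x z = x' z) → F j c x = F j c x'

attribute [instance] BM.fin

/-- The configuration after `n` steps from the configuration `c` at time `j0`. -/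
def BM.run {k : ℕ} {Z B : Type} (M : BM k Z B) (x : Z → B) (j0 : ℕ) (c : M.C) : ℕ → M.C
  | 0 => c
  | n + 1 => M.F (j0 + n) (M.run x j0 c n) x

/-- All blocks which determine the label of `v` are covered. -/
def RQ {k r d m l : ℕ} (M : BM k (Zt r d m) (Blk m l)) (x : Inp r d m l) (v : List (Fin r))
    (c : M.C) : Prop :=
  ∀ i, ∃ (hv : v.length ≤ d) (h : Fin k), M.cov c h = some (⟨v, hv⟩, i, tup x v i)

/-! ### Words -/

/-- The letters. -/
inductive Lt (r : ℕ) where
  | z : Lt r
  | nd : Lt r
  | b : Fin r → Lt r
  | bit : Bool → Lt r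
  | s : Lt r
  | pad : Lt r
  | fill : Lt r
  deriving DecidableEq

/-- The part of a block for one row. -/
def rowW {r l : ℕ} (b : ℕ) (f : Fin l → Bool) : List (Lt r) :=
  List.ofFn (fun t => Lt.bit (f t)) ++ (Lt.s :: List.replicate (2 ^ b) Lt.pad)

/-- A block of the list number `i` with a gap of length `ga`. -/
def blockW {r m l : ℕ} (ga : ℕ) (i : Fin r) (c : Blk m l) : List (Lt r) :=
  Lt.b i :: (List.replicate ga Lt.fill ++ (List.finRange m).flatMap fun b : Fin m => rowW (b : ℕ) (c b))

/-- The part of the word for one node. -/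
def regionW {r m l : ℕ} (ga : ℕ) (D : Fin r → Idx m → Blk m l) : List (Lt r) :=
  Lt.nd :: (List.finRange r).flatMap fun i =>
    (List.range (2 ^ m)).flatMap fun j => blockW ga i (D i (bitsOf m j))

/-- The word of the tree with root `v` and height `h`. -/
def treeW {r m l : ℕ} (ga : ℕ) (x : List (Fin r) → Fin r → Idx m → Blk m l) :
    ℕ → List (Fin r) → List (Lt r)
  | 0, v => List.replicate r Lt.z ++ regionW ga (x v)
  | h + 1, v => ((List.finRange r).flatMap fun i => treeW ga x h (i :: v)) ++ regionW ga (x v)

/-- The word of length `n` of a tree. -/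
def wordW {r m l : ℕ} (ga d n : ℕ) (x : List (Fin r) → Fin r → Idx m → Blk m l) : List (Lt r) :=
  treeW ga x d [] ++ List.replicate (n - (treeW ga x d []).length) Lt.fill

/-- The length of a block. -/
def blockLen (m l ga : ℕ) : ℕ := ga + m * (l + 1) + 2 ^ m

/-- The length of the part of one node. -/
def regionLen (r m l ga : ℕ) : ℕ := 1 + r * (2 ^ m * blockLen m l ga)

/-- The length of the word of a tree of height `h`. -/
def treeLen (r m l ga : ℕ) : ℕ → ℕ
  | 0 => r + regionLen r m l ga
  | h + 1 => r * treeLen r m l ga h + regionLen r m l ga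

/-! ### The pushdown automaton -/

/-- The states. -/
inductive PSt (r : ℕ) where
  | main : Bool → PSt r
  | loc : Fin r → PSt r
  | ev0 : PSt r
  | ev : Bool → Bool → PSt r
  | sync : Fin r → Bool → PSt r
  | acc : PSt r
  deriving DecidableEq

/-- All heads move right. -/
def allR {r : ℕ} : Fin r → Dir := fun _ => Dir.R

/-- Only the head `i` moves right. -/
def oneR {r : ℕ} (i : Fin r) : Fin r → Dir := fun j => if j = i then Dir.R else Dir.S

/-- No head moves. -/
def allS {r : ℕ} : Fin r → Dir := fun _ => Dir.S

/-- The bit on a cell (`false` if there is no bit). -/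
def bitAt {α : Type} (f : α → Option Bool) : Sym α → Bool
  | Sym.letter a => (f a).getD false
  | _ => false

/-- The bit of a letter. -/
def Lt.toBit {r : ℕ} : Lt r → Option Bool
  | Lt.bit v => some v
  | _ => none

/-- The transition function of the pushdown automaton; `true` is the unit, `false` the mark. -/
noncomputable def pstep {p : ℕ} (q : PSt (p + 1)) (x : Fin (p + 1) → Sym (Lt (p + 1)))
    (g : Option Bool) : Option (PSt (p + 1) × (Fin (p + 1) → Dir) × Op Bool) := by
  classical exact
  match q with
  | PSt.main f =>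
    match x 0 with
    | Sym.left => some (PSt.main f, allR, Op.none)
    | Sym.letter Lt.z => some (PSt.main f, allR, Op.push false)
    | Sym.letter Lt.nd => some (PSt.loc (Fin.last p), allR, Op.none)
    | Sym.right => if f = true then some (PSt.acc, allS, Op.none) else none
    | _ => none
  | PSt.loc i =>
    match x i with
    | Sym.letter a =>
      if a = Lt.b i then
        match g with
        | some true => some (PSt.loc i, oneR i, Op.pop)
        | some false =>
          some ((if h : 0 < (i : ℕ) then PSt.loc ⟨(i : ℕ) - 1, by omega⟩ else PSt.ev0), allS, Op.pop)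
        | none => none
      else some (PSt.loc i, oneR i, Op.none)
    | _ => none
  | PSt.ev0 =>
    match x 0 with
    | Sym.letter _ => some (PSt.ev false false, allR, Op.push false)
    | _ => none
  | PSt.ev f c =>
    if ∀ i, x i = Sym.letter Lt.fill then some (PSt.ev f c, allR, Op.none)
    else if ∀ i, ∃ v, x i = Sym.letter (Lt.bit v) then
      some (PSt.ev f (xor c (decide (∀ i, x i = Sym.letter (Lt.bit true)))), allR, Op.none)
    else if ∀ i, x i = Sym.letter Lt.s then some (PSt.ev c false, allR, Op.none)
    else if ∀ i, x i = Sym.letter Lt.pad then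
      some (PSt.ev f c, allR, if f = true then Op.push true else Op.none)
    else some (PSt.sync 0 f, allS, Op.none)
  | PSt.sync i f =>
    match x i with
    | Sym.letter a =>
      if a = Lt.z ∨ a = Lt.nd then
        some ((if h : (i : ℕ) < p then PSt.sync ⟨(i : ℕ) + 1, by omega⟩ f else PSt.main f), allS,
          Op.none)
      else some (PSt.sync i f, oneR i, Op.none)
    | Sym.right =>
      some ((if h : (i : ℕ) < p then PSt.sync ⟨(i : ℕ) + 1, by omega⟩ f else PSt.main f), allS,
        Op.none)
    | Sym.left => none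
  | PSt.acc => none

instance PSt.finite (r : ℕ) : Finite (PSt r) := by
  refine Finite.of_surjective (α := Bool ⊕ Fin r ⊕ Unit ⊕ (Bool × Bool) ⊕ (Fin r × Bool) ⊕ Unit)
    (fun x => match x with
      | Sum.inl b => PSt.main b
      | Sum.inr (Sum.inl i) => PSt.loc i
      | Sum.inr (Sum.inr (Sum.inl _)) => PSt.ev0
      | Sum.inr (Sum.inr (Sum.inr (Sum.inl bc))) => PSt.ev bc.1 bc.2
      | Sum.inr (Sum.inr (Sum.inr (Sum.inr (Sum.inl ib)))) => PSt.sync ib.1 ib.2
      | Sum.inr (Sum.inr (Sum.inr (Sum.inr (Sum.inr _)))) => PSt.acc) ?_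
  intro q
  cases q with
  | main b => exact ⟨Sum.inl b, rfl⟩
  | loc i => exact ⟨Sum.inr (Sum.inl i), rfl⟩
  | ev0 => exact ⟨Sum.inr (Sum.inr (Sum.inl ())), rfl⟩
  | ev f c => exact ⟨Sum.inr (Sum.inr (Sum.inr (Sum.inl (f, c)))), rfl⟩
  | sync i f => exact ⟨Sum.inr (Sum.inr (Sum.inr (Sum.inr (Sum.inl (i, f))))), rfl⟩
  | acc => exact ⟨Sum.inr (Sum.inr (Sum.inr (Sum.inr (Sum.inr ())))), rfl⟩

instance Lt.finite (r : ℕ) : Finite (Lt r) := by
  refine Finite.of_surjective (α := Fin 5 ⊕ Fin r ⊕ Bool)
    (fun x => match x with
      | Sum.inl 0 => Lt.z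
      | Sum.inl 1 => Lt.nd
      | Sum.inl 2 => Lt.s
      | Sum.inl 3 => Lt.pad
      | Sum.inl 4 => Lt.fill
      | Sum.inr (Sum.inl i) => Lt.b i
      | Sum.inr (Sum.inr v) => Lt.bit v) ?_
  intro q
  cases q with
  | z => exact ⟨Sum.inl 0, rfl⟩
  | nd => exact ⟨Sum.inl 1, rfl⟩
  | s => exact ⟨Sum.inl 2, rfl⟩
  | pad => exact ⟨Sum.inl 3, rfl⟩
  | fill => exact ⟨Sum.inl 4, rfl⟩
  | b i => exact ⟨Sum.inr (Sum.inl i), rfl⟩
  | bit v => exact ⟨Sum.inr (Sum.inr v), rfl⟩

/-- The pushdown automaton with `p + 1` one-way heads. -/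
noncomputable def pdaM (p : ℕ) : PDA (Lt (p + 1)) (p + 1) where
  Q := PSt (p + 1)
  Γ := Bool
  finQ := PSt.finite (p + 1)
  finΓ := inferInstance
  start := PSt.main false
  accept := {PSt.acc}
  δ q x g := {t | pstep q x g = some t}

/-- `M` accepts `w` in at most `t` steps. -/
def AcceptsIn {α : Type} {k : ℕ} (M : FA α k) (w : List α) (t : ℕ) : Prop :=
  ∃ i ≤ t, ∃ c, ReachN (M.Step w) (M.start, fun _ => 0) i c ∧ c.1 ∈ M.accept

end Pool.Agent.NQ2
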