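import Pool.Agent.NQ2.StP

/-!
Project NQ2 (MP_5e85fc_lc), module PTIME: linear time bound by a potential.
-/

set_option autoImplicit false

namespace Pool.Agent.NQ2.PTIMEx

open Pool.Agent.Heads Pool.Agent.NQ2

/-- The rank of a state. -/
def rk {p : ℕ} : PSt (p + 1) → ℕ
  | PSt.main _ => 1
  | PSt.loc _ => p + 4
  | PSt.ev0 => p + 4
  | PSt.ev _ _ => p + 3
  | PSt.sync i _ => p + 2 - (i : ℕ)
  | PSt.acc => 0

lemma tape_letter {α : Type} {w : List α} {q : ℕ} {a : α} (h : tape w q = Sym.letter a) :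
    q ≤ w.length := by
  cases q with
  | zero => exact Nat.zero_le _
  | succ n =>
    by_contra hc
    have h0 : w[n]? = none := List.getElem?_eq_none (by omega)
    simp only [tape, h0] at h
    cases h

lemma tape_left {α : Type} {w : List α} {q : ℕ} (h : tape w q = Sym.left) : q = 0 := by
  cases q with
  | zero => rfl
  | succ n =>
    simp only [tape] at h
    split at h <;> cases h

/-- The three kinds of steps. -/
def Kind {p : ℕ} (q : PSt (p + 1)) (x : Fin (p + 1) → Sym (Lt (p + 1))) (g : Option Bool)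
    (tr : PSt (p + 1) × (Fin (p + 1) → Dir) × Op Bool) : Prop :=
  ((∃ i, tr.2.1 i = Dir.R ∧ (x i = Sym.left ∨ ∃ a, x i = Sym.letter a)) ∧
      rk tr.1 ≤ rk q + (p + 3) ∧
      (tr.2.2 = Op.none ∨ tr.2.2 = Op.pop ∨ ((∃ b, tr.2.2 = Op.push b) ∧ rk tr.1 ≤ rk q))) ∨
    (tr.2.2 = Op.none ∧ rk tr.1 + 1 ≤ rk q) ∨
    (tr.2.2 = Op.pop ∧ g ≠ none ∧ rk tr.1 ≤ rk q)

lemma step_kind {p : ℕ} (q : PSt (p + 1)) (x : Fin (p + 1) → Sym (Lt (p + 1))) (g : Option Bool)
    (tr : PSt (p + 1) × (Fin (p + 1) → Dir) × Op Bool) (h : pstep q x g = some tr) :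
    (∀ i, tr.2.1 i ≠ Dir.L) ∧ Kind q x g tr := by
  unfold pstep at h
  cases q with
  | main f =>
    simp only at h
    split at h
    · rename_i hx
      cases h
      refine ⟨fun i => by simp [allR], Or.inl ⟨⟨0, rfl, Or.inl hx⟩, ?_, Or.inl rfl⟩⟩
      simp only [rk]; omega
    · rename_i hx
      cases h
      refine ⟨fun i => by simp [allR], Or.inl ⟨⟨0, rfl, Or.inr ⟨_, hx⟩⟩, ?_, Or.inr (Or.inr ⟨⟨_, rfl⟩, ?_⟩)⟩⟩
      · simp only [rk]; omega
      · simp only [rk]; omega
    · rename_i hx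
      cases h
      refine ⟨fun i => by simp [allR], Or.inl ⟨⟨0, rfl, Or.inr ⟨_, hx⟩⟩, ?_, Or.inl rfl⟩⟩
      simp only [rk]; omega
    · split at h
      · cases h
        refine ⟨fun i => by simp [allS], Or.inr (Or.inl ⟨rfl, ?_⟩)⟩
        simp only [rk]; omega
      · cases h
    · cases h
  | loc i =>
    simp only at h
    split at h
    · rename_i a hx
      split at h
      · split at h
        · cases h
          refine ⟨fun j => ?_, Or.inl ⟨⟨i, by simp [oneR], Or.inr ⟨_, hx⟩⟩, ?_, Or.inr (Or.inl rfl)⟩⟩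
          · simp only [oneR]; split <;> simp
          · simp only [rk]; omega
        · cases h
          refine ⟨fun j => by simp [allS], Or.inr (Or.inr ⟨rfl, by simp, ?_⟩)⟩
          split
          · simp only [rk]; omega
          · simp only [rk]; omega
        · cases h
      · cases h
        refine ⟨fun j => ?_, Or.inl ⟨⟨i, by simp [oneR], Or.inr ⟨_, hx⟩⟩, ?_, Or.inl rfl⟩⟩
        · simp only [oneR]; split <;> simp
        · simp only [rk]; omega
    · cases h
  | ev0 =>
    simp only at h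
    split at h
    · rename_i a hx
      cases h
      refine ⟨fun i => by simp [allR], Or.inl ⟨⟨0, rfl, Or.inr ⟨_, hx⟩⟩, ?_, Or.inr (Or.inr ⟨⟨_, rfl⟩, ?_⟩)⟩⟩
      · simp only [rk]; omega
      · simp only [rk]; omega
    · cases h
  | ev f c =>
    simp only at h
    split at h
    · rename_i hx
      cases h
      refine ⟨fun i => by simp [allR], Or.inl ⟨⟨0, rfl, Or.inr ⟨_, hx 0⟩⟩, ?_, Or.inl rfl⟩⟩
      simp only [rk]; omega
    · split at h
      · rename_i hx
        cases h
        obtain ⟨v, hv⟩ := hx 0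
        refine ⟨fun i => by simp [allR], Or.inl ⟨⟨0, rfl, Or.inr ⟨_, hv⟩⟩, ?_, Or.inl rfl⟩⟩
        simp only [rk]; omega
      · split at h
        · rename_i hx
          cases h
          refine ⟨fun i => by simp [allR], Or.inl ⟨⟨0, rfl, Or.inr ⟨_, hx 0⟩⟩, ?_, Or.inl rfl⟩⟩
          simp only [rk]; omega
        · split at h
          · rename_i hx
            cases h
            refine ⟨fun i => by simp [allR], Or.inl ⟨⟨0, rfl, Or.inr ⟨_, hx 0⟩⟩, ?_, ?_⟩⟩
            · simp only [rk]; omega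
            · by_cases hf : f = true
              · refine Or.inr (Or.inr ⟨⟨true, by simp [hf]⟩, ?_⟩)
                simp only [rk]; omega
              · exact Or.inl (by simp [hf])
          · cases h
            refine ⟨fun i => by simp [allS], Or.inr (Or.inl ⟨rfl, ?_⟩)⟩
            simp only [rk, Fin.val_zero]; omega
  | sync i f =>
    simp only at h
    have hi : (i : ℕ) < p + 1 := i.isLt
    split at h
    · rename_i a hx
      split at h
      · cases h
        refine ⟨fun j => by simp [allS], Or.inr (Or.inl ⟨rfl, ?_⟩)⟩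
        split
        · simp only [rk]; omega
        · simp only [rk]; omega
      · cases h
        refine ⟨fun j => ?_, Or.inl ⟨⟨i, by simp [oneR], Or.inr ⟨_, hx⟩⟩, ?_, Or.inl rfl⟩⟩
        · simp only [oneR]; split <;> simp
        · simp only [rk]; omega
    · cases h
      refine ⟨fun j => by simp [allS], Or.inr (Or.inl ⟨rfl, ?_⟩)⟩
      split
      · simp only [rk]; omega
      · simp only [rk]; omega
    · cases h
  | acc =>
    simp only at h
    cases h

/-- The potential. -/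
def phi {p : ℕ} (N : ℕ) (c : Cfg (PSt (p + 1)) (Fin (p + 1) → ℕ) Bool) : ℕ :=
  (p + 6) * (∑ i, (N - c.pos i)) + c.stack.length + rk c.state

lemma move_le {N q : ℕ} {d : Dir} (hq : q ≤ N) : move N q d ≤ N := by
  cases d
  · simp only [move]; omega
  · simpa only [move] using hq
  · simp only [move]; omega

lemma move_ge {N q : ℕ} {d : Dir} (hd : d ≠ Dir.L) (hq : q ≤ N) : q ≤ move N q d := by
  cases d
  · exact absurd rfl hd
  · simp only [move]; omega
  · simp only [move]; omega

lemma move_R {N q : ℕ} (hq : q < N) : move N q Dir.R = q + 1 := by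
  simp only [move]; omega

lemma sum_le {p N : ℕ} (a : Fin (p + 1) → ℕ) (d : Fin (p + 1) → Dir) (hd : ∀ i, d i ≠ Dir.L)
    (ha : ∀ i, a i ≤ N) : ∑ i, (N - move N (a i) (d i)) ≤ ∑ i, (N - a i) :=
  Finset.sum_le_sum fun i _ => by
    have := move_ge (hd i) (ha i)
    omega

lemma sum_lt {p N : ℕ} (a : Fin (p + 1) → ℕ) (d : Fin (p + 1) → Dir) (hd : ∀ i, d i ≠ Dir.L)
    (ha : ∀ i, a i ≤ N) (i0 : Fin (p + 1)) (h0 : d i0 = Dir.R) (h1 : a i0 < N) :
    ∑ i, (N - move N (a i) (d i)) + 1 ≤ ∑ i, (N - a i) := by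
  refine Nat.succ_le_of_lt (Finset.sum_lt_sum (fun i _ => ?_) ⟨i0, Finset.mem_univ _, ?_⟩)
  · have := move_ge (hd i) (ha i)
    omega
  · rw [h0, move_R h1]
    omega

lemma aux1 {p S S' r r' : ℕ} (st : List Bool) (op : Op Bool) (hs : S' + 1 ≤ S)
    (hr : r' ≤ r + (p + 3))
    (hst : op = Op.none ∨ op = Op.pop ∨ ((∃ b, op = Op.push b) ∧ r' ≤ r)) :
    (p + 6) * S' + (op.apply st).length + r' + 1 ≤ (p + 6) * S + st.length + r := by
  have hm : (p + 6) * S' + (p + 6) ≤ (p + 6) * S := by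
    calc (p + 6) * S' + (p + 6) = (p + 6) * (S' + 1) := by ring
      _ ≤ (p + 6) * S := Nat.mul_le_mul_left _ hs
  rcases hst with hst | hst | ⟨⟨b, hst⟩, hr'⟩
  · rw [hst]
    simp only [Op.apply]
    omega
  · rw [hst]
    simp only [Op.apply, List.length_tail]
    omega
  · rw [hst]
    simp only [Op.apply, List.length_cons]
    omega

lemma aux2 {p S S' r r' : ℕ} (st : List Bool) (op : Op Bool) (hs : S' ≤ S)
    (hst : (op = Op.none ∧ r' + 1 ≤ r) ∨ (op = Op.pop ∧ st.head? ≠ none ∧ r' ≤ r)) :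
    (p + 6) * S' + (op.apply st).length + r' + 1 ≤ (p + 6) * S + st.length + r := by
  have hm : (p + 6) * S' ≤ (p + 6) * S := Nat.mul_le_mul_left _ hs
  rcases hst with ⟨hst, hr⟩ | ⟨hst, hg, hr⟩
  · rw [hst]
    simp only [Op.apply]
    omega
  · have hl : 0 < st.length := by
      rw [List.length_pos_iff]
      intro h0
      apply hg
      rw [h0]
      rfl
    rw [hst]
    simp only [Op.apply, List.length_tail]
    omega

lemma step_phi {p : ℕ} (w : List (Lt (p + 1))) (c c' : Cfg (PSt (p + 1)) (Fin (p + 1) → ℕ) Bool)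
    (hc : ∀ i, c.pos i ≤ w.length + 1) (h : (pdaM p).Step w c c') :
    (∀ i, c'.pos i ≤ w.length + 1) ∧ phi (w.length + 1) c' + 1 ≤ phi (w.length + 1) c := by
  obtain ⟨tr, htr, hc'⟩ := h
  have htr' : pstep c.state (fun i => tape w (c.pos i)) c.stack.head? = some tr := htr
  obtain ⟨hL, hk⟩ := step_kind _ _ _ _ htr'
  have hs1 := sum_le c.pos tr.2.1 hL hc
  subst hc'
  refine ⟨fun i => move_le (hc i), ?_⟩
  show (p + 6) * (∑ i, (w.length + 1 - move (w.length + 1) (c.pos i) (tr.2.1 i))) +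
    (tr.2.2.apply c.stack).length + rk tr.1 + 1 ≤
    (p + 6) * (∑ i, (w.length + 1 - c.pos i)) + c.stack.length + rk c.state
  rcases hk with ⟨⟨i, hiR, hix⟩, hr, hst⟩ | hst | hst
  · have hi : c.pos i < w.length + 1 := by
      rcases hix with hx | ⟨a, hx⟩
      · rw [tape_left hx]; omega
      · have := tape_letter hx
        omega
    have hs2 := sum_lt c.pos tr.2.1 hL hc i hiR hi
    exact aux1 c.stack tr.2.2 hs2 hr hst
  · exact aux2 c.stack tr.2.2 hs1 (Or.inl hst)
  · exact aux2 c.stack tr.2.2 hs1 (Or.inr hst)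

lemma reach_phi {p : ℕ} (w : List (Lt (p + 1))) (t : ℕ)
    (c : Cfg (pdaM p).Q (Fin (p + 1) → ℕ) (pdaM p).Γ) (h : (pdaM p).Reach w t c) :
    (∀ i, c.pos i ≤ w.length + 1) ∧
      t + phi (p := p) (w.length + 1) c ≤ (p + 6) * (p + 1) * (w.length + 1) + 1 := by
  induction h with
  | zero =>
    refine ⟨fun i => Nat.zero_le _, ?_⟩
    show 0 + ((p + 6) * (∑ _i : Fin (p + 1), (w.length + 1 - 0)) + 0 + 1) ≤ _
    simp only [Nat.sub_zero, Finset.sum_const, Finset.card_univ, Fintype.card_fin, smul_eq_mul]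
    rw [← mul_assoc]
    omega
  | succ _ hs ih =>
    have := step_phi w _ _ ih.1 hs
    refine ⟨this.1, ?_⟩
    have h2 := this.2
    have h3 := ih.2
    omega

end Pool.Agent.NQ2.PTIMEx

namespace Pool.Agent.NQ2

/-- Module PTIME. -/
theorem t_PTIME : PTIME_Stmt := by
  intro p w t c h
  have := (PTIMEx.reach_phi w t c h).2
  omega

end Pool.Agent.NQ2
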